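-- Proof of frozen statement S08318: a 6-vertex tournament with 4 colours, no rainbow directed cycle
-- and no vertex that reaches everything monochromatically.
import Pool.Statements.S08318

set_option autoImplicit false
open Pool Pool.MP_3fd808_co

namespace Pool.Agent.S08318

/-- Arc relation of the tournament on six vertices. -/
def adjB : Fin 6 → Fin 6 → Bool :=
  ![![false, true, true, true, false, false],
    ![false, false, true, true, false, false],
    ![false, false, false, true, true, false],
    ![false, false, false, false, true, true],
    ![true, true, false, false, false, true],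
    ![true, true, true, false, false, false]]

/-- The colouring (entries on non-arcs are irrelevant). -/
def colF : Fin 6 → Fin 6 → Fin 4 :=
  ![![0, 0, 3, 0, 0, 0],
    ![0, 0, 1, 3, 0, 0],
    ![0, 0, 0, 2, 1, 0],
    ![0, 0, 0, 0, 0, 2],
    ![3, 0, 0, 0, 0, 1],
    ![2, 3, 0, 0, 0, 0]]

/-- `reachB a v w`: a set of vertices containing everything reachable from `v` in colour `a`. -/
def reachB : Fin 4 → Fin 6 → Fin 6 → Bool :=
  ![![![false, true, false, true, true, false],
      ![false, false, false, false, false, false],
      ![false, false, false, false, false, false],
      ![false, true, false, false, true, false],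
      ![false, true, false, false, false, false],
      ![false, false, true, false, false, false]],
    ![![false, false, false, false, false, false],
      ![false, false, true, false, true, true],
      ![false, false, false, false, true, true],
      ![false, false, false, false, false, false],
      ![false, false, false, false, false, true],
      ![false, false, false, false, false, false]],
    ![![false, false, false, false, false, false],
      ![false, false, false, false, false, false],
      ![true, false, false, true, false, true],
      ![true, false, false, false, false, true],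
      ![false, false, false, false, false, false],
      ![true, false, false, false, false, false]],
    ![![false, false, true, false, false, false],
      ![false, false, false, true, false, false],
      ![false, false, false, false, false, false],
      ![false, false, false, false, false, false],
      ![true, false, true, false, false, false],
      ![false, true, false, true, false, false]]]

theorem reach_base : ∀ v w : Fin 6, adjB v w = true → reachB (colF v w) v w = true := by
  decide

theorem reach_step : ∀ v u w : Fin 6, adjB u w = true → reachB (colF u w) v u = true →
    reachB (colF u w) v w = true := by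
  decide

theorem reach_miss : ∀ (a : Fin 4) (v : Fin 6), reachB a v (v - 1) = false := by
  decide

theorem no_tri : ∀ x y z : Fin 6, adjB x y = true → adjB y z = true → adjB z x = true →
    colF x y = colF y z ∨ colF y z = colF z x ∨ colF x y = colF z x := by
  decide

theorem no_four : ∀ x y z w : Fin 6, adjB x y = true → adjB y z = true → adjB z w = true →
    adjB w x = true →
    colF x y = colF y z ∨ colF x y = colF z w ∨ colF x y = colF w x ∨
      colF y z = colF z w ∨ colF y z = colF w x ∨ colF z w = colF w x := by
  decide +kernel

theorem pred_ne : ∀ v : Fin 6, v - 1 ≠ v := by
  decide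

theorem reach_of_transGen (a : ℕ) (v w : Fin 6)
    (h : Relation.TransGen (fun x y : Fin 6 => adjB x y = true ∧ (colF x y : ℕ) = a) v w) :
    ∃ b : Fin 4, (b : ℕ) = a ∧ reachB b v w = true := by
  induction h with
  | single h => exact ⟨_, h.2, reach_base _ _ h.1⟩
  | tail _ h ih =>
    obtain ⟨b, hb, hr⟩ := ih
    refine ⟨_, h.2, reach_step _ _ _ h.1 ?_⟩
    have : colF _ _ = b := Fin.ext (h.2.trans hb.symm)
    rw [this]; exact hr

/-- The negation of the preceding statement: Every nonempty finite tournament with arcs coloured by naturals has a directed cycle whose arcs all have distinct colours, or a vertex from which every other vertex is reachable by a one-colour directed path. -/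
theorem result :
    ¬ (∀ (V : Type) [Fintype V] [Nonempty V] (adj : V → V → Prop) (c : V → V → ℕ),
      (∀ x y : V, adj x y → ¬ adj y x) →
      (∀ x y : V, x ≠ y → adj x y ∨ adj y x) →
      (∃ (k : ℕ) (f : ℕ → V), 3 ≤ k ∧
          (∀ i j : ℕ, i < k → j < k → f i = f j → i = j) ∧
          (∀ i : ℕ, i < k → adj (f i) (f ((i + 1) % k))) ∧
          (∀ i j : ℕ, i < k → j < k →
            c (f i) (f ((i + 1) % k)) = c (f j) (f ((j + 1) % k)) → i = j)) ∨
      (∃ v : V, ∀ w : V, w ≠ v →
          ∃ a : ℕ, Relation.TransGen (fun x y : V => adj x y ∧ c x y = a) v w)) := by
  intro H
  have h := H (Fin 6) (fun x y => adjB x y = true) (fun x y => (colF x y : ℕ))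
    (by decide) (by decide)
  rcases h with ⟨k, f, hk, -, hadj, hcol⟩ | ⟨v, hv⟩
  · have hk4 : k ≤ 4 := by
      have hinj : Function.Injective
          (fun i : Fin k => colF (f i) (f ((i + 1) % k))) := by
        intro i j hij
        exact Fin.ext (hcol i j i.2 j.2 (congrArg Fin.val hij))
      simpa using Fintype.card_le_of_injective _ hinj
    have hne : ∀ i j : ℕ, i < k → j < k → i ≠ j →
        colF (f i) (f ((i + 1) % k)) ≠ colF (f j) (f ((j + 1) % k)) :=
      fun i j hi hj hij h => hij (hcol i j hi hj (congrArg Fin.val h))
    obtain rfl | rfl : k = 3 ∨ k = 4 := by omega
    · have h0 := hadj 0 (by norm_num)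
      have h1 := hadj 1 (by norm_num)
      have h2 := hadj 2 (by norm_num)
      rcases no_tri _ _ _ h0 h1 h2 with h | h | h
      · exact hne 0 1 (by norm_num) (by norm_num) (by norm_num) h
      · exact hne 1 2 (by norm_num) (by norm_num) (by norm_num) h
      · exact hne 0 2 (by norm_num) (by norm_num) (by norm_num) h
    · have h0 := hadj 0 (by norm_num)
      have h1 := hadj 1 (by norm_num)
      have h2 := hadj 2 (by norm_num)
      have h3 := hadj 3 (by norm_num)
      rcases no_four _ _ _ _ h0 h1 h2 h3 with h | h | h | h | h | h
      · exact hne 0 1 (by norm_num) (by norm_num) (by norm_num) h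
      · exact hne 0 2 (by norm_num) (by norm_num) (by norm_num) h
      · exact hne 0 3 (by norm_num) (by norm_num) (by norm_num) h
      · exact hne 1 2 (by norm_num) (by norm_num) (by norm_num) h
      · exact hne 1 3 (by norm_num) (by norm_num) (by norm_num) h
      · exact hne 2 3 (by norm_num) (by norm_num) (by norm_num) h
  · have hw : v - 1 ≠ v := pred_ne v
    obtain ⟨a, ha⟩ := hv (v - 1) hw
    obtain ⟨b, -, hb⟩ := reach_of_transGen a v (v - 1) ha
    rw [reach_miss] at hb
    exact Bool.false_ne_true hb

end Pool.Agent.S08318
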