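import Pool.Statements.S00308
import Pool.Agent.Lib.MP_8fff0f_ag.Data

set_option autoImplicit false
open Pool Pool.MP_8fff0f_ag

namespace Pool.Agent.S00308

/-- The negation of the preceding statement: For every finite abelian group G, the toric ideal of the group-based model on the tripod is generated by polynomials of degree at most ∣G∣. This ideal is the kernel of q_{(g1,g2,g3)} ↦ a1_{g1}·a2_{g2}·a3_{g3} over tuples with g1+g2+g3=0. -/
theorem result :
    ¬ (∀ (G : Type) [AddCommGroup G] [Fintype G],
      ∃ S : Set (MvPolynomial {g : Fin 3 → G // ∑ i, g i = 0} ℂ),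
        (∀ p ∈ S, p.totalDegree ≤ Fintype.card G) ∧
        Ideal.span S =
          RingHom.ker
            (MvPolynomial.aeval
              (fun g : {g : Fin 3 → G // ∑ i, g i = 0} =>
                ∏ i : Fin 3, (MvPolynomial.X (i, g.1 i) : MvPolynomial (Fin 3 × G) ℂ)))) := by
  intro h
  obtain ⟨S, hS, hspan⟩ := h (ZMod 761)
  rw [ZMod.card] at hS
  exact Pool.Agent.Lib.MP_8fff0f_ag.zmod_not_generated 761 (by norm_num) ⟨S, hS, hspan⟩

end Pool.Agent.S00308
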