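import Pool.Statements.S00605
import Pool.Agent.Lib.MP_040728_al.QMain

set_option autoImplicit false
open Pool Pool.MP_040728_al

namespace Pool.Agent.S00605

/-- For 1≤p≤2 and q its conjugate: if every uniformly bounded rep of the group Γ on a Hilbert space becomes isometric under some equivalent norm isometric to a quotient of a subspace of an L^p space, then every Littlewood function on Γ lies in ℓ^q. -/
theorem result :
    ∀ (p : ENNReal) [Fact (1 ≤ p)], p ≤ 2 → ∀ q : ENNReal, p⁻¹ + q⁻¹ = 1 →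
      ∀ (Γ : Type) [Group Γ],
        (∀ (H : Type) [NormedAddCommGroup H] [InnerProductSpace ℂ H] [CompleteSpace H]
            (π : Γ →* (H →L[ℂ] H)ˣ),
            (∃ C : ℝ, ∀ g : Γ, ‖((π g : (H →L[ℂ] H)ˣ) : H →L[ℂ] H)‖ ≤ C) →
            ∃ (X : Type) (_ : MeasurableSpace X) (μ : MeasureTheory.Measure X)
              (Y : Submodule ℂ (MeasureTheory.Lp ℂ p μ)) (Z : Submodule ℂ Y)
              (T : H ≃L[ℂ] (↥Y ⧸ Z)),
              IsClosed (Y : Set (MeasureTheory.Lp ℂ p μ)) ∧ IsClosed (Z : Set Y) ∧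
              ∀ (g : Γ) (v : H),
                ‖T (((π g : (H →L[ℂ] H)ˣ) : H →L[ℂ] H) v)‖ = ‖T v‖) →
        ∀ f : Γ → ℂ,
          (∃ g₁ g₂ : Γ → Γ → ℂ,
            (∀ x y : Γ, f (x⁻¹ * y) = g₁ x y + g₂ x y) ∧
            (∃ C : ℝ, ∀ x : Γ, Summable (fun y => ‖g₁ x y‖) ∧ (∑' y, ‖g₁ x y‖) ≤ C) ∧
            (∃ C : ℝ, ∀ y : Γ, Summable (fun x => ‖g₂ x y‖) ∧ (∑' x, ‖g₂ x y‖) ≤ C)) →
          Memℓp f q := by
  intro p _ h2 q hq Γ _ hiso f ⟨g₁, g₂, hf, b1, b2⟩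
  have h1 : 1 ≤ p := Fact.out
  have ht : p ≠ ⊤ := (lt_of_le_of_lt h2 ENNReal.ofNat_lt_top).ne
  by_cases hqt : q = ⊤
  · subst hqt
    obtain ⟨C, b1⟩ := b1
    obtain ⟨D, b2⟩ := b2
    refine memℓp_infty ⟨C + D, ?_⟩
    rintro _ ⟨g, rfl⟩
    have a1 := (b1 1).1.le_tsum g (fun _ _ => norm_nonneg _)
    have a2 := (b2 g).1.le_tsum 1 (fun _ _ => norm_nonneg _)
    have a3 := hf 1 g
    rw [inv_one, one_mul] at a3
    simp only [a3]
    linarith [norm_add_le (g₁ 1 g) (g₂ 1 g), (b1 1).2, (b2 g).2]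
  have p0 : p ≠ 0 := (lt_of_lt_of_le zero_lt_one h1).ne'
  have q0 : q ≠ 0 := by
    rintro rfl
    simp at hq
  have e : p.toReal⁻¹ + q.toReal⁻¹ = 1 := by
    have := congrArg ENNReal.toReal hq
    rwa [ENNReal.toReal_add (ENNReal.inv_ne_top.mpr p0) (ENNReal.inv_ne_top.mpr q0),
      ENNReal.toReal_inv, ENNReal.toReal_inv, ENNReal.toReal_one] at this
  have r0 : 0 < p.toReal := ENNReal.toReal_pos p0 ht
  have s0 : 0 < q.toReal := ENNReal.toReal_pos q0 hqt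
  have r2 : p.toReal ≤ 2 := by simpa using ENNReal.toReal_mono ENNReal.ofNat_ne_top h2
  have r1 : 1 < p.toReal := (inv_lt_one₀ r0).mp (by linarith [inv_pos.mpr s0])
  have s2 : 2 ≤ q.toReal := by
    have a1 := inv_anti₀ r0 r2
    exact (inv_le_inv₀ s0 two_pos).mp (by linarith)
  exact memℓp_gen (Pool.Agent.Lib.MP_040728_al.Q.main r1 r2 e s2 hiso f g₁ g₂ hf b1 b2)

end Pool.Agent.S00605
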