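import Pool.Statements.S00698
import Pool.Agent.Lib.MP_0c623d_al.BP.Done

set_option autoImplicit false
open Pool Pool.MP_0c623d_al

namespace Pool.Agent.S00698

/-- The negation of the preceding statement: For every n ≥ 2 there is M such that for all m ≥ M, the free group of rank n modulo the normal subgroup generated by m-th powers of primitive elements is not residually finite. -/
theorem result :
    ¬ (∀ n : ℕ, 2 ≤ n → ∃ M : ℕ, ∀ m : ℕ, M ≤ m →
      ∃ g : FreeGroup (Fin n) ⧸ Subgroup.normalClosure
          {x : FreeGroup (Fin n) | ∃ b : FreeGroupBasis (Fin n) (FreeGroup (Fin n)),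
            ∃ i : Fin n, x = (b i) ^ m},
        g ≠ 1 ∧
        ∀ H : Subgroup (FreeGroup (Fin n) ⧸ Subgroup.normalClosure
          {x : FreeGroup (Fin n) | ∃ b : FreeGroupBasis (Fin n) (FreeGroup (Fin n)),
            ∃ i : Fin n, x = (b i) ^ m}),
          H.index ≠ 0 → g ∈ H) :=
  Pool.Agent.BP.F.fin Pool.Agent.Lib.MP_0c623d_al.BP.mainStmt Pool.Agent.BP.F.relStmt
    Pool.Agent.Lib.MP_0c623d_al.BP.an_all

end Pool.Agent.S00698
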