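import Pool.Statements.S01075
import Pool.Agent.Lib.MP_2ec175_al.Main

set_option autoImplicit false
open Pool Pool.MP_2ec175_al

namespace Pool.Agent.S01075

/-- For every finitely generated metabelian group and finite generating set, some finite multi-stack machine decides whether an input word is trivial, with total halting time over all length-n words at most C(n+1)(2m)^n. -/
theorem result :
    ∀ (G : Type) [Group G], derivedSeries G 2 = ⊥ →
      ∀ (m : ℕ) (f : Fin m → G), Subgroup.closure (Set.range f) = ⊤ →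
        ∃ (K : Type) (_ : DecidableEq K) (_ : Fintype K)
          (Γ : K → Type) (_ : ∀ k, Fintype (Γ k))
          (Λ : Type) (_ : Inhabited Λ) (_ : Fintype Λ)
          (σ : Type) (_ : Inhabited σ) (_ : Fintype σ)
          (M : Λ → Turing.TM2.Stmt Γ Λ σ) (k0 : K) (enc : Fin m × Bool → Γ k0)
          (acc : σ → Bool) (T : List (Fin m × Bool) → ℕ) (C : ℕ),
          Function.Injective enc ∧
          (∀ w : List (Fin m × Bool),
            (∃ c : Turing.TM2.Cfg Γ Λ σ,
              (fun d : Option (Turing.TM2.Cfg Γ Λ σ) => d.bind (Turing.TM2.step M))^[T w]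
                  (some (Turing.TM2.init k0 (w.map enc) : Turing.TM2.Cfg Γ Λ σ)) = some c ∧
                c.l = none ∧
                (acc c.var = true ↔ FreeGroup.lift f (FreeGroup.mk w) = 1)) ∧
            (∀ t < T w, ∀ c : Turing.TM2.Cfg Γ Λ σ,
              (fun d : Option (Turing.TM2.Cfg Γ Λ σ) => d.bind (Turing.TM2.step M))^[t]
                  (some (Turing.TM2.init k0 (w.map enc) : Turing.TM2.Cfg Γ Λ σ)) = some c →
                c.l ≠ none)) ∧
          (∀ n : ℕ, ∑ v : Fin n → Fin m × Bool, T (List.ofFn v) ≤ C * (n + 1) * (2 * m) ^ n) := by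
  intro G _ hG m f hf
  obtain ⟨cost, C, ⟨K, i1, i2, Γ, i3, Λ, i4, i5, σ, i6, i7, M, k0, enc, acc, T, h1, h2, h3⟩, hC⟩ :=
    Pool.Agent.Lib.MP_2ec175_al.main G hG m f hf
  exact ⟨K, i1, i2, Γ, i3, Λ, i4, i5, σ, i6, i7, M, k0, enc, acc, T, C, h1, h2, fun n =>
    (Finset.sum_le_sum fun v _ => h3 _).trans (hC n)⟩

end Pool.Agent.S01075
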