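import Pool.Statements.S01191
import Pool.Agent.Lib.MP_37ca1f_al.Main

set_option autoImplicit false
open Pool Pool.MP_37ca1f_al

namespace Pool.Agent.S01191

/-- Every topological group having infinitely many free ultrafilters converging to the identity can be split into two complementary dense subsets. -/
theorem result :
    ∀ (G : Type) [Group G] [TopologicalSpace G] [IsTopologicalGroup G],
      Set.Infinite {p : Ultrafilter G | (p : Filter G) ≤ Filter.cofinite ∧ (p : Filter G) ≤ nhds 1} →
        ∃ A : Set G, Dense A ∧ Dense Aᶜ := by
  intro G _ _ _ hS
  exact (Pool.Agent.Lib.MP_37ca1f_al.res_main hS).dense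

end Pool.Agent.S01191
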