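import Pool.Statements.S01724
import Pool.Agent.Lib.MP_6441f0_al.UG2

set_option autoImplicit false
open Pool Pool.MP_6441f0_al

namespace Pool.Agent.S01724

open Pool.Agent.Lib.MP_6441f0_al

/-- Counterexample: the Sylow 5-subgroup of the Chevalley group of type G2 over the field with
25 elements has character degrees 1, 25, 625 and derived length three. -/
theorem result :
    ¬ (∀ (p : ℕ), p.Prime → ∀ (G : Type) [Group G] [Finite G], IsPGroup p G →
      ∀ S : Set ℕ,
        S = {n : ℕ | ∃ (V : Type) (_ : AddCommGroup V) (_ : Module ℂ V)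
              (_ : FiniteDimensional ℂ V) (ρ : Representation ℂ G V),
              Nontrivial V ∧
              (∀ W : Submodule ℂ V, (∀ g : G, ∀ v ∈ W, ρ g v ∈ W) → W = ⊥ ∨ W = ⊤) ∧
              Module.finrank ℂ V = n} →
        S.ncard = 3 → p ∉ S → derivedSeries G 2 = ⊥) := by
  intro h
  have hp : Nat.Prime 5 := by norm_num
  have : Fact (Nat.Prime 5) := ⟨hp⟩
  let K := GaloisField 5 2
  have : Fintype K := Fintype.ofFinite K
  have hcardN : Nat.card K = 5 ^ 2 := GaloisField.card 5 2 (by norm_num)
  have hcard : Fintype.card K = 25 := by rw [← Nat.card_eq_fintype_card, hcardN]; norm_num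
  have h2 : (2 : K) ≠ 0 := by
    intro h0
    have := (CharP.cast_eq_zero_iff K 5 2).1 (by exact_mod_cast h0)
    norm_num at this
  have h3 : (3 : K) ≠ 0 := by
    intro h0
    have := (CharP.cast_eq_zero_iff K 5 3).1 (by exact_mod_cast h0)
    norm_num at this
  have hP : IsPGroup 5 (GG K) := IsPGroup.of_card (n := 12) (by rw [GG.card, hcardN]; norm_num)
  have hdeg := degrees_GG (K := K) h2 h3
  rw [hcard] at hdeg
  refine derived_GG (K := K) h2 h3 (h 5 hp (GG K) hP _ hdeg.symm ?_ ?_)
  · rw [Set.ncard_eq_three]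
    exact ⟨1, 25, 25 ^ 2, by norm_num, by norm_num, by norm_num, rfl⟩
  · simp

end Pool.Agent.S01724
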