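import Pool.Statements.S01824
import Pool.Agent.Lib.MP_6cc228_al.Final

set_option autoImplicit false
open Pool Pool.MP_6cc228_al

namespace Pool.Agent.S01824

/-- The negation of the preceding statement: If G is a periodic group with an element t of order 2 whose centralizer is locally finite and has all Sylow 2-subgroups of order 2, then every finitely generated subgroup of G is finite. -/
theorem result :
    ¬ (∀ (G : Type) [Group G], Monoid.IsTorsion G →
      ∀ t : G, orderOf t = 2 →
        (∀ s : Set G, s.Finite → s ⊆ (Subgroup.centralizer ({t} : Set G) : Set G) →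
            ((Subgroup.closure s : Subgroup G) : Set G).Finite) →
        (∀ P : Sylow 2 (Subgroup.centralizer ({t} : Set G)),
            Nat.card (P : Subgroup (Subgroup.centralizer ({t} : Set G))) = 2) →
        ∀ s : Set G, s.Finite → ((Subgroup.closure s : Subgroup G) : Set G).Finite) := by
  intro H
  obtain ⟨G, _, t, hfg, hinf, htor, ht, hloc, h2⟩ := Pool.Agent.Lib.MP_6cc228_al.exists_group
  obtain ⟨s, hs, hsf⟩ := Group.fg_iff.1 hfg
  have := H G (fun g => by
      obtain ⟨a, ha⟩ := htor g
      exact isOfFinOrder_iff_pow_eq_one.2 ⟨_, by positivity, ha⟩) t ht hloc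
    (Pool.Agent.Lib.MP_6cc228_al.sylow_card ht h2) s hsf
  rw [hs] at this
  exact Set.infinite_univ this

end Pool.Agent.S01824
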