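import Pool.Statements.S01831
import Pool.Agent.Lib.HT.FS.Term54
import Pool.Agent.Lib.HT.FS.Fin
import Pool.Agent.Lib.HT.FS.CoreN
import Pool.Agent.Lib.HT.FS.Dec
import Pool.Agent.Lib.HT.FS.U
import Pool.Agent.Lib.HT.FS.Push56
import Pool.Agent.Lib.HT.Centre
import Pool.Agent.Lib.MP_6d85b4_al.HM.Final

set_option autoImplicit false
open Pool Pool.MP_6d85b4_al

namespace Pool.Agent.S01831

/-- For every finite Coxeter matrix whose Coxeter graph is connected and whose Coxeter group is infinite, the associated Artin group (braid relations of length m_ij, none when m_ij = ∞) has trivial center. -/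
theorem result :
    ∀ (n : ℕ) (M : CoxeterMatrix (Fin n)),
      (SimpleGraph.fromRel (fun i j : Fin n => M i j ≠ 2)).Connected →
      Infinite M.Group →
      Subgroup.center
        (PresentedGroup
          {r : FreeGroup (Fin n) | ∃ i j : Fin n, M i j ≠ 0 ∧
            r = ((CoxeterSystem.alternatingWord i j (M i j)).map FreeGroup.of).prod *
              (((CoxeterSystem.alternatingWord j i (M i j)).map FreeGroup.of).prod)⁻¹}) = ⊥ := by
  exact Pool.Agent.HT.final_thm Pool.Agent.HM.modelStmt (Pool.Agent.HT.free_of_blocks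
    (fun _ _ _ _ hM _ H _ h1 h2 => Pool.Agent.HT.FS.exists_sys hM H h1 h2)
    (Pool.Agent.HT.FS.T54.termC (fun _ _ _ _ F => F.finStmt))
    (fun _ _ _ _ F hT => Pool.Agent.HT.FS.B56.pushStmt hT F.finStmt
      (Pool.Agent.HT.FS.Sys.coreStmt hT)
      (Pool.Agent.HT.FS.Sys.decStmt hT (Pool.Agent.HT.FS.Sys.coreStmt hT))
      (Pool.Agent.HT.FS.Sys.uStmt hT)))

end Pool.Agent.S01831
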