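import Pool.Statements.S01986
import Pool.Agent.Lib.MP_78c6b1_al.Final

set_option autoImplicit false
open Pool Pool.MP_78c6b1_al

namespace Pool.Agent.S01986

/-- The negation of the preceding statement: For every prime p and every natural number a, some finite group of order p^m has k conjugacy classes with k = (m div 2)(p^2-1) + p^(m mod 2) + a(p^2-1)(p-1), i.e. abundance exactly a. -/
theorem result :
    ¬ (∀ p : ℕ, p.Prime → ∀ a : ℕ,
      ∃ (G : Type) (_ : Group G) (_ : Finite G) (m : ℕ),
        Nat.card G = p ^ m ∧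
        (Nat.card (ConjClasses G) : ℤ) =
          ((m / 2 : ℕ) : ℤ) * ((p : ℤ) ^ 2 - 1) + (p : ℤ) ^ (m % 2)
            + (a : ℤ) * ((p : ℤ) ^ 2 - 1) * ((p : ℤ) - 1)) :=
  Pool.Agent.P78.neg_of_class Pool.Agent.P78.classStmt

end Pool.Agent.S01986
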