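import Pool.Statements.S01987
import Pool.Agent.Lib.MP_7903c7_al.PT.Main
import Pool.Agent.Lib.MP_7903c7_al.B.Fin

set_option autoImplicit false
open Pool Pool.MP_7903c7_al

namespace Pool.Agent.S01987

/-- For a commutative domain R, a group G and an idempotent square matrix A over R[G]: if the order of g (0 if infinite) is not a unit in R, then the sum over diagonal entries of the coefficients at all conjugates of g is zero. -/
theorem result :
    ∀ (R : Type) [CommRing R] [IsDomain R] (G : Type) [Group G] (n : ℕ)
      (A : Matrix (Fin n) (Fin n) (MonoidAlgebra R G)),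
      IsIdempotentElem A →
      ∀ g : G, ¬ IsUnit ((orderOf g : ℕ) : R) →
        ∑ i : Fin n, ∑ᶠ (h : G) (_ : IsConj h g), (A i i).coeff h = 0 := by
  intro R _ _ G _ n A hA g hg
  exact Pool.Agent.Lib.MP_7903c7_al.Fin.of_core
    (fun h0 _ _ _ hp _ _ _ hA' => Pool.Agent.Lib.MP_7903c7_al.PT.core hp.out hA' h0) hA hg

end Pool.Agent.S01987
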