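import Pool.Statements.S02045
import Pool.Agent.Lib.MP_7d7b85_al.Final

set_option autoImplicit false
open Pool Pool.MP_7d7b85_al

namespace Pool.Agent.S02045

/-- For every prime p, every group G:Type whose elements all have p-power order, and every a of order p with ⟨a, g⁻¹ag⟩ finite for all g and C_G(a) ∩ a^G finite, the centre of G is nontrivial. -/
theorem result :
    ∀ (p : ℕ), p.Prime → ∀ (G : Type) [Group G], IsPGroup p G →
      ∀ a : G, orderOf a = p →
        (∀ g : G, ((Subgroup.closure ({a, g⁻¹ * a * g} : Set G) : Subgroup G) : Set G).Finite) →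
        ({x : G | Commute x a} ∩ {x : G | IsConj a x}).Finite →
        Subgroup.center G ≠ ⊥ :=
  fun p hp G _ hG a ha h1 h2 => Pool.Agent.Lib.MP_7d7b85_al.center_ne_bot p hp G hG a ha h1 h2

end Pool.Agent.S02045
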