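import Pool.Statements.S02260
import Pool.Agent.Lib.MP_902cec_al.Final

set_option autoImplicit false
open Pool Pool.MP_902cec_al

namespace Pool.Agent.S02260

/-- The negation of the preceding statement: For every finite group G and every finite-order unit u of ZG with augmentation 1, some finite group H contains G such that the image of u in QH is conjugate by a unit of QH to an element of G. -/
theorem result :
    ¬ (∀ (G : Type) [Group G] [Fintype G] (u : (MonoidAlgebra ℤ G)ˣ),
      (∀ ε : MonoidAlgebra ℤ G →+* ℤ,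
          (∀ g : G, ε (MonoidAlgebra.single g (1 : ℤ)) = 1) →
          ε (u : MonoidAlgebra ℤ G) = 1) →
      IsOfFinOrder u →
      ∃ (H : Type) (_ : Group H) (_ : Fintype H) (f : G →* H),
        Function.Injective f ∧
        ∃ φ : MonoidAlgebra ℤ G →+* MonoidAlgebra ℚ H,
          (∀ g : G, φ (MonoidAlgebra.single g (1 : ℤ))
              = MonoidAlgebra.single (f g) (1 : ℚ)) ∧
          ∃ (w : (MonoidAlgebra ℚ H)ˣ) (g : G),
            (w : MonoidAlgebra ℚ H) * φ (u : MonoidAlgebra ℤ G) *
                ((w⁻¹ : (MonoidAlgebra ℚ H)ˣ) : MonoidAlgebra ℚ H)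
              = MonoidAlgebra.single (f g) (1 : ℚ)) := by
  intro hall
  obtain ⟨G, _, _, -, u, h30, h1, h2⟩ := Pool.Agent.Lib.MP_902cec_al.exists_unit
  have := Fintype.ofFinite G
  obtain ⟨H, _, _, f, hf, φ, hφ, w, g, hw⟩ := hall G u
    (fun ε hε => by
      have := (Pool.Agent.Lib.MP_902cec_al.aug_eq ε hε u).trans h1
      exact_mod_cast this)
    (isOfFinOrder_iff_pow_eq_one.2 ⟨30, by norm_num, h30⟩)
  exact Pool.Agent.Lib.MP_902cec_al.not_conj f hf φ hφ u h2 w _ w.inv_mul (f g) hw

end Pool.Agent.S02260
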