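import Pool.Statements.S02811
import Pool.Agent.Lib.MP_b611b5_al.Kernel

set_option autoImplicit false
open Pool Pool.MP_b611b5_al

namespace Pool.Agent.S02811

/-- There is a finitely presented group acting faithfully and level-transitively on a spherically homogeneous rooted tree (branching at least 2) such that, at every level, the subgroup generated by the rigid vertex stabilizers has finite index. -/
theorem result :
    ∃ (n : ℕ) (rels : Finset (FreeGroup (Fin n))) (m : ℕ → ℕ)
      (φ : PresentedGroup (rels : Set (FreeGroup (Fin n))) →*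
        Equiv.Perm {l : List ℕ // ∀ i < l.length, l.getD i 0 < m i}),
      (∀ i, 2 ≤ m i) ∧
      Function.Injective φ ∧
      (∀ (g : PresentedGroup (rels : Set (FreeGroup (Fin n))))
          (v : {l : List ℕ // ∀ i < l.length, l.getD i 0 < m i}),
          ((φ g) v).1.length = v.1.length) ∧
      (∀ (g : PresentedGroup (rels : Set (FreeGroup (Fin n))))
          (v w : {l : List ℕ // ∀ i < l.length, l.getD i 0 < m i}),
          List.IsPrefix v.1 w.1 → List.IsPrefix ((φ g) v).1 ((φ g) w).1) ∧
      (∀ v w : {l : List ℕ // ∀ i < l.length, l.getD i 0 < m i},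
          v.1.length = w.1.length →
          ∃ g : PresentedGroup (rels : Set (FreeGroup (Fin n))), (φ g) v = w) ∧
      ∀ k : ℕ,
        (Subgroup.closure
          {g : PresentedGroup (rels : Set (FreeGroup (Fin n))) |
            ∃ v : {l : List ℕ // ∀ i < l.length, l.getD i 0 < m i},
              v.1.length = k ∧
              ∀ w : {l : List ℕ // ∀ i < l.length, l.getD i 0 < m i},
                ¬ List.IsPrefix v.1 w.1 → (φ g) w = w}).index ≠ 0 := by
  classical
  obtain ⟨G, _, X, _, _, φ, hfp, hinj, hlen, hpre, htr, hidx⟩ :=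
    Pool.Agent.Lib.MP_b611b5_al.exists_branch
  obtain ⟨n, s, hs, ⟨e⟩⟩ := Group.IsFinitelyPresented.exists_mulEquiv_presentedGroup (G := G)
  obtain ⟨rels, rfl⟩ := hs.exists_finset_coe
  have := Fintype.ofFinite X
  let c : X → ℕ := fun x => (Fintype.equivFin X x : ℕ)
  have hc : Function.Injective c := Fin.val_injective.comp (Fintype.equivFin X).injective
  let T₀ : List X → {l : List ℕ // ∀ i < l.length, l.getD i 0 < Fintype.card X} := fun l =>
    ⟨l.map c, fun i hi => by
      rw [List.getD_eq_getElem _ _ hi, List.getElem_map]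
      exact (Fintype.equivFin X _).2⟩
  have hT : Function.Bijective T₀ := by
    refine ⟨fun l l' h => (List.map_injective_iff.2 hc) (congrArg Subtype.val h), ?_⟩
    rintro ⟨l, hl⟩
    have h1 : ∀ a ∈ l, a ∈ Set.range c := by
      intro a ha
      obtain ⟨i, hi, rfl⟩ := List.getElem_of_mem ha
      have := hl i hi
      rw [List.getD_eq_getElem _ _ hi] at this
      exact ⟨(Fintype.equivFin X).symm ⟨_, this⟩, by simp [c]⟩
    obtain ⟨l', h⟩ := (Set.range_list_map c).ge h1
    exact ⟨l', Subtype.ext h⟩
  let T := Equiv.ofBijective T₀ hT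
  have hTp : ∀ l l', List.IsPrefix (T l).1 (T l').1 ↔ l <+: l' := fun l l' => by
    refine ⟨fun h => ?_, fun h => h.map c⟩
    obtain ⟨l'', h1, h2⟩ := List.prefix_map_iff.1 (show l.map c <+: l'.map c from h)
    rwa [(List.map_injective_iff.2 hc) h2]
  have hTl : ∀ l, (T l).1.length = l.length := fun l => List.length_map _
  let Φ := (T.permCongrHom.toMonoidHom.comp φ).comp e.symm.toMonoidHom
  have hΦ : ∀ g l, Φ g (T l) = T (φ (e.symm g) l) := fun g l => by simp [Φ]
  refine ⟨n, rels, fun _ => Fintype.card X, Φ, fun _ => Fintype.one_lt_card,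
    (T.permCongrHom.injective.comp hinj).comp e.symm.injective, fun g v => ?_, fun g v w h => ?_,
    fun v w h => ?_, fun k => ?_⟩
  · obtain ⟨v, rfl⟩ := T.surjective v
    rw [hΦ, hTl, hTl, hlen]
  · obtain ⟨v, rfl⟩ := T.surjective v
    obtain ⟨w, rfl⟩ := T.surjective w
    rw [hΦ, hΦ, hTp]
    exact hpre _ _ _ ((hTp _ _).1 h)
  · obtain ⟨v, rfl⟩ := T.surjective v
    obtain ⟨w, rfl⟩ := T.surjective w
    rw [hTl, hTl] at h
    obtain ⟨g, rfl⟩ := htr v w h
    exact ⟨e g, by rw [hΦ, e.symm_apply_apply]⟩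
  · rw [← Subgroup.index_comap_of_surjective (f := e.toMonoidHom) _ e.surjective]
    have : (Subgroup.closure {g : G | ∃ v : List X, v.length = k ∧
        ∀ w, ¬ v <+: w → φ g w = w}).FiniteIndex := ⟨hidx k⟩
    refine (Subgroup.finiteIndex_of_le (H := Subgroup.closure {g : G | ∃ v : List X,
      v.length = k ∧ ∀ w, ¬ v <+: w → φ g w = w}) ((Subgroup.closure_le _).2 ?_)).index_ne_zero
    rintro g ⟨v, hv, h⟩
    refine Subgroup.subset_closure ⟨T v, by rw [hTl, hv], fun w hw => ?_⟩
    obtain ⟨w, rfl⟩ := T.surjective w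
    rw [hΦ]
    change T (φ (e.symm (e g)) w) = T w
    rw [e.symm_apply_apply, h w fun e' => hw ((hTp _ _).2 e')]

end Pool.Agent.S02811
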