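import Pool.Statements.S04378
import Pool.Agent.Lib.MP_39e9bb_an.Star

set_option autoImplicit false
open Pool Pool.MP_39e9bb_an

namespace Pool.Agent.S04378

/-- The negation of the preceding statement: There is B>0 such that for every f holomorphic on the unit disk with f(0)=0, f'(0)=1, some disk of radius B lies in the principal star: points w whose segment [0,w] lifts through f to a path from 0 in the disk avoiding zeros of f'. -/
theorem result :
    ¬ (∃ B : ℝ, 0 < B ∧
      ∀ f : ℂ → ℂ, DifferentiableOn ℂ f (Metric.ball (0 : ℂ) 1) → f 0 = 0 → deriv f 0 = 1 →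
        ∃ c : ℂ, Metric.ball c B ⊆
          {w : ℂ | ∃ γ : ℝ → ℂ, ContinuousOn γ (Set.Icc (0 : ℝ) 1) ∧ γ 0 = 0 ∧
            ∀ t ∈ Set.Icc (0 : ℝ) 1,
              γ t ∈ Metric.ball (0 : ℂ) 1 ∧ f (γ t) = (t : ℂ) * w ∧ deriv f (γ t) ≠ 0}) := by
  rintro ⟨B, hB, h⟩
  obtain ⟨f, hf, hf0, hf1, hno⟩ := Pool.Agent.Lib.MP_39e9bb_an.no_disk B hB
  obtain ⟨c, hc⟩ := h f hf.differentiableOn hf0 hf1
  exact hno c hc

end Pool.Agent.S04378
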