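import Pool.Statements.S04499
import Pool.Agent.Lib.MP_435399_an.Main

set_option autoImplicit false
open MeasureTheory Filter Topology
open Pool Pool.MP_435399_an

namespace Pool.Agent.S04499

/-- If the kernels (1−z_n z)^(−2), z_n in the unit disc, do not span the Bergman space, and finite combinations converge in Bergman norm to f while tending uniformly to 0 on a disc outside the closed unit disc, then f is identically zero. -/
theorem result :
    ∀ (z : ℕ → ℂ), (∀ n, ‖z n‖ < 1) →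
      (∃ h : ℂ → ℂ, DifferentiableOn ℂ h (Metric.ball (0 : ℂ) 1) ∧
        IntegrableOn (fun w => ‖h w‖ ^ 2) (Metric.ball (0 : ℂ) 1) ∧
        ∃ ε : ℝ, 0 < ε ∧ ∀ (s : Finset ℕ) (a : ℕ → ℂ),
          ε ≤ ∫ w in Metric.ball (0 : ℂ) 1,
            ‖h w - ∑ n ∈ s, a n * ((1 - z n * w) ^ 2)⁻¹‖ ^ 2) →
      ∀ (S : ℕ → Finset ℕ) (c : ℕ → ℕ → ℂ) (f : ℂ → ℂ),
        DifferentiableOn ℂ f (Metric.ball (0 : ℂ) 1) →
        IntegrableOn (fun w => ‖f w‖ ^ 2) (Metric.ball (0 : ℂ) 1) →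
        Tendsto (fun j : ℕ => ∫ w in Metric.ball (0 : ℂ) 1,
            ‖(∑ n ∈ S j, c j n * ((1 - z n * w) ^ 2)⁻¹) - f w‖ ^ 2) atTop (𝓝 0) →
        ∀ (c0 : ℂ) (r : ℝ), 0 < r → Metric.ball c0 r ⊆ {w : ℂ | 1 < ‖w‖} →
          TendstoUniformlyOn
            (fun (j : ℕ) (w : ℂ) => ∑ n ∈ S j, c j n * ((1 - z n * w) ^ 2)⁻¹)
            (fun _ => (0 : ℂ)) atTop (Metric.ball c0 r) →
          ∀ w ∈ Metric.ball (0 : ℂ) 1, f w = 0 := by
  rintro z hz ⟨h, hhd, hhi, ε, hε, hfar⟩ S c f hfd hfi hconv c0 r hr hsub hunif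
  refine Pool.Agent.Lib.MP_435399_an.main hz hhd hhi hε hfar S c hfd hfi hconv
    (hsub (Metric.mem_ball_self hr)) ?_
  have hev : ∀ᶠ w in 𝓝[≠] c0, w ∈ Metric.ball c0 r :=
    mem_nhdsWithin_of_mem_nhds (Metric.ball_mem_nhds c0 hr)
  exact ((Pool.Agent.Lib.MP_435399_an.frequently_off_poles z c0).and_eventually hev).mono
    fun w hw => ⟨hw.1, hunif.tendsto_at hw.2⟩

end Pool.Agent.S04499
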