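import Pool.Statements.S04596
import Pool.Agent.Lib.MP_4b554f_an.Final

set_option autoImplicit false
open Pool Pool.MP_4b554f_an

namespace Pool.Agent.S04596

/-- The negation of the preceding statement: For every d ≥ 3 and finite alphabet, a set Y of bi-infinite sequences is the restriction to the first axis of some ℤ³ shift of finite type exactly when it is the restriction to the first axis of some ℤ^d shift of finite type. -/
theorem result :
    ¬ (∀ d : ℕ, 3 ≤ d → ∀ n : ℕ, ∀ Y : Set (ℤ → Fin n),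
      (∃ F : Finset (Fin 3 → ℤ), ∃ P : Set ((Fin 3 → ℤ) → Fin n),
        Y = {y : ℤ → Fin n | ∃ x : (Fin 3 → ℤ) → Fin n,
          (∀ v : Fin 3 → ℤ, ∃ p ∈ P, ∀ u ∈ F, x (v + u) = p u) ∧
          ∀ i : ℤ, y i = x (fun j : Fin 3 => if j.val = 0 then i else 0)}) ↔
      (∃ F : Finset (Fin d → ℤ), ∃ P : Set ((Fin d → ℤ) → Fin n),
        Y = {y : ℤ → Fin n | ∃ x : (Fin d → ℤ) → Fin n,
          (∀ v : Fin d → ℤ, ∃ p ∈ P, ∀ u ∈ F, x (v + u) = p u) ∧
          ∀ i : ℤ, y i = x (fun j : Fin d => if j.val = 0 then i else 0)})) := by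
  intro H
  obtain ⟨n, Y, h1, h2⟩ := Pool.Agent.Lib.MP_4b554f_an.exists_sep
  exact h2 ((H 8 (by norm_num) n Y).2 h1)

end Pool.Agent.S04596
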