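import Pool.Statements.S04632
import Pool.Agent.Lib.MP_4e4ac8_an.LV.Fin

set_option autoImplicit false
open Pool Pool.MP_4e4ac8_an

namespace Pool.Agent.S04632

/-- The negation of the preceding statement: There is a nonempty closed C^∞ real hypersurface of P^2 (given as a closed complex cone in C^3 minus 0 with local defining functions, dr nonzero) whose Levi form vanishes on its complex tangent vectors, i.e. it is Levi-flat. -/
theorem result :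
    ¬ (∃ S : Set (Fin 3 → ℂ), S.Nonempty ∧ (0 : Fin 3 → ℂ) ∉ S ∧ IsClosed (insert 0 S) ∧
      (∀ z ∈ S, ∀ c : ℂ, c ≠ 0 → c • z ∈ S) ∧
      ∀ p ∈ S, ∃ U : Set (Fin 3 → ℂ), IsOpen U ∧ p ∈ U ∧ ∃ r : (Fin 3 → ℂ) → ℝ,
        ContDiffOn ℝ ((⊤ : ℕ∞) : WithTop ℕ∞) r U ∧
        (∀ q ∈ U, q ∈ S ↔ r q = 0) ∧
        ∀ q ∈ U ∩ S, fderiv ℝ r q ≠ 0 ∧
          ∀ ξ : Fin 3 → ℂ, fderiv ℝ r q ξ = 0 → fderiv ℝ r q (Complex.I • ξ) = 0 →
            iteratedFDeriv ℝ 2 r q ![ξ, ξ]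
              + iteratedFDeriv ℝ 2 r q ![Complex.I • ξ, Complex.I • ξ] = 0) := by
  rintro ⟨S, h⟩
  exact Pool.Agent.Lib.MP_4e4ac8_an.LV.no_hyp S h

end Pool.Agent.S04632
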