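import Pool.Statements.S04672
import Pool.Agent.Lib.MP_51cccb_an.Example

set_option autoImplicit false
open Pool Pool.MP_51cccb_an

namespace Pool.Agent.S04672

/-- The negation of the preceding statement: For every univalent f on the unit disk with f(0)=0, f'(0)=1 and log(f(z)/z)=2Σγ_k z^k, the sum Σ k∣γ_k∣ r^k is O(1/(1−r)) as r→1 from below. -/
theorem result :
    ¬ (∀ (f : ℂ → ℂ) (γ : ℕ → ℂ),
      AnalyticOnNhd ℂ f (Metric.ball (0 : ℂ) 1) →
      Set.InjOn f (Metric.ball (0 : ℂ) 1) →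
      f 0 = 0 →
      deriv f 0 = 1 →
      (∀ z : ℂ, ‖z‖ < 1 → z ≠ 0 →
        ∃ s : ℂ, HasSum (fun k : ℕ => γ (k + 1) * z ^ (k + 1)) s ∧
          f z = z * Complex.exp (2 * s)) →
      Asymptotics.IsBigO (nhdsWithin (1 : ℝ) (Set.Iio 1))
        (fun r : ℝ => ∑' k : ℕ, ((k : ℝ) + 1) * ‖γ (k + 1)‖ * r ^ (k + 1))
        (fun r : ℝ => 1 / (1 - r))) := by
  intro h
  open Pool.Agent.Lib.MP_51cccb_an in
  refine not_isBigO (h (fun z => z * Complex.exp (ex.g z)) (coef ex.g) ?_ ex.injOn (by simp) ?_ ?_)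
  · exact (differentiableOn_id.mul
      Pool.Agent.Lib.MP_51cccb_an.ex.differentiableOn_g.cexp).analyticOnNhd Metric.isOpen_ball
  · have h1 := (hasDerivAt_id (0 : ℂ)).mul
      (Pool.Agent.Lib.MP_51cccb_an.ex.hasDerivAt_g (z := 0) (by simp)).cexp
    have h2 := h1.deriv
    simp only [Pool.Agent.Lib.MP_51cccb_an.Disc.g_zero, Complex.exp_zero, id_eq, zero_mul,
      mul_one, add_zero] at h2
    exact h2
  · intro z hz _
    refine ⟨_, Pool.Agent.Lib.MP_51cccb_an.hasSum_coef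
      Pool.Agent.Lib.MP_51cccb_an.ex.differentiableOn_g
      Pool.Agent.Lib.MP_51cccb_an.ex.g_zero hz, ?_⟩
    congr 2
    ring

end Pool.Agent.S04672
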