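import Pool.Statements.S04719

set_option autoImplicit false
open Pool Pool.MP_565f87_an

namespace Pool.Agent.S04719

/-- Every locally finite monoid is surjunctive.  By compactness an injective cellular automaton
has a finite inverse window `T`; on the finite right-invariant sets `Ω * ⟨T⟩` the induced map is an
injective self-map of a finite set, hence onto, so the image is dense; it is closed by compactness. -/
theorem result :
    ∀ (M : Type) [Monoid M],
      (∀ s : Finset M, (Submonoid.closure (s : Set M) : Set M).Finite) →
      ∀ (k : ℕ) (τ : (M → Fin k) → (M → Fin k)),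
        (∃ S : Finset M, ∃ μ : ({a : M // a ∈ S} → Fin k) → Fin k,
          ∀ (x : M → Fin k) (m : M), τ x m = μ (fun s => x (m * s.1))) →
        Function.Injective τ → Function.Surjective τ := by
  intro M _ hLF k τ hτ hinj
  classical
  obtain ⟨S, μ, hμ⟩ := hτ
  -- each coordinate of `τ` is continuous
  have hcont : ∀ m : M, Continuous (fun x : M → Fin k => τ x m) := by
    intro m
    have : (fun x : M → Fin k => τ x m) = fun x => μ (fun s => x (m * s.1)) := by
      funext x; exact hμ x m
    rw [this]
    have h1 : Continuous μ := continuous_of_discreteTopology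
    exact h1.comp (continuous_pi fun s => continuous_apply _)
  -- finite inverse window
  have hT : ∃ T : Finset M, ∀ x y : M → Fin k, (∀ t ∈ T, τ x t = τ y t) → x 1 = y 1 := by
    let K : Set ((M → Fin k) × (M → Fin k)) := {p | p.1 1 ≠ p.2 1}
    have hc1 : Continuous (fun p : (M → Fin k) × (M → Fin k) => (p.1 1, p.2 1)) := by
      fun_prop
    have hK : IsClosed K := by
      have : K = (fun p : (M → Fin k) × (M → Fin k) => (p.1 1, p.2 1)) ⁻¹' {q | q.1 ≠ q.2} := rfl
      rw [this]
      exact (isClosed_discrete _).preimage hc1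
    let U : M → Set ((M → Fin k) × (M → Fin k)) := fun t => {p | τ p.1 t ≠ τ p.2 t}
    have hU : ∀ t, IsOpen (U t) := by
      intro t
      have hc : Continuous (fun p : (M → Fin k) × (M → Fin k) => (τ p.1 t, τ p.2 t)) :=
        ((hcont t).comp continuous_fst).prodMk ((hcont t).comp continuous_snd)
      have : U t = (fun p : (M → Fin k) × (M → Fin k) => (τ p.1 t, τ p.2 t)) ⁻¹'
          {q | q.1 ≠ q.2} := rfl
      rw [this]
      exact (isOpen_discrete _).preimage hc
    have hcov : K ⊆ ⋃ t, U t := by
      intro p hp
      by_contra hne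
      simp only [Set.mem_iUnion, not_exists] at hne
      have : τ p.1 = τ p.2 := by
        funext t
        by_contra h
        exact hne t h
      have := hinj this
      exact hp (by rw [this])
    obtain ⟨T, hT⟩ := hK.isCompact.elim_finite_subcover U hU hcov
    refine ⟨T, fun x y hxy => ?_⟩
    by_contra hne
    have hmem : (x, y) ∈ K := hne
    have := hT hmem
    simp only [Set.mem_iUnion] at this
    obtain ⟨t, ht, h⟩ := this
    exact h (hxy t ht)
  obtain ⟨T, hT⟩ := hT
  have hT' : ∀ (x y : M → Fin k) (m : M), (∀ t ∈ T, τ x (m * t) = τ y (m * t)) → x m = y m := by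
    intro x y m h
    have := hT (fun a => x (m * a)) (fun a => y (m * a)) (by
      intro t ht
      have h1 := h t ht
      rw [hμ, hμ] at h1
      rw [hμ, hμ]
      simpa only [mul_assoc] using h1)
    simpa using this
  intro z
  -- approximate solvability on finite sets
  have happrox : ∀ Ω : Finset M, ∃ x : M → Fin k, ∀ m ∈ Ω, τ x m = z m := by
    intro Ω
    let N : Set M := (Submonoid.closure (T : Set M) : Set M)
    have hN : N.Finite := hLF T
    let F : Set M := Set.image2 (· * ·) (Ω : Set M) N
    have hF : F.Finite := Set.Finite.image2 _ Ω.finite_toSet hN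
    have hFT : ∀ f ∈ F, ∀ t ∈ T, f * t ∈ F := by
      rintro f ⟨a, ha, n, hn, rfl⟩ t ht
      refine ⟨a, ha, n * t, ?_, ?_⟩
      · exact Submonoid.mul_mem _ hn (Submonoid.subset_closure ht)
      · simp only [mul_assoc]
    have hΩF : ∀ m ∈ Ω, m ∈ F := fun m hm =>
      ⟨m, hm, 1, Submonoid.one_mem _, mul_one m⟩
    haveI : Finite F := hF.to_subtype
    let ext : (F → Fin k) → (M → Fin k) := fun u m => if h : m ∈ F then u ⟨m, h⟩ else z 1
    let φ : (F → Fin k) → (F → Fin k) := fun u f => τ (ext u) f.1
    have hφ : Function.Injective φ := by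
      intro u v huv
      funext f
      have h1 : ext u f.1 = ext v f.1 := by
        apply hT'
        intro t ht
        exact congrFun huv ⟨f.1 * t, hFT f.1 f.2 t ht⟩
      simpa [ext, f.2] using h1
    have hsurj : Function.Surjective φ := Finite.surjective_of_injective hφ
    obtain ⟨u, hu⟩ := hsurj (fun f => z f.1)
    exact ⟨ext u, fun m hm => congrFun hu ⟨m, hΩF m hm⟩⟩
  -- compactness
  by_contra hz
  let V : M → Set (M → Fin k) := fun m => {x | τ x m ≠ z m}
  have hV : ∀ m, IsOpen (V m) := by
    intro m
    have : V m = (fun x : M → Fin k => τ x m) ⁻¹' {a | a ≠ z m} := rfl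
    rw [this]
    exact (isOpen_discrete _).preimage (hcont m)
  have hcov : (Set.univ : Set (M → Fin k)) ⊆ ⋃ m, V m := by
    intro x _
    by_contra hne
    simp only [Set.mem_iUnion, not_exists] at hne
    apply hz
    refine ⟨x, ?_⟩
    funext m
    by_contra h
    exact hne m h
  obtain ⟨Ω, hΩ⟩ := isCompact_univ.elim_finite_subcover V hV hcov
  obtain ⟨x, hx⟩ := happrox Ω
  have := hΩ (Set.mem_univ x)
  simp only [Set.mem_iUnion] at this
  obtain ⟨m, hm, h⟩ := this
  exact h (hx m hm)

end Pool.Agent.S04719
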