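import Pool.Statements.S04813
import Pool.Agent.Lib.MP_5ea425_an.LOne

set_option autoImplicit false
open Pool Pool.MP_5ea425_an

namespace Pool.Agent.S04813

/-- Some separable infinite-dimensional real Banach space has an Aronszajn null set A and a bi-Lipschitz bijection f of the space onto itself such that the complement of f(A) is Aronszajn null. -/
theorem result :
    ∃ (X : Type) (_ : NormedAddCommGroup X) (_ : NormedSpace ℝ X) (_ : CompleteSpace X)
      (_ : TopologicalSpace.SeparableSpace X) (_ : MeasurableSpace X) (_ : BorelSpace X),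
      ¬ FiniteDimensional ℝ X ∧
      ∃ (A : Set X) (f : X ≃ X) (K L : NNReal),
        LipschitzWith K (⇑f) ∧ LipschitzWith L (⇑f.symm) ∧
        (MeasurableSet A ∧
          ∀ x : ℕ → X, Dense ((Submodule.span ℝ (Set.range x) : Set X)) →
            ∃ B : ℕ → Set X, (∀ n, MeasurableSet (B n)) ∧ A = ⋃ n, B n ∧
              ∀ n, ∀ y : X, MeasureTheory.volume {t : ℝ | y + t • x n ∈ B n} = 0) ∧
        (MeasurableSet ((⇑f '' A)ᶜ) ∧
          ∀ x : ℕ → X, Dense ((Submodule.span ℝ (Set.range x) : Set X)) →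
            ∃ B : ℕ → Set X, (∀ n, MeasurableSet (B n)) ∧ (⇑f '' A)ᶜ = ⋃ n, B n ∧
              ∀ n, ∀ y : X, MeasureTheory.volume {t : ℝ | y + t • x n ∈ B n} = 0) := by
  let _ : MeasurableSpace (ℝ × Pool.Agent.Lib.MP_5ea425_an.L1) := borel _
  have : BorelSpace (ℝ × Pool.Agent.Lib.MP_5ea425_an.L1) := ⟨rfl⟩
  have : Fact ((1 : ENNReal) ≠ ⊤) := ⟨ENNReal.one_ne_top⟩
  exact ⟨ℝ × Pool.Agent.Lib.MP_5ea425_an.L1, inferInstance, inferInstance, inferInstance,
    inferInstance, inferInstance, inferInstance, Pool.Agent.Lib.MP_5ea425_an.not_finite,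
    Pool.Agent.Lib.MP_5ea425_an.main_L1⟩

end Pool.Agent.S04813
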