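import Pool.Statements.S04835
import Pool.Agent.Lib.MP_6083a5_an.Main

set_option autoImplicit false
open N216bd313
open Filter Set MeasureTheory
open Pool Pool.MP_6083a5_an

namespace Pool.Agent.S04835

/-- For every injective sequence xs in [-1,1], for Lebesgue-a.e. x in (-1,1), 2/π ≤ limsup_n (∑_{k<n} ∣ℓ_k(x)∣)/log n in EReal, with ℓ_k the Lagrange basis polynomials on nodes xs 0..xs (n-1). -/
theorem result :
    ∀ (xs : ℕ → Icc (-1 : ℝ) 1), Function.Injective xs → ∀ᵐ x ∂volume.restrict (Ioo (-1 : ℝ) 1), (2 / Real.pi : EReal) ≤ atTop.limsup fun n : ℕ ↦ (lebesgueFunctionSeq xs n x / Real.log n : EReal) := by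
  intro xs hxs
  have hnull : ∀ (q : ℚ) (N : ℕ), (q : ℝ) < 2 / Real.pi → volume {x ∈ Icc (-1 : ℝ) 1 | ∀ n, N ≤ n →
      lebesgueFunctionSeq xs n x ≤ q * Real.log n} = 0 := fun q N hq =>
    Pool.Agent.Lib.MP_6083a5_an.null_set (fun n (k : Fin n) => (xs k : ℝ))
      (fun _ _ _ h => Fin.ext (hxs (Subtype.ext h))) (fun _ k => (xs k).2) q hq N
  have hae : ∀ᵐ x ∂(volume : Measure ℝ), ∀ (q : ℚ) (N : ℕ), (q : ℝ) < 2 / Real.pi →
      x ∉ {x ∈ Icc (-1 : ℝ) 1 | ∀ n, N ≤ n → lebesgueFunctionSeq xs n x ≤ q * Real.log n} := by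
    rw [ae_all_iff]
    intro q
    rw [ae_all_iff]
    intro N
    by_cases hq : (q : ℝ) < 2 / Real.pi
    · filter_upwards [measure_eq_zero_iff_ae_notMem.mp (hnull q N hq)] with x hx _ using hx
    · exact Eventually.of_forall fun x h => absurd h hq
  rw [ae_restrict_iff' measurableSet_Ioo]
  filter_upwards [hae] with x hx hxI
  have h2 : (2 / Real.pi : EReal) = ((2 / Real.pi : ℝ) : EReal) := by
    rw [EReal.coe_div]; rfl
  rw [h2]
  refine EReal.ge_of_forall_gt_iff_ge.mp fun z hz => ?_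
  obtain ⟨q, hq1, hq2⟩ := exists_rat_btwn (EReal.coe_lt_coe_iff.mp hz)
  refine le_limsup_of_frequently_le ?_
  rw [frequently_atTop]
  intro N
  have h3 := hx q (max N 2) hq2
  simp only [not_and, not_forall, not_le] at h3
  obtain ⟨n, hn, hn'⟩ := h3 (Ioo_subset_Icc_self hxI)
  refine ⟨n, (le_max_left _ _).trans hn, ?_⟩
  have hn2 : 2 ≤ n := (le_max_right _ _).trans hn
  have hlog : 0 < Real.log n := Real.log_pos (by exact_mod_cast (by omega : 1 < n))
  rw [← EReal.coe_div, EReal.coe_le_coe_iff, le_div_iff₀ hlog]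
  nlinarith

end Pool.Agent.S04835
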