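import Pool.Statements.S05265
import Pool.Agent.Lib.MP_8465a2_an.N2.Main

set_option autoImplicit false
open scoped MeasureTheory
open Pool Pool.MP_8465a2_an

namespace Pool.Agent.S05265

/-- For each n ≥ 3 there is C such that every non-constant harmonic u on the unit ball of R^n has critical set in the half ball with (n−2)-Hausdorff measure ≤ C·N², where N = log(sup over B1 of ∣∇u∣ / sup over B1/2 of ∣∇u∣). -/
theorem result :
    ∀ n : ℕ, 3 ≤ n → ∃ C : ℝ, ∀ u : EuclideanSpace ℝ (Fin n) → ℝ,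
      ContDiffOn ℝ 2 u (Metric.ball (0 : EuclideanSpace ℝ (Fin n)) 1) →
      (∀ x ∈ Metric.ball (0 : EuclideanSpace ℝ (Fin n)) 1,
        ∑ i : Fin n, iteratedFDeriv ℝ 2 u x
          (fun _ => EuclideanSpace.single i (1 : ℝ)) = 0) →
      (∃ x ∈ Metric.ball (0 : EuclideanSpace ℝ (Fin n)) 1,
        ∃ y ∈ Metric.ball (0 : EuclideanSpace ℝ (Fin n)) 1, u x ≠ u y) →
      ∀ N : ℝ,
        (∀ x ∈ Metric.ball (0 : EuclideanSpace ℝ (Fin n)) 1,
          ‖fderiv ℝ u x‖ ≤ Real.exp N *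
            ⨆ y : Metric.ball (0 : EuclideanSpace ℝ (Fin n)) (1 / 2),
              ‖fderiv ℝ u (y : EuclideanSpace ℝ (Fin n))‖) →
        μH[(n : ℝ) - 2]
          ({x : EuclideanSpace ℝ (Fin n) | fderiv ℝ u x = 0} ∩
            Metric.ball (0 : EuclideanSpace ℝ (Fin n)) (1 / 2))
          ≤ ENNReal.ofReal (C * N ^ 2) := by
  exact Pool.Agent.LinN2.main

end Pool.Agent.S05265
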