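import Pool.Statements.S05434
import Pool.Agent.Lib.MP_937f58_an.Main

set_option autoImplicit false
open Pool Pool.MP_937f58_an

namespace Pool.Agent.S05434

/-- The negation of the preceding statement: For every Polish group G, evaluating the bounded right-uniformly-continuous real functions on G whose translate orbit has no independent sequence (the tame functions) gives a topological embedding of G into the product space, i.e. the universal tame compactification embeds G. -/
theorem result :
    ¬ (∀ (G : Type) [TopologicalSpace G] [Group G] [IsTopologicalGroup G] [PolishSpace G],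
      Topology.IsEmbedding
        (fun (g : G)
            (f : {f : G → ℝ //
              (∃ C : ℝ, ∀ x : G, |f x| ≤ C) ∧
              (∀ ε : ℝ, 0 < ε → ∃ V ∈ nhds (1 : G), ∀ v ∈ V, ∀ x : G, |f (v * x) - f x| < ε) ∧
              ¬ ∃ s : ℕ → G, ∃ a b : ℝ, a < b ∧
                ∀ P M : Finset ℕ, Disjoint P M →
                  ∃ x : G, (∀ n ∈ P, f (s n * x) < a) ∧ (∀ n ∈ M, b < f (s n * x))}) =>
          f.1 g)) := by
  intro h
  let _i : PolishSpace (Multiplicative C(OnePoint ℕ, ℝ)) := Pool.Agent.Lib.MP_937f58_an.polish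
  have h1 := (h (Multiplicative C(OnePoint ℕ, ℝ))).isInducing
  refine Pool.Agent.Lib.MP_937f58_an.not_inducing (E := C(OnePoint ℕ, ℝ))
    (T := {f : Multiplicative C(OnePoint ℕ, ℝ) → ℝ //
              (∃ C : ℝ, ∀ x, |f x| ≤ C) ∧
              (∀ ε : ℝ, 0 < ε → ∃ V ∈ nhds (1 : Multiplicative C(OnePoint ℕ, ℝ)),
                ∀ v ∈ V, ∀ x, |f (v * x) - f x| < ε) ∧
              ¬ ∃ s : ℕ → Multiplicative C(OnePoint ℕ, ℝ), ∃ a b : ℝ, a < b ∧
                ∀ P M : Finset ℕ, Disjoint P M →
                  ∃ x, (∀ n ∈ P, f (s n * x) < a) ∧ (∀ n ∈ M, b < f (s n * x))})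
    (fun f x => f.1 (Multiplicative.ofAdd x)) ?_ ?_
    Pool.Agent.Lib.MP_937f58_an.exists_sphere h1
  · intro f
    obtain ⟨C, hC⟩ := f.2.1
    exact ⟨C, fun x => hC _⟩
  · intro f
    exact f.2.2.2

end Pool.Agent.S05434
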