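import Pool.Statements.S05703
import Pool.Agent.Lib.MP_a619ca_an.HxMain

set_option autoImplicit false
open Filter Topology Asymptotics HurwitzZeta
open Pool Pool.MP_a619ca_an

namespace Pool.Agent.S05703

/-- The minimal sum over ordered pairs of distinct unit vectors in R^3 of inverse squared distances equals N^2 log N/4 + C N^2 + o(N^2), where C = (γ − log(2√3π))/4 + √3/(4π)(γ₁(2/3) − γ₁(1/3)) and γ₁(a) is the Hurwitz zeta Laurent coefficient of (1−s) at s=1. -/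
theorem result :
    ∃ c₁ c₂ d₁ d₂ : ℝ,
      (fun s : ℂ => hurwitzZeta ((1 / 3 : ℝ) : UnitAddCircle) s - 1 / (s - 1)
          - (c₁ : ℂ) - (d₁ : ℂ) * (1 - s)) =o[𝓝[≠] (1 : ℂ)] (fun s : ℂ => s - 1) ∧
      (fun s : ℂ => hurwitzZeta ((2 / 3 : ℝ) : UnitAddCircle) s - 1 / (s - 1)
          - (c₂ : ℂ) - (d₂ : ℂ) * (1 - s)) =o[𝓝[≠] (1 : ℂ)] (fun s : ℂ => s - 1) ∧
      (fun N : ℕ =>
          sInf {e : ℝ | ∃ x : Fin N → EuclideanSpace ℝ (Fin 3),
                  Function.Injective x ∧ (∀ i, ‖x i‖ = 1) ∧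
                  e = ∑ i, ∑ j ∈ Finset.univ.erase i, (‖x i - x j‖ ^ 2)⁻¹}
            - (1 / 4 : ℝ) * (N : ℝ) ^ 2 * Real.log (N : ℝ)
            - ((1 / 4 : ℝ) * (Real.eulerMascheroniConstant
                  - Real.log (2 * Real.sqrt 3 * Real.pi))
                + Real.sqrt 3 / (4 * Real.pi) * (d₂ - d₁)) * (N : ℝ) ^ 2)
        =o[atTop] (fun N : ℕ => (N : ℝ) ^ 2) :=
  Pool.Agent.Lib.MP_a619ca_an.Hx.sharp

end Pool.Agent.S05703
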