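import Pool.Statements.S05866
import Pool.Agent.Lib.MP_b372c7_an.Space

set_option autoImplicit false
open Pool Pool.MP_b372c7_an

namespace Pool.Agent.S05866

/-- The negation of the preceding statement: Every infinite-dimensional real or complex Banach space that is reflexive, strictly convex and admits the alternating method for metric projections satisfies the parallelogram law, i.e. its norm comes from an inner product. -/
theorem result :
    ¬ (∀ (𝕜 : Type) [RCLike 𝕜] (E : Type) [NormedAddCommGroup E] [NormedSpace 𝕜 E] [CompleteSpace E],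
    ¬ FiniteDimensional 𝕜 E →
    Function.Surjective (NormedSpace.inclusionInDoubleDual 𝕜 E) →
    (∀ x y : E, ‖x‖ = 1 → ‖y‖ = 1 → x ≠ y → ‖x + y‖ < 2) →
    (∀ (G₁ G₂ : Submodule 𝕜 E), IsClosed (G₁ : Set E) → IsClosed (G₂ : Set E) →
      ∀ r : ℕ → E,
        (∀ k : ℕ, r (2 * k) - r (2 * k + 1) ∈ G₁ ∧
            ‖r (2 * k + 1)‖ = Metric.infDist (r (2 * k)) (G₁ : Set E)) →
        (∀ k : ℕ, r (2 * k + 1) - r (2 * k + 2) ∈ G₂ ∧
            ‖r (2 * k + 2)‖ = Metric.infDist (r (2 * k + 1)) (G₂ : Set E)) →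
        ∃ y : E, Filter.Tendsto r Filter.atTop (nhds y) ∧
          r 0 - y ∈ (G₁ ⊔ G₂).topologicalClosure ∧
          ‖y‖ = Metric.infDist (r 0) ((G₁ ⊔ G₂).topologicalClosure : Set E)) →
    ∀ x y : E, ‖x + y‖ ^ 2 + ‖x - y‖ ^ 2 = 2 * (‖x‖ ^ 2 + ‖y‖ ^ 2)) := by
  intro h
  let H : Type := lp (fun _ : ℕ => ℝ) 2
  let b : HilbertBasis ℕ ℝ H := ⟨LinearIsometryEquiv.refl ℝ _⟩
  have hb := b.orthonormal
  have he : ‖b 0‖ = 1 := hb.1 0
  have hw : ‖b 1‖ = 1 := hb.1 1
  have hew : inner ℝ (b 0) (b 1) = 0 := hb.2 (by decide)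
  have := Pool.Agent.Lib.MP_b372c7_an.complete he
  refine Pool.Agent.Lib.MP_b372c7_an.not_parallelogram he (b 1) hw hew
    (h ℝ (Pool.Agent.Lib.MP_b372c7_an.Tw H (b 0)) ?_
      (Pool.Agent.Lib.MP_b372c7_an.reflexive he) Pool.Agent.Lib.MP_b372c7_an.strict
      (fun G₁ G₂ _ _ r hr1 hr2 => Pool.Agent.Lib.MP_b372c7_an.admits he G₁ G₂ r hr1 hr2))
  intro hfin
  have : FiniteDimensional ℝ H :=
    LinearEquiv.finiteDimensional (Pool.Agent.Lib.MP_b372c7_an.toH (b 0))
  exact Module.Finite.not_linearIndependent_of_infinite b hb.linearIndependent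

end Pool.Agent.S05866
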