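import Pool.Statements.S05892
import Pool.Agent.Lib.MP_b6a3e4_an.Final

set_option autoImplicit false
open scoped NNReal ENNReal
open Pool Pool.MP_b6a3e4_an

namespace Pool.Agent.S05892

/-- The negation of the preceding statement: Let T be a continuous operator on a complex separable Fréchet space and 0≤a<b≤∞. If for each α in (a,b) the spans of eigenvectors with eigenvalues of modulus <α and >α are dense, then some x has a dense zT-orbit for every z with 1/b<∣z∣<1/a. -/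
theorem result :
    ¬ (∀ (X : Type) [AddCommGroup X] [Module ℂ X] [UniformSpace X] [IsUniformAddGroup X]
    [ContinuousSMul ℂ X] [LocallyConvexSpace ℝ X] [TopologicalSpace.MetrizableSpace X]
    [CompleteSpace X] [TopologicalSpace.SeparableSpace X]
    (T : X →L[ℂ] X) (a : ℝ≥0) (b : ℝ≥0∞), (a : ℝ≥0∞) < b →
    (∀ α : ℝ≥0, a < α → (α : ℝ≥0∞) < b →
      Dense ((Submodule.span ℂ {x : X | ∃ z : ℂ, ‖z‖₊ < α ∧ T x = z • x}) : Set X) ∧
      Dense ((Submodule.span ℂ {x : X | ∃ z : ℂ, α < ‖z‖₊ ∧ T x = z • x}) : Set X)) →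
    ∃ x : X, ∀ z : ℂ, (a : ℝ≥0∞) * (‖z‖₊ : ℝ≥0∞) < 1 → 1 < b * (‖z‖₊ : ℝ≥0∞) →
      Dense (Set.range (fun n : ℕ => ((z • T) ^ n) x))) := by
  intro h
  have hsep : TopologicalSpace.SeparableSpace Pool.Agent.Lib.MP_b6a3e4_an.XX :=
    Pool.Agent.Lib.MP_b6a3e4_an.separable_L1
  have gen : ∀ (X : Type) [NormedAddCommGroup X] [NormedSpace ℂ X] [CompleteSpace X]
      [TopologicalSpace.SeparableSpace X] (T : X →L[ℂ] X),
      (∀ α : ℝ≥0, 1 < α → (α : ℝ≥0∞) < 2 →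
        Dense ((Submodule.span ℂ {x : X | ∃ z : ℂ, ‖z‖₊ < α ∧ T x = z • x}) : Set X) ∧
        Dense ((Submodule.span ℂ {x : X | ∃ z : ℂ, α < ‖z‖₊ ∧ T x = z • x}) : Set X)) →
      ∃ x : X, ∀ z : ℂ, ((1 : ℝ≥0) : ℝ≥0∞) * (‖z‖₊ : ℝ≥0∞) < 1 → 1 < 2 * (‖z‖₊ : ℝ≥0∞) →
        Dense (Set.range (fun n : ℕ => ((z • T) ^ n) x)) := by
    intro X _ _ _ _ T hH
    exact h X T 1 2 (by norm_num) hH
  obtain ⟨x, hx⟩ := gen _ _ Pool.Agent.Lib.MP_b6a3e4_an.hyp_H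
  obtain ⟨l, h1, h2, h3⟩ := Pool.Agent.Lib.MP_b6a3e4_an.no_common x
  have hl : ‖(l : ℂ)‖ = l := by
    rw [Complex.norm_real, Real.norm_eq_abs, abs_of_pos (by linarith)]
  refine h3 (hx l ?_ ?_)
  · have : ‖(l : ℂ)‖₊ < 1 := by
      rw [← NNReal.coe_lt_coe, coe_nnnorm, hl]; exact h2
    rw [ENNReal.coe_one, one_mul]
    exact_mod_cast this
  · have : 1 < 2 * ‖(l : ℂ)‖₊ := by
      rw [← NNReal.coe_lt_coe, NNReal.coe_mul, coe_nnnorm, hl]
      norm_num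
      linarith
    exact_mod_cast this

end Pool.Agent.S05892
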