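import Pool.Statements.S05939
import Pool.Agent.Lib.MP_bb1814_an.Local
import Pool.Agent.Lib.MP_bb1814_an.Count
import Pool.Agent.Lib.MP_bb1814_an.Xi

set_option autoImplicit false
open Pool Pool.MP_bb1814_an

namespace Pool.Agent.S05939

/-- If distinct non-constant meromorphic f, g on ℂ share four distinct finite values ignoring multiplicity, one counting multiplicity, then after relabelling the values are harmonic, (f,g,a3,a4) = -1 identically, and f, g omit a1, a2. -/
theorem result :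
  ∀ (f g : ℂ → ℂ) (a : Fin 4 → ℂ),
    MeromorphicOn f Set.univ → MeromorphicOn g Set.univ →
    (∀ (c z : ℂ), meromorphicOrderAt (fun w => f w - c) z ≠ ⊤) →
    (∀ (c z : ℂ), meromorphicOrderAt (fun w => g w - c) z ≠ ⊤) →
    (∃ z : ℂ, meromorphicOrderAt (fun w => f w - g w) z ≠ ⊤) →
    Function.Injective a →
    (∀ (i : Fin 4) (z : ℂ),
      0 < meromorphicOrderAt (fun w => f w - a i) z ↔
        0 < meromorphicOrderAt (fun w => g w - a i) z) →
    (∃ i : Fin 4, ∀ z : ℂ,
      0 < meromorphicOrderAt (fun w => f w - a i) z →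
        meromorphicOrderAt (fun w => f w - a i) z =
          meromorphicOrderAt (fun w => g w - a i) z) →
    ∃ σ : Equiv.Perm (Fin 4),
      (a (σ 0) - a (σ 2)) * (a (σ 1) - a (σ 3)) =
          -((a (σ 0) - a (σ 3)) * (a (σ 1) - a (σ 2))) ∧
      (∀ z : ℂ, meromorphicOrderAt
          (fun w => (f w - a (σ 2)) * (g w - a (σ 3)) +
                    (f w - a (σ 3)) * (g w - a (σ 2))) z = ⊤) ∧
      (∀ z : ℂ, ¬ 0 < meromorphicOrderAt (fun w => f w - a (σ 0)) z) ∧
      (∀ z : ℂ, ¬ 0 < meromorphicOrderAt (fun w => f w - a (σ 1)) z) ∧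
      (∀ z : ℂ, ¬ 0 < meromorphicOrderAt (fun w => g w - a (σ 0)) z) ∧
      (∀ z : ℂ, ¬ 0 < meromorphicOrderAt (fun w => g w - a (σ 1)) z) :=
  Pool.Agent.Lib.MP_bb1814_an.main_of_pairMany
    (Pool.Agent.Lib.MP_bb1814_an.pairMany Pool.Agent.Lib.MP_bb1814_an.localFalse)

end Pool.Agent.S05939
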