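import Pool.Statements.S06000
import Pool.Agent.Lib.MP_c0175c_an.Measure

set_option autoImplicit false
open Pool Pool.MP_c0175c_an

namespace Pool.Agent.S06000

open MeasureTheory Set Filter Topology
open Pool.Agent.Lib.MP_c0175c_an

/-- A finitely supported sequence as an element of c_0. -/
noncomputable def vec (F : Finset ℕ) (a : ℕ → ℝ) : ZeroAtInftyContinuousMap ℕ ℝ where
  toFun n := if n ∈ F then a n else 0
  continuous_toFun := continuous_of_discreteTopology
  zero_at_infty' := by
    rw [cocompact_eq_cofinite]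
    apply tendsto_const_nhds.congr'
    filter_upwards [F.finite_toSet.compl_mem_cofinite] with n hn
    have : n ∉ F := hn
    simp [this]

theorem vec_apply (F : Finset ℕ) (a : ℕ → ℝ) (n : ℕ) :
    vec F a n = if n ∈ F then a n else 0 := rfl

theorem norm_vec_le (F : Finset ℕ) (a : ℕ → ℝ) (ha : ∀ n, |a n| ≤ 1) : ‖vec F a‖ ≤ 1 := by
  rw [← ZeroAtInftyContinuousMap.norm_toBCF_eq_norm, BoundedContinuousFunction.norm_le zero_le_one]
  intro n
  change ‖vec F a n‖ ≤ 1
  rw [vec_apply]
  split_ifs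
  · exact ha n
  · simp

theorem vec_eq_sum (F : Finset ℕ) (a : ℕ → ℝ) :
    vec F a = ∑ n ∈ F, a n • vec {n} (fun _ => 1) := by
  induction F using Finset.induction_on with
  | empty =>
    ext n
    simp [vec_apply]
  | insert k F hk ih =>
    rw [Finset.sum_insert hk, ← ih]
    ext n
    simp only [vec_apply, Finset.mem_insert, ZeroAtInftyContinuousMap.add_apply,
      ZeroAtInftyContinuousMap.smul_apply, Finset.mem_singleton, smul_eq_mul]
    by_cases h : n = k
    · subst h
      simp [hk]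
    · simp [h]

theorem apply_vec (φ : StrongDual ℝ (ZeroAtInftyContinuousMap ℕ ℝ)) (F : Finset ℕ) (a : ℕ → ℝ) :
    φ (vec F a) = ∑ n ∈ F, a n * φ (vec {n} (fun _ => 1)) := by
  rw [vec_eq_sum, map_sum]
  simp

theorem summable_coeff (φ : StrongDual ℝ (ZeroAtInftyContinuousMap ℕ ℝ)) :
    Summable fun n => |φ (vec {n} (fun _ => 1))| := by
  apply summable_of_sum_le (c := ‖φ‖) (fun n => abs_nonneg _)
  intro F
  let a : ℕ → ℝ := fun n => if 0 ≤ φ (vec {n} (fun _ => 1)) then 1 else -1
  have ha : ∀ n, |a n| ≤ 1 := by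
    intro n
    simp only [a]
    split_ifs <;> simp
  have h1 : ∑ n ∈ F, |φ (vec {n} (fun _ => 1))| = φ (vec F a) := by
    rw [apply_vec]
    apply Finset.sum_congr rfl
    intro n _
    simp only [a]
    split_ifs with h
    · rw [abs_of_nonneg h, one_mul]
    · rw [abs_of_neg (not_le.1 h)]
      ring
  rw [h1]
  calc φ (vec F a) ≤ ‖φ (vec F a)‖ := le_abs_self _
    _ ≤ ‖φ‖ * ‖vec F a‖ := φ.le_opNorm _
    _ ≤ ‖φ‖ * 1 := mul_le_mul_of_nonneg_left (norm_vec_le F a ha) φ.opNorm_nonneg
    _ = ‖φ‖ := mul_one _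

/-- The sign vector supported on the block from N to 2N - 1 coded by a list of length N. -/
noncomputable def blk (l : List Bool) : ZeroAtInftyContinuousMap ℕ ℝ :=
  vec (Finset.Ico l.length (2 * l.length)) (fun n => sg (l.getD (n - l.length) false))

theorem blk_weakly_null (φ : StrongDual ℝ (ZeroAtInftyContinuousMap ℕ ℝ)) :
    Tendsto (fun l => φ (blk l)) cofinite (𝓝 0) := by
  rw [Metric.tendsto_nhds]
  intro ε hε
  obtain ⟨T, hT⟩ := (summable_coeff φ).vanishing (Iio_mem_nhds hε)
  obtain ⟨K, hK⟩ := T.bddAbove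
  filter_upwards [(List.finite_length_le Bool K).compl_mem_cofinite] with l hl
  have hl' : K < l.length := not_le.1 hl
  have hd : Disjoint (Finset.Ico l.length (2 * l.length)) T := by
    rw [Finset.disjoint_left]
    intro n hn hnT
    have h1 : n ≤ K := hK hnT
    have h2 := (Finset.mem_Ico.1 hn).1
    omega
  have h3 : ∑ n ∈ Finset.Ico l.length (2 * l.length), |φ (vec {n} (fun _ => 1))| < ε := hT _ hd
  rw [Real.dist_eq, sub_zero, blk, apply_vec]
  refine lt_of_le_of_lt (Finset.abs_sum_le_sum_abs _ _) (lt_of_le_of_lt (le_of_eq ?_) h3)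
  apply Finset.sum_congr rfl
  intro n _
  rw [abs_mul, abs_sg, one_mul]

theorem blk_tendsto :
    Tendsto (fun l => toWeakSpace ℝ (ZeroAtInftyContinuousMap ℕ ℝ) (blk l)) cofinite
      (𝓝 (toWeakSpace ℝ (ZeroAtInftyContinuousMap ℕ ℝ) 0)) := by
  have h : IsInducing (fun (x : WeakSpace ℝ (ZeroAtInftyContinuousMap ℕ ℝ))
      (φ : StrongDual ℝ (ZeroAtInftyContinuousMap ℕ ℝ)) =>
        φ ((toWeakSpace ℝ (ZeroAtInftyContinuousMap ℕ ℝ)).symm x)) := ⟨rfl⟩
  rw [h.tendsto_nhds_iff, tendsto_pi_nhds]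
  intro φ
  simpa using blk_weakly_null φ

/-- Evaluation at a coordinate. -/
def ev (n : ℕ) : ZeroAtInftyContinuousMap ℕ ℝ →+ ℝ where
  toFun x := x n
  map_zero' := rfl
  map_add' _ _ := rfl

theorem abs_apply_le (x : ZeroAtInftyContinuousMap ℕ ℝ) (n : ℕ) : |x n| ≤ ‖x‖ := by
  rw [← ZeroAtInftyContinuousMap.norm_toBCF_eq_norm]
  exact x.toBCF.norm_coe_le_norm n

theorem continuous_ev (n : ℕ) : Continuous (ev n) :=
  AddMonoidHomClass.continuous_of_bound (ev n) 1 fun x => by
    rw [one_mul]
    exact abs_apply_le x n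

/-- The negation of the preceding statement: Every weakly compact subset of the real sequence space c_0 is contained in the range of some countably additive c_0-valued vector measure on some measurable space. -/
theorem result :
    ¬ (∀ K : Set (ZeroAtInftyContinuousMap ℕ ℝ),
      IsCompact ((toWeakSpace ℝ (ZeroAtInftyContinuousMap ℕ ℝ)) '' K) →
      ∃ (α : Type) (_ : MeasurableSpace α)
        (μ : MeasureTheory.VectorMeasure α (ZeroAtInftyContinuousMap ℕ ℝ)),
        K ⊆ Set.range (fun s : Set α => μ s)) := by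
  intro h
  have hK : IsCompact ((toWeakSpace ℝ (ZeroAtInftyContinuousMap ℕ ℝ)) ''
      (insert 0 (range blk))) := by
    rw [image_insert_eq, ← range_comp]
    exact blk_tendsto.isCompact_insert_range_of_cofinite
  obtain ⟨α, mα, v, hv⟩ := h _ hK
  apply no_sign_patterns v (fun n => v.mapRange (ev n) (continuous_ev n))
  · intro n A
    exact abs_apply_le (v A) n
  · intro A hA
    ext n
    exact hA n
  · intro N b
    obtain ⟨A, hA⟩ := hv (mem_insert_of_mem _ ⟨List.ofFn (fun j : Fin N => b j), rfl⟩)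
    refine ⟨A, fun j hj => ?_⟩
    change (v A) (N + j) = sg (b j)
    have hA' : v A = blk (List.ofFn (fun j : Fin N => b j)) := hA
    rw [hA', blk, vec_apply, List.length_ofFn, if_pos (Finset.mem_Ico.2 ⟨by omega, by omega⟩)]
    congr 1
    rw [Nat.add_sub_cancel_left, List.getD_eq_getElem _ _ (by simpa using hj)]
    simp

end Pool.Agent.S06000
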