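import Pool.Statements.S06374
import Pool.Agent.Lib.MP_db815c_an.Final

set_option autoImplicit false
open Pool Pool.MP_db815c_an

namespace Pool.Agent.S06374

/-- The negation of the preceding statement: For outer H^2 functions g, h (cyclic for the shift), if T_g T_{h-bar}, defined on polynomials, extends to a bounded operator on H^2, then that operator lies in the norm-closed *-algebra generated by Toeplitz operators with bounded symbols. -/
theorem result :
    ¬ (∀ a b : ℕ → ℂ, Memℓp a 2 → Memℓp b 2 →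
      (∀ c : ℕ → ℂ, Memℓp c 2 →
        (∀ k : ℕ, ∑' n : ℕ, a n * starRingEnd ℂ (c (n + k)) = 0) → c = 0) →
      (∀ c : ℕ → ℂ, Memℓp c 2 →
        (∀ k : ℕ, ∑' n : ℕ, b n * starRingEnd ℂ (c (n + k)) = 0) → c = 0) →
      ∀ A : lp (fun _ : ℕ => ℂ) 2 →L[ℂ] lp (fun _ : ℕ => ℂ) 2,
        (∀ j m : ℕ, (A (lp.single 2 j 1) : ℕ → ℂ) m =
          ∑ n ∈ Finset.range (j + 1),
            (if j - n ≤ m then starRingEnd ℂ (b n) * a (m + n - j) else 0)) →
        A ∈ (StarAlgebra.adjoin ℂ
          {T : lp (fun _ : ℕ => ℂ) 2 →L[ℂ] lp (fun _ : ℕ => ℂ) 2 |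
            ∃ φ : AddCircle (1 : ℝ) → ℂ,
              MeasureTheory.MemLp φ ⊤ AddCircle.haarAddCircle ∧
              ∀ i j : ℕ, (T (lp.single 2 j 1) : ℕ → ℂ) i
                = fourierCoeff φ ((i : ℤ) - (j : ℤ))}).topologicalClosure) := by
  intro hall
  open Pool.Agent.Lib.MP_db815c_an in
  refine not_loc_A (loc_of_mem_closure_adjoin ?_ (hall g h (lp.memℓp g) (lp.memℓp h) ?_ ?_ A ?_))
  · rintro T ⟨φ, -, hT⟩
    open Pool.Agent.Lib.MP_db815c_an in
    refine ext_e fun j => vec_ext fun i => ?_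
    open Pool.Agent.Lib.MP_db815c_an in
    rw [mul_apply_eq_comp, mul_apply_eq_comp, inner_L_right, S_e, S_e, inner_e_left, inner_e_left,
      e, e, hT, hT]
    congr 1
    push_cast
    ring
  · intro c hc hk
    open Pool.Agent.Lib.MP_db815c_an in
    exact cyclic_g ⟨c, hc⟩ fun k => (inner_L_pow_eq_tsum _ _ k).trans (hk k)
  · intro c hc hk
    open Pool.Agent.Lib.MP_db815c_an in
    exact cyclic_h ⟨c, hc⟩ fun k => (inner_L_pow_eq_tsum _ _ k).trans (hk k)
  · exact Pool.Agent.Lib.MP_db815c_an.A_entry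

end Pool.Agent.S06374
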