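import Pool.Statements.S07309
import Pool.Agent.Lib.MP_145fc7_co.Core
import Pool.Agent.Lib.MP_145fc7_co.ReduceB

set_option autoImplicit false
open Pool Pool.MP_145fc7_co

namespace Pool.Agent.S07309

/-- For each k ≥ 1 there is c such that for every prime power q and n > c, if k distinct t_i in Z_n make the span of x^(q^t_i) over F_{q^n} an MRD code (each nonzero member has at most q^(k-1) roots), then the t_i form an arithmetic progression in Z_n. -/
theorem result :
    ∀ k : ℕ, 0 < k → ∃ c : ℕ, ∀ (p : ℕ) [Fact (Nat.Prime p)] (e : ℕ), 0 < e →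
      ∀ n : ℕ, c < n →
      ∀ t : Fin k → ZMod n, Function.Injective t →
      (∀ a : Fin k → GaloisField p (e * n), a ≠ 0 →
        Nat.card {x : GaloisField p (e * n) //
          ∑ i, a i * x ^ ((p ^ e) ^ (t i).val) = 0} ≤ (p ^ e) ^ (k - 1)) →
      ∃ s d : ZMod n, Set.range t = Set.range (fun i : Fin k => s + ((i : ℕ) : ZMod n) * d) := by
  exact Pool.Agent.Lib.MP_145fc7_co.main_of_core Pool.Agent.Lib.MP_145fc7_co.curveCore

end Pool.Agent.S07309
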