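import Pool.Statements.S07393
import Pool.Agent.Lib.MP_1887ad_co.Main

set_option autoImplicit false
open Classical
open Pool Pool.MP_1887ad_co

namespace Pool.Agent.S07393

/-- For every k ≥ 26 and every threshold sequence r_k(n) of random k-SAT, some ε>0 and some online rule choosing one of two uniform random k-clauses per step keep the formula after ⌊(r_k(n)+ε)n⌋ steps satisfiable with probability tending to 1. -/
theorem result :
  ∀ k : ℕ, 26 ≤ k →
  ∀ r : ℕ → ℝ,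
    (∀ ε : ℝ, 0 < ε →
      Filter.Tendsto (fun n : ℕ =>
        ((Finset.univ.filter (fun F : Fin ⌊(r n + ε) * (n : ℝ)⌋₊ → (Fin k ↪ Fin n) × (Fin k → Bool) =>
            ∃ a : Fin n → Bool, ∀ i, ∃ j : Fin k, a ((F i).1 j) = (F i).2 j)).card : ℝ) /
          (Fintype.card (Fin ⌊(r n + ε) * (n : ℝ)⌋₊ → (Fin k ↪ Fin n) × (Fin k → Bool)) : ℝ))
        Filter.atTop (nhds 0) ∧
      Filter.Tendsto (fun n : ℕ =>
        ((Finset.univ.filter (fun F : Fin ⌊(r n - ε) * (n : ℝ)⌋₊ → (Fin k ↪ Fin n) × (Fin k → Bool) =>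
            ∃ a : Fin n → Bool, ∀ i, ∃ j : Fin k, a ((F i).1 j) = (F i).2 j)).card : ℝ) /
          (Fintype.card (Fin ⌊(r n - ε) * (n : ℝ)⌋₊ → (Fin k ↪ Fin n) × (Fin k → Bool)) : ℝ))
        Filter.atTop (nhds 1)) →
    ∃ ε : ℝ, 0 < ε ∧
      ∃ R : (n : ℕ) → Fin ⌊(r n + ε) * (n : ℝ)⌋₊ →
          (Fin ⌊(r n + ε) * (n : ℝ)⌋₊ →
            ((Fin k ↪ Fin n) × (Fin k → Bool)) × ((Fin k ↪ Fin n) × (Fin k → Bool))) → Bool,
        (∀ (n : ℕ) (i : Fin ⌊(r n + ε) * (n : ℝ)⌋₊)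
            (ω ω' : Fin ⌊(r n + ε) * (n : ℝ)⌋₊ →
              ((Fin k ↪ Fin n) × (Fin k → Bool)) × ((Fin k ↪ Fin n) × (Fin k → Bool))),
            (∀ j : Fin ⌊(r n + ε) * (n : ℝ)⌋₊, j ≤ i → ω j = ω' j) → R n i ω = R n i ω') ∧
        Filter.Tendsto (fun n : ℕ =>
          ((Finset.univ.filter (fun ω : Fin ⌊(r n + ε) * (n : ℝ)⌋₊ →
                ((Fin k ↪ Fin n) × (Fin k → Bool)) × ((Fin k ↪ Fin n) × (Fin k → Bool)) =>
              ∃ a : Fin n → Bool, ∀ i, ∃ j : Fin k,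
                a ((if R n i ω then (ω i).2 else (ω i).1).1 j) =
                  (if R n i ω then (ω i).2 else (ω i).1).2 j)).card : ℝ) /
            (Fintype.card (Fin ⌊(r n + ε) * (n : ℝ)⌋₊ →
                ((Fin k ↪ Fin n) × (Fin k → Bool)) × ((Fin k ↪ Fin n) × (Fin k → Bool))) : ℝ))
          Filter.atTop (nhds 1) := by
  intro k hk r hr
  have h1 := Pool.Agent.Lib.MP_1887ad_co.thr_le k (fun n => r n - 1) _
    (fun n F hF => (Finset.mem_filter.mp hF).2) (hr 1 one_pos).2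
  refine ⟨1, one_pos, fun n i ω => Pool.Agent.Lib.MP_1887ad_co.rule (ω i), ?_, ?_⟩
  · intro n i ω ω' h
    simp only [h i le_rfl]
  · apply Pool.Agent.Lib.MP_1887ad_co.sat_whp k (by omega) (fun n => ⌊(r n + 1) * (n : ℝ)⌋₊)
    · filter_upwards [h1] with n hn
      exact Pool.Agent.Lib.MP_1887ad_co.floor_le_of_thr k n hk (r n) hn
    · intro n ω hω
      exact Finset.mem_filter.mpr ⟨Finset.mem_univ _, hω⟩

end Pool.Agent.S07393
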