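import Pool.Statements.S08564

set_option autoImplicit false
open Pool Pool.MP_495f0d_co

namespace Pool.Agent.S08564

/-- The mex sequence generated by 2, 0, 2, 0, 2, namely
2, 0, 2, 0, 2, 1, 0, 3, 1, 0, 4, 1, 0, 5, 1, 0, 6, ... -/
def seq (m : ℕ) : ℕ :=
  if m = 0 then 2 else if m = 1 then 0 else if m = 2 then 2
  else if m % 3 = 0 then 0 else if m % 3 = 2 then 1 else (m + 2) / 3

theorem seq_spec (m : ℕ) :
    (m = 0 ∧ seq m = 2) ∨ (m = 1 ∧ seq m = 0) ∨ (m = 2 ∧ seq m = 2) ∨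
    (3 ≤ m ∧ m % 3 = 0 ∧ seq m = 0) ∨ (3 ≤ m ∧ m % 3 = 2 ∧ seq m = 1) ∨
    (3 ≤ m ∧ m % 3 = 1 ∧ seq m = (m + 2) / 3) := by
  unfold seq
  split_ifs <;> omega

theorem seq_not_sum (m : ℕ) (hm : 4 ≤ m) (i : ℕ) (hi : i ≤ m) :
    seq i + seq (m - i) ≠ seq (m + 1) := by
  have h1 := seq_spec i
  have h2 := seq_spec (m - i)
  have h3 := seq_spec (m + 1)
  omega

theorem seq_sum (m : ℕ) (hm : 4 ≤ m) (k : ℕ) (hk : k < seq (m + 1)) :
    ∃ i, i ≤ m ∧ seq i + seq (m - i) = k := by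
  have h3 := seq_spec (m + 1)
  by_cases h1 : m % 3 = 1
  · refine ⟨1, by omega, ?_⟩
    have h4 := seq_spec 1
    have h5 := seq_spec (m - 1)
    omega
  · by_cases hk0 : k = 0
    · refine ⟨3, by omega, ?_⟩
      have h4 := seq_spec 3
      have h5 := seq_spec (m - 3)
      omega
    · by_cases hk1 : k = 1
      · refine ⟨1, by omega, ?_⟩
        have h4 := seq_spec 1
        have h5 := seq_spec (m - 1)
        omega
      · by_cases hk2 : k = 2
        · refine ⟨0, by omega, ?_⟩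
          have h4 := seq_spec 0
          have h5 := seq_spec (m - 0)
          omega
        · refine ⟨3 * (k - 2) + 1, by omega, ?_⟩
          have h4 := seq_spec (3 * (k - 2) + 1)
          have h5 := seq_spec (m - (3 * (k - 2) + 1))
          omega

theorem seq_mex (m : ℕ) (hm : 4 ≤ m) :
    seq (m + 1) = sInf {k : ℕ | ∀ i : ℕ, i ≤ m → seq i + seq (m - i) ≠ k} := by
  have hmem : seq (m + 1) ∈ {k : ℕ | ∀ i : ℕ, i ≤ m → seq i + seq (m - i) ≠ k} :=
    fun i hi => seq_not_sum m hm i hi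
  apply le_antisymm
  · by_contra hlt
    have hlt' : sInf {k : ℕ | ∀ i : ℕ, i ≤ m → seq i + seq (m - i) ≠ k} < seq (m + 1) := by omega
    obtain ⟨i, hi, hs⟩ := seq_sum m hm _ hlt'
    exact Nat.sInf_mem ⟨_, hmem⟩ i hi hs
  · exact Nat.sInf_le hmem

/-- Disproof: the mex sequence generated by 2, 0, 2, 0, 2 is unbounded, so not ultimately periodic. -/
theorem result :
    ¬ (∀ (a : ℕ → ℕ) (n : ℕ),
      (∀ m : ℕ, n ≤ m →
        a (m + 1) = sInf {k : ℕ | ∀ i : ℕ, i ≤ m → a i + a (m - i) ≠ k}) →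
      ∃ p : ℕ, 0 < p ∧ ∃ N : ℕ, ∀ m : ℕ, N ≤ m → a (m + p) = a m) := by
  intro h
  obtain ⟨p, hp, N, hN⟩ := h seq 4 seq_mex
  have e1 := hN (3 * N + 4) (by omega)
  have e2 := hN (3 * N + 4 + p) (by omega)
  have e3 := hN (3 * N + 4 + p + p) (by omega)
  have e4 : seq (3 * N + 4 + p + p + p) = seq (3 * N + 4) := by rw [e3, e2, e1]
  have h1 := seq_spec (3 * N + 4 + p + p + p)
  have h2 := seq_spec (3 * N + 4)
  omega

end Pool.Agent.S08564
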