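import Pool.Statements.S09471
import Pool.Agent.Lib.MP_72f2f8_co.Main

set_option autoImplicit false
open Pool Pool.MP_72f2f8_co

namespace Pool.Agent.S09471

/-- Every finite simple binary matroid in which each element lies in a circuit, of rank r, has number of bases at least (r+1)/2 times its number of circuits. -/
theorem result :
    ∀ (m : ℕ) (M : Matroid (Fin m)), M.E = Set.univ →
      (∃ (n : ℕ) (v : Fin m → (Fin n → ZMod 2)),
        ∀ I : Set (Fin m), M.Indep I ↔ LinearIndependent (ZMod 2) (fun x : I => v x)) →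
      (∀ e f : Fin m, M.Indep ({e, f} : Set (Fin m))) →
      (∀ e : Fin m, ∃ C : Set (Fin m), M.IsCircuit C ∧ e ∈ C) →
      ∀ B : Set (Fin m), M.IsBase B →
        (B.ncard + 1) * {C : Set (Fin m) | M.IsCircuit C}.ncard
          ≤ 2 * {B' : Set (Fin m) | M.IsBase B'}.ncard := by
  classical
  intro m M hE ⟨n, v, hv⟩ hs hc B hB
  have hI : ∀ I : Finset (Fin m), M.Indep (I : Set (Fin m)) ↔ Lib.MP_72f2f8_co.Ind v I :=
    fun I => (hv I).trans (Lib.MP_72f2f8_co.li_iff_ind v I)
  have lift : ∀ X : Set (Fin m), ∃ F : Finset (Fin m), X = F :=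
    fun X => ⟨X.toFinset, by simp⟩
  have hC : ∀ C : Finset (Fin m),
      M.IsCircuit (C : Set (Fin m)) ↔ Lib.MP_72f2f8_co.Circ v C := by
    intro C
    rw [Matroid.isCircuit_iff_dep_forall_sdiff_singleton_indep, Matroid.dep_iff, hI, hE]
    simp only [← Finset.coe_erase, hI, Set.subset_univ, and_true, Finset.mem_coe]
    constructor
    · rintro ⟨h1, h2⟩
      unfold Lib.MP_72f2f8_co.Ind at h1
      push Not at h1
      obtain ⟨T, hT, h0, hne⟩ := h1
      have : T = C := by
        by_contra hn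
        obtain ⟨x, hx, hxT⟩ := Finset.exists_of_ssubset (ssubset_of_subset_of_ne hT hn)
        exact hne.ne_empty (h2 x hx T (Finset.subset_erase.2 ⟨hT, hxT⟩) h0)
      subst this
      exact ⟨hne, h0, h2⟩
    · rintro ⟨h1, h2, h3⟩
      exact ⟨fun h => h.sg_ne_zero h1 h2, h3⟩
  obtain ⟨B, rfl⟩ := lift B
  rw [Set.ncard_coe_finset]
  have hB' : ∀ I : Finset (Fin m), M.IsBase (I : Set (Fin m)) ↔
      Lib.MP_72f2f8_co.Ind v I ∧ I.card = B.card := by
    intro I
    constructor
    · intro h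
      refine ⟨(hI I).1 h.indep, ?_⟩
      simpa using h.ncard_eq_ncard_of_isBase hB
    · rintro ⟨h1, h2⟩
      obtain ⟨J, hJ, hIJ⟩ := ((hI I).2 h1).exists_isBase_superset
      have h3 := hJ.ncard_eq_ncard_of_isBase hB
      rw [Set.eq_of_subset_of_ncard_le hIJ (by simp [h3, h2])]
      exact hJ
  have hr : Lib.MP_72f2f8_co.Rk v Finset.univ B.card := by
    refine ⟨B, Finset.subset_univ B, (hI B).1 hB.indep, rfl, fun x _ => ?_⟩
    by_contra hn
    obtain ⟨h1, h2⟩ := Lib.MP_72f2f8_co.ind_insert_of ((hI B).1 hB.indep) hn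
    have := hB.eq_of_subset_indep ((hI _).2 h1) (Finset.coe_subset.2 (Finset.subset_insert x B))
    exact h2 (Finset.coe_injective this ▸ Finset.mem_insert_self x B)
  have hs' : Lib.MP_72f2f8_co.Simp v Finset.univ := by
    have h1 : ∀ e f : Fin m, Lib.MP_72f2f8_co.Ind v {e, f} := fun e f =>
      (hI _).1 (by simpa using hs e f)
    exact ⟨fun x _ => (h1 x x).ne_zero (by simp),
      fun x _ y _ h => (h1 x y).inj (by simp) (by simp) h⟩
  have hnc : ∀ x ∈ Finset.univ, ¬ Lib.MP_72f2f8_co.Colp v Finset.univ x := by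
    intro x hx
    obtain ⟨C, h1, h2⟩ := hc x
    obtain ⟨C, rfl⟩ := lift C
    exact (Lib.MP_72f2f8_co.not_colp_iff hx).2
      ⟨C, Finset.subset_univ C, h2, ((hC C).1 h1).2.1⟩
  have e1 : {C : Set (Fin m) | M.IsCircuit C} =
      (fun F : Finset (Fin m) => (F : Set (Fin m))) ''
        (Lib.MP_72f2f8_co.CC v Finset.univ : Set (Finset (Fin m))) := by
    ext X
    obtain ⟨F, rfl⟩ := lift X
    simp [hC, Lib.MP_72f2f8_co.mem_CC]
  have e2 : {C : Set (Fin m) | M.IsBase C} =
      (fun F : Finset (Fin m) => (F : Set (Fin m))) ''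
        ((Finset.univ.powerset.filter fun I =>
          Lib.MP_72f2f8_co.Ind v I ∧ I.card = B.card : Finset (Finset (Fin m))) :
          Set (Finset (Fin m))) := by
    ext X
    obtain ⟨F, rfl⟩ := lift X
    simp [hB']
  rw [e1, e2, Set.ncard_image_of_injective _ Finset.coe_injective,
    Set.ncard_image_of_injective _ Finset.coe_injective, Set.ncard_coe_finset,
    Set.ncard_coe_finset]
  convert Lib.MP_72f2f8_co.main_fin hr hs' hnc

end Pool.Agent.S09471
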