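import Pool.Statements.S09550
import Pool.Agent.Lib.MP_7600d1_co.Example

set_option autoImplicit false
open Pool Pool.MP_7600d1_co

namespace Pool.Agent.S09550

/-- The negation of the preceding statement: For every d there are finitely many centrally symmetric d-polytopes such that every centrally symmetric d-polytope P has a boundary homeomorphism onto one of them under which each proper face of that one is the image of a union of proper faces of P. -/
theorem result :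
    ¬ (∀ d : ℕ, ∃ (n : ℕ) (Q : Fin n → Set (EuclideanSpace ℝ (Fin d))),
      (∀ i, (∃ S : Finset (EuclideanSpace ℝ (Fin d)), Q i = convexHull ℝ (S : Set (EuclideanSpace ℝ (Fin d)))) ∧
        (interior (Q i)).Nonempty ∧
        ∃ c : EuclideanSpace ℝ (Fin d), ∀ x ∈ Q i, (2 : ℝ) • c - x ∈ Q i) ∧
      ∀ P : Set (EuclideanSpace ℝ (Fin d)),
        ((∃ S : Finset (EuclideanSpace ℝ (Fin d)), P = convexHull ℝ (S : Set (EuclideanSpace ℝ (Fin d)))) ∧
          (interior P).Nonempty ∧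
          ∃ c : EuclideanSpace ℝ (Fin d), ∀ x ∈ P, (2 : ℝ) • c - x ∈ P) →
        ∃ i : Fin n, ∃ φ : ↥(frontier P) ≃ₜ ↥(frontier (Q i)),
          ∀ F : Set (EuclideanSpace ℝ (Fin d)),
            (F.Nonempty ∧ F ≠ Q i ∧ IsExposed ℝ (Q i) F) →
            ∃ 𝒮 : Set (Set (EuclideanSpace ℝ (Fin d))),
              (∀ G ∈ 𝒮, G.Nonempty ∧ G ≠ P ∧ IsExposed ℝ P G) ∧
              ∀ x : ↥(frontier P), ((x : EuclideanSpace ℝ (Fin d)) ∈ ⋃₀ 𝒮 ↔
                ((φ x : EuclideanSpace ℝ (Fin d)) ∈ F))) := by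
  intro H
  obtain ⟨n, Q, hQ, hall⟩ := H 4
  have hfin : ∀ i, {F | Pool.Agent.Lib.MP_7600d1_co.ProperFace (Q i) F}.Finite := by
    intro i
    obtain ⟨S, hS⟩ := (hQ i).1
    rw [hS]
    exact Pool.Agent.Lib.MP_7600d1_co.finite_properFace S
  obtain ⟨V, hV, p, q, hcard, hgood⟩ := Pool.Agent.Lib.MP_7600d1_co.exists_good
    ((∑ i, {F | Pool.Agent.Lib.MP_7600d1_co.ProperFace (Q i) F}.ncard) + 2)
  have hnt : Nontrivial V := Finite.one_lt_card_iff_nontrivial.1 (by omega)
  obtain ⟨u, v, huv⟩ := exists_pair_ne V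
  obtain ⟨i, φ, hφ⟩ := hall (Pool.Agent.Lib.MP_7600d1_co.hpoly (Pool.Agent.Lib.MP_7600d1_co.fn p q))
    ⟨Pool.Agent.Lib.MP_7600d1_co.hpoly_eq_convexHull _ (hgood.isCompact huv),
      ⟨0, Pool.Agent.Lib.MP_7600d1_co.zero_mem_interior⟩,
      0, fun x hx => Pool.Agent.Lib.MP_7600d1_co.neg_mem hx⟩
  obtain ⟨⟨S, hS⟩, hint, c, hc⟩ := hQ i
  have hQc : IsClosed (Q i) := hS ▸ S.finite_toSet.isClosed_convexHull ℝ
  have hQv : Convex ℝ (Q i) := hS ▸ convex_convexHull ℝ _
  have hex := fun w : V => Pool.Agent.Lib.MP_7600d1_co.exists_covers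
    (Pool.Agent.Lib.MP_7600d1_co.gpt p q) hgood.g1 hgood.g2 hφ hQc hQv hint (Sum.inl (w, true))
  choose f hf1 hf2 using hex
  have hinj : Function.Injective
      (fun w : V => (⟨f w, hf1 w⟩ : {F | Pool.Agent.Lib.MP_7600d1_co.ProperFace (Q i) F})) := by
    intro w w' hww
    by_contra hne
    have e : f w = f w' := congrArg Subtype.val hww
    exact hgood.not_covers_two hφ hQc hQv hint hc (hf1 w) hne (hf2 w) (e ▸ hf2 w')
  have hfi := (hfin i).to_subtype
  have h1 := Nat.card_le_card_of_injective _ hinj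
  rw [Nat.card_coe_set_eq] at h1
  have h2 : {F | Pool.Agent.Lib.MP_7600d1_co.ProperFace (Q i) F}.ncard ≤
      ∑ j, {F | Pool.Agent.Lib.MP_7600d1_co.ProperFace (Q j) F}.ncard :=
    Finset.single_le_sum (f := fun j => {F | Pool.Agent.Lib.MP_7600d1_co.ProperFace (Q j) F}.ncard)
      (fun _ _ => Nat.zero_le _) (Finset.mem_univ i)
  omega

end Pool.Agent.S09550
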