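import Pool.Statements.S10044
import Pool.Agent.Lib.MP_8cd7cf_co.Counter

/-
Counterexample with r = 3 and H the star with three leaves; see the imported file Counter.
-/

set_option autoImplicit false
open Pool Pool.MP_8cd7cf_co

namespace Pool.Agent.S10044

open Pool.Agent.Lib.MP_8cd7cf_co

/-- The negation of the preceding statement: For r≥1 and connected H with an edge: any finite graph without a minor of r independent vertices joined to H has, for every list assignment with lists of size ≥ r+1, a list colouring in which no colour class contains an H-minor. -/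
theorem result :
    ¬ (∀ (r : ℕ), 0 < r →
  ∀ (W : Type) [Fintype W] (H : SimpleGraph W), H.Connected → (∃ a b, H.Adj a b) →
  ∀ (V : Type) [Fintype V] (G : SimpleGraph V),
    (¬ ∃ (A : Fin r → Set V) (B : W → Set V),
        (∀ i, (G.induce (A i)).Connected) ∧ (∀ w, (G.induce (B w)).Connected) ∧
        (∀ i j, i ≠ j → Disjoint (A i) (A j)) ∧
        (∀ w w', w ≠ w' → Disjoint (B w) (B w')) ∧
        (∀ i w, Disjoint (A i) (B w)) ∧
        (∀ i w, ∃ x ∈ A i, ∃ y ∈ B w, G.Adj x y) ∧
        (∀ w w', H.Adj w w' → ∃ x ∈ B w, ∃ y ∈ B w', G.Adj x y)) →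
    ∀ L : V → Finset ℕ, (∀ v, r + 1 ≤ (L v).card) →
    ∃ c : V → ℕ, (∀ v, c v ∈ L v) ∧
      ∀ k : ℕ, ¬ ∃ B : W → Set V,
        (∀ w, B w ⊆ {v | c v = k}) ∧
        (∀ w, (G.induce (B w)).Connected) ∧
        (∀ w w', w ≠ w' → Disjoint (B w) (B w')) ∧
        (∀ w w', H.Adj w w' → ∃ x ∈ B w, ∃ y ∈ B w', G.Adj x y)) := by
  intro hyp
  obtain ⟨c, hc, hk⟩ := hyp 3 (by norm_num) (Fin 4) star star_connected
    ⟨0, 1, by decide, Or.inl rfl⟩ Vx G G_minor_free lst lst_card
  obtain ⟨v, x, y, z, hxy, hxz, hyz, hvx, hvy, hvz, cx, cy, cz⟩ := exists_star c hc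
  have h1 := hvx.ne
  have h2 := hvy.ne
  have h3 := hvz.ne
  apply hk (c v)
  refine ⟨fun w => {![v, x, y, z] w}, ?_, fun w => singleton_connected _, ?_, ?_⟩
  · intro w
    fin_cases w <;> simp [cx, cy, cz]
  · intro w w' h
    rw [Set.disjoint_singleton]
    have hinj : Function.Injective ![v, x, y, z] := by
      have h4 := h1.symm
      have h5 := h2.symm
      have h6 := h3.symm
      have h7 := hxy.symm
      have h8 := hxz.symm
      have h9 := hyz.symm
      intro a b
      fin_cases a <;> fin_cases b <;> intro e <;> first | rfl | contradiction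
    exact fun e => h (hinj e)
  · intro w w' h
    refine ⟨_, rfl, _, rfl, ?_⟩
    obtain ⟨hne, h0 | h0⟩ := h
    · subst h0
      fin_cases w'
      · exact (hne rfl).elim
      · exact hvx
      · exact hvy
      · exact hvz
    · subst h0
      fin_cases w
      · exact (hne rfl).elim
      · exact hvx.symm
      · exact hvy.symm
      · exact hvz.symm

end Pool.Agent.S10044
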