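import Pool.Statements.S10614
import Pool.Agent.Lib.MP_a6e91d_co.Main

set_option autoImplicit false
open Pool Pool.MP_a6e91d_co

namespace Pool.Agent.S10614

/-- The negation of the preceding statement: There exist s ≥ 2, m ≥ 3 and n = Σ_i C(m,i)C(s,i)2^i such that some m-element subset A of ℤ_n has every element of ℤ_n as an integer combination of A's elements with absolute coefficients summing to at most s. -/
theorem result :
    ¬ (∃ s m n : ℕ, 2 ≤ s ∧ 3 ≤ m ∧
    n = ∑ i ∈ Finset.range (m + 1), Nat.choose m i * Nat.choose s i * 2 ^ i ∧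
    ∃ A : Finset (ZMod n), A.card = m ∧
      ∀ x : ZMod n, ∃ c : ZMod n → ℤ,
        ∑ a ∈ A, |c a| ≤ (s : ℤ) ∧ ∑ a ∈ A, (c a : ZMod n) * a = x) := by
  rintro ⟨s, m, n, hs, hm, hn, A, hA, h⟩
  exact Pool.Agent.Lib.MP_a6e91d_co.main hs hm hn A hA h

end Pool.Agent.S10614
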