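import Pool.Statements.S10673
import Pool.Agent.Lib.MP_a97014_co.Chi

set_option autoImplicit false
open Pool Pool.MP_a97014_co

namespace Pool.Agent.S10673

/-- For d ≥ 2 and n ≥ 2d+1, every uniform rank-(d+1) chirotope on n elements has at most 2·∑_{i=0}^{d-2} C(n-1,i) complete topes (topes all of whose one-element flips are topes), i.e. at most that sum of complete cells up to antipode. -/
theorem result :
  ∀ (d n : ℕ), 2 ≤ d → 2 * d + 1 ≤ n →
  ∀ χ : (Fin (d + 1) → Fin n) → ℤ,
    (∀ x, χ x = 0 ∨ χ x = 1 ∨ χ x = -1) →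
    (∀ x, χ x ≠ 0 ↔ Function.Injective x) →
    (∀ (x : Fin (d + 1) → Fin n) (σ : Equiv.Perm (Fin (d + 1))),
      χ (x ∘ σ) = ((Equiv.Perm.sign σ : ℤˣ) : ℤ) * χ x) →
    (∀ (x : Fin (d + 1) → Fin n) (i j : Fin (d + 1)) (a b c e : Fin n), i ≠ j →
      ¬ (χ (Function.update (Function.update x i a) j b) *
            χ (Function.update (Function.update x i c) j e) =
          -(χ (Function.update (Function.update x i a) j c) *
            χ (Function.update (Function.update x i b) j e)) ∧
         -(χ (Function.update (Function.update x i a) j c) *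
            χ (Function.update (Function.update x i b) j e)) =
          χ (Function.update (Function.update x i a) j e) *
            χ (Function.update (Function.update x i b) j c) ∧
         χ (Function.update (Function.update x i a) j b) *
            χ (Function.update (Function.update x i c) j e) ≠ 0)) →
    (Finset.univ.filter (fun T : Finset (Fin n) =>
      ∀ U : Finset (Fin n), (U = T ∨ ∃ e : Fin n, U = symmDiff T {e}) →
        ∀ y : Fin (d + 2) → Fin n, Function.Injective y →
          ∃ i j : Fin (d + 2),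
            (if y i ∈ U then (-1 : ℤ) else 1) *
                ((-1 : ℤ) ^ (i : ℕ) * χ (y ∘ i.succAbove)) = 1 ∧
            (if y j ∈ U then (-1 : ℤ) else 1) *
                ((-1 : ℤ) ^ (j : ℕ) * χ (y ∘ j.succAbove)) = -1)).card
      ≤ 2 * ∑ i ∈ Finset.range (d - 1), (n - 1).choose i := by
  intro d n hd hn χ h01 hinj halt hgp
  obtain ⟨k, rfl⟩ : ∃ k, d = k + 1 := ⟨d - 1, by omega⟩
  have hpm : ∀ x, Function.Injective x → Lib.MP_a97014_co.PM ((χ x : ℤ) : ℚ) := by
    intro x hx
    have h1 := (hinj x).2 hx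
    rcases h01 x with h | h | h
    · exact absurd h h1
    · left; rw [h]; norm_num
    · right; rw [h]; norm_num
  have hSig : Lib.MP_a97014_co.Sig (k + 1) (Lib.MP_a97014_co.sig χ) := by
    refine Lib.MP_a97014_co.sig_Sig halt hpm ?_
    intro τ a b c e
    have h := hgp (Fin.cons a (Fin.cons a τ)) 0 1 a b c e (by simp)
    simpa only [Lib.MP_a97014_co.update_update_cons] using h
  -- both signs occur on every circuit with one element deleted
  have key : ∀ T : Finset (Fin n),
      (∀ U : Finset (Fin n), (U = T ∨ ∃ e : Fin n, U = symmDiff T {e}) →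
        ∀ y : Fin (k + 1 + 2) → Fin n, Function.Injective y →
          ∃ i j : Fin (k + 1 + 2),
            (if y i ∈ U then (-1 : ℤ) else 1) *
                ((-1 : ℤ) ^ (i : ℕ) * χ (y ∘ i.succAbove)) = 1 ∧
            (if y j ∈ U then (-1 : ℤ) else 1) *
                ((-1 : ℤ) ^ (j : ℕ) * χ (y ∘ j.succAbove)) = -1) →
      ∀ D : Finset (Fin n), D.card = k + 1 + 2 → ∀ e ∈ D, ∀ v : ℚ, Lib.MP_a97014_co.PM v →
        ∃ i ∈ D.erase e, Lib.MP_a97014_co.sg T i * Lib.MP_a97014_co.sig χ D i = v := by
    intro T hT D hD e _ v hv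
    obtain ⟨y, hy, hr⟩ := Lib.MP_a97014_co.exists_enum D hD
    obtain ⟨ε, hε, hs⟩ := Lib.MP_a97014_co.sig_eq halt D y hy (fun z => (hr z).symm)
    have both : ∀ U : Finset (Fin n), (U = T ∨ ∃ e : Fin n, U = symmDiff T {e}) →
        ∃ i ∈ D, Lib.MP_a97014_co.sg U i * Lib.MP_a97014_co.sig χ D i = v := by
      intro U hU
      obtain ⟨i, j, hi, hj⟩ := hT U hU y hy
      have hi' : Lib.MP_a97014_co.sg U (y i) * Lib.MP_a97014_co.sig χ D (y i) = ε := by
        have h2 := congrArg (fun z : ℤ => (z : ℚ)) hi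
        rw [hs i]
        unfold Lib.MP_a97014_co.sg Lib.MP_a97014_co.Th
        push_cast at h2 ⊢
        linear_combination ε * h2
      have hj' : Lib.MP_a97014_co.sg U (y j) * Lib.MP_a97014_co.sig χ D (y j) = -ε := by
        have h2 := congrArg (fun z : ℤ => (z : ℚ)) hj
        rw [hs j]
        unfold Lib.MP_a97014_co.sg Lib.MP_a97014_co.Th
        push_cast at h2 ⊢
        linear_combination ε * h2
      have mi : y i ∈ D := (hr _).1 ⟨i, rfl⟩
      have mj : y j ∈ D := (hr _).1 ⟨j, rfl⟩
      rcases hv with rfl | rfl <;> rcases hε with rfl | rfl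
      · exact ⟨_, mi, hi'⟩
      · exact ⟨_, mj, by rw [hj']; norm_num⟩
      · exact ⟨_, mj, hj'⟩
      · exact ⟨_, mi, hi'⟩
    obtain ⟨i, hi, h1⟩ := both T (Or.inl rfl)
    by_cases hie : i = e
    · subst hie
      obtain ⟨j, hj, h2⟩ := both (symmDiff T {i}) (Or.inr ⟨i, rfl⟩)
      by_cases hji : j = i
      · subst hji
        exfalso
        have h3 : Lib.MP_a97014_co.sg (symmDiff T {j}) j = - Lib.MP_a97014_co.sg T j := by
          unfold Lib.MP_a97014_co.sg
          by_cases h : j ∈ T <;> simp [Finset.mem_symmDiff, h]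
        rw [h3] at h2
        have h4 : v = -v := by linear_combination -h1 - h2
        exact hv.ne_zero (by linear_combination h4 / 2)
      · refine ⟨j, Finset.mem_erase.2 ⟨hji, hj⟩, ?_⟩
        rw [← h2]
        unfold Lib.MP_a97014_co.sg
        simp [Finset.mem_symmDiff, hji]
    · exact ⟨i, Finset.mem_erase.2 ⟨hie, hi⟩, h1⟩
  have h := Lib.MP_a97014_co.card_le (α := Fin n) hd (by simpa using hn) hSig
    (K := Finset.univ.filter (fun T : Finset (Fin n) =>
      ∀ U : Finset (Fin n), (U = T ∨ ∃ e : Fin n, U = symmDiff T {e}) →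
        ∀ y : Fin (k + 1 + 2) → Fin n, Function.Injective y →
          ∃ i j : Fin (k + 1 + 2),
            (if y i ∈ U then (-1 : ℤ) else 1) *
                ((-1 : ℤ) ^ (i : ℕ) * χ (y ∘ i.succAbove)) = 1 ∧
            (if y j ∈ U then (-1 : ℤ) else 1) *
                ((-1 : ℤ) ^ (j : ℕ) * χ (y ∘ j.succAbove)) = -1))
    (fun T hT D hD e he => key T (Finset.mem_filter.1 hT).2 D hD e he 1 (Or.inl rfl))
    (fun T hT D hD e he => key T (Finset.mem_filter.1 hT).2 D hD e he (-1) (Or.inr rfl))
  simpa only [Fintype.card_fin] using h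

end Pool.Agent.S10673
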