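import Pool.Statements.S10683
import Pool.Agent.Lib.MP_aa3337_co.Main

set_option autoImplicit false
open Pool Pool.MP_aa3337_co

namespace Pool.Agent.S10683

/-- There is ε>0 such that for every n and every n points in the plane with no three collinear, the straight-line edges can be coloured with at most (1-ε)n colours so that any two crossing edges get different colours. -/
theorem result :
    ∃ ε : ℝ, 0 < ε ∧
      ∀ n : ℕ, ∀ p : Fin n → ℝ × ℝ,
        Function.Injective p →
        (∀ i j l : Fin n, i ≠ j → j ≠ l → i ≠ l → ¬ Collinear ℝ ({p i, p j, p l} : Set (ℝ × ℝ))) →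
        ∃ k : ℕ, (k : ℝ) ≤ (1 - ε) * (n : ℝ) ∧
          ∃ c : Fin n → Fin n → ℕ,
            (∀ i j : Fin n, c i j = c j i) ∧
            (∀ i j : Fin n, i ≠ j → c i j < k) ∧
            (∀ i j a b : Fin n, i ≠ j → i ≠ a → i ≠ b → j ≠ a → j ≠ b → a ≠ b →
              (openSegment ℝ (p i) (p j) ∩ openSegment ℝ (p a) (p b)).Nonempty →
              c i j ≠ c a b) := by
  refine ⟨1 / 2048, by norm_num, fun n p hp hcol => ?_⟩
  obtain ⟨t, ht⟩ := Pool.Agent.Lib.MP_aa3337_co.exists_shear p hp
  have hgp : ∀ a b c : Fin n, a ≠ b → b ≠ c → a ≠ c →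
      Pool.Agent.Lib.MP_aa3337_co.det (fun i => (p i).1 + t * (p i).2) (fun i => (p i).2)
        a b c ≠ 0 := by
    intro a b c hab hbc hac h0
    apply hcol a b c hab hbc hac
    apply Pool.Agent.Lib.MP_aa3337_co.collinear_of_det (fun h => hab (hp h))
    unfold Pool.Agent.Lib.MP_aa3337_co.det at h0
    linear_combination h0
  obtain ⟨k, hk, hcov⟩ := Pool.Agent.Lib.MP_aa3337_co.cov_all hgp ht
  obtain ⟨c, h1, h2, h3⟩ := hcov.colouring
  refine ⟨k, ?_, c, h1, h2, ?_⟩
  · rw [Fintype.card_fin] at hk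
    have hk' : (2048 : ℝ) * k ≤ 2047 * n := by exact_mod_cast hk
    linarith
  · intro i j a b hij hia hib hja hjb hab hx
    apply h3 i j a b hij hia hib hja hjb hab
    obtain ⟨z, ⟨s, r, hs, hr, hsr, hz⟩, ⟨s', r', hs', hr', hsr', hz'⟩⟩ := hx
    have e := hz.trans hz'.symm
    have e1 := congrArg Prod.fst e
    have e2 := congrArg Prod.snd e
    simp only [Prod.fst_add, Prod.smul_fst, Prod.snd_add, Prod.smul_snd, smul_eq_mul] at e1 e2
    refine ⟨s, r, s', r', hs, hr, hsr, hs', hr', hsr', ?_, e2⟩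
    linear_combination e1 + t * e2

end Pool.Agent.S10683
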