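import Pool.Statements.S10718
import Pool.Agent.Lib.MP_ab53bf_co.Rigid

set_option autoImplicit false
open Pool Pool.MP_ab53bf_co

namespace Pool.Agent.S10718

/-- The negation of the preceding statement: If two ordinary proper n-gons have the same pattern and some dihedral relabelling of the second makes corresponding edges same-direction parallel, then some such relabelling admits a continuous deformation of the first into it keeping the pattern and all edge directions. -/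
theorem result :
    ¬ (∀ (n : ℕ), 3 ≤ n →
  ∀ (Edge : (Fin n → ℝ × ℝ) → Fin n → Set (ℝ × ℝ)),
    (∀ x i, Edge x i = segment ℝ (x i) (x (finRotate n i))) →
  ∀ (Pend : (Fin n → ℝ × ℝ) → ℝ → Fin n → ℝ × ℝ),
    (∀ x ε i, Pend x ε i = x i + ε • ((2:ℝ) • x i - x ((finRotate n).symm i) - x (finRotate n i))) →
  ∀ (Ordinary : (Fin n → ℝ × ℝ) → Prop),
    (∀ x, Ordinary x ↔ ∀ (p : ℝ × ℝ) (i j k : Fin n), p ∈ Edge x i → p ∈ Edge x j → p ∈ Edge x k →
      i = j ∨ j = k ∨ i = k) →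
  ∀ (Proper : (Fin n → ℝ × ℝ) → Prop),
    (∀ x, Proper x ↔ (∀ i, x i ≠ x (finRotate n i)) ∧
      ∀ i, ¬ Collinear ℝ ({x ((finRotate n).symm i), x i, x (finRotate n i)} : Set (ℝ × ℝ))) →
  ∀ (MapSet : (Fin n → ℝ × ℝ) → ℝ → Set (ℝ × ℝ)),
    (∀ x ε, MapSet x ε = (⋃ i, Edge x i) ∪ ⋃ i, segment ℝ (x i) (Pend x ε i)) →
  ∀ (Nodes : (Fin n → ℝ × ℝ) → ℝ → Set (ℝ × ℝ)),
    (∀ x ε, Nodes x ε = Set.range x ∪ {p : ℝ × ℝ | ∃ i j, i ≠ j ∧ p ∈ Edge x i ∧ p ∈ Edge x j}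
      ∪ Set.range (Pend x ε)) →
  ∀ (SamePattern : (Fin n → ℝ × ℝ) → (Fin n → ℝ × ℝ) → Prop),
    (∀ x y, SamePattern x y ↔ ∃ δ : ℝ, 0 < δ ∧ ∀ ε₁ ε₂ : ℝ, 0 < ε₁ → ε₁ < δ → 0 < ε₂ → ε₂ < δ →
      ∃ h : Homeomorph (ℝ × ℝ) (ℝ × ℝ), h '' MapSet x ε₁ = MapSet y ε₂ ∧ h '' Nodes x ε₁ = Nodes y ε₂) →
  ∀ (Dihedral : Equiv.Perm (Fin n) → Prop),
    (∀ σ, Dihedral σ ↔ (∀ i, σ (finRotate n i) = finRotate n (σ i)) ∨
      (∀ i, σ (finRotate n i) = (finRotate n).symm (σ i))) →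
  ∀ (Parallel : (Fin n → ℝ × ℝ) → (Fin n → ℝ × ℝ) → Prop),
    (∀ x z, Parallel x z ↔ ∀ i, ∃ c : ℝ, 0 < c ∧ z (finRotate n i) - z i = c • (x (finRotate n i) - x i)) →
  ∀ x y : Fin n → ℝ × ℝ,
    Ordinary x → Proper x → Ordinary y → Proper y → SamePattern x y →
    (∃ σ : Equiv.Perm (Fin n), Dihedral σ ∧ Parallel x (fun i => y (σ i))) →
    ∃ σ : Equiv.Perm (Fin n), Dihedral σ ∧ Parallel x (fun i => y (σ i)) ∧
      ∃ X : ℝ → Fin n → ℝ × ℝ,
        (∀ j, ContinuousOn (fun t => X t j) (Set.Icc (0:ℝ) 1)) ∧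
        X 0 = x ∧ X 1 = (fun i => y (σ i)) ∧
        ∀ t ∈ Set.Icc (0:ℝ) 1,
          Ordinary (X t) ∧ Proper (X t) ∧ SamePattern x (X t) ∧ Parallel x (X t)) := by
  intro H
  open Pool.Agent.Lib.MP_ab53bf_co in
  have key := H 10 (by norm_num) Edge (fun _ _ => rfl) Pend (fun _ _ _ => rfl) Ordinary
    (fun _ => Iff.rfl) Proper (fun _ => Iff.rfl) _ (fun _ _ => rfl) _ (fun _ _ => rfl) _
    (fun _ _ => Iff.rfl) Dihedral (fun _ => Iff.rfl) Parallel (fun _ _ => Iff.rfl) xA xB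
    ordinary_A proper_A ordinary_B proper_B ?_ ⟨1, Or.inl fun _ => rfl, parallel_AB⟩
  · obtain ⟨σ, hσ, hP, X, hc, h0, h1, h⟩ := key
    exact Pool.Agent.Lib.MP_ab53bf_co.no_deformation hσ hP X hc h0 h1
      fun t ht => ⟨(h t ht).1, (h t ht).2.2.2⟩
  · obtain ⟨δ, hδ, h⟩ := Pool.Agent.Lib.MP_ab53bf_co.samePattern_AB
    refine ⟨δ, hδ, fun ε₁ ε₂ a1 a2 b1 b2 => ?_⟩
    obtain ⟨h, hh⟩ := h ε₁ ε₂ a1 a2 b1 b2
    refine ⟨h, ?_, ?_⟩
    · simp only [Set.image_union, Set.image_iUnion]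
      congr 1
      · exact Set.iUnion_congr fun i => (hh i).2.1
      · exact Set.iUnion_congr fun i => (hh i).2.2.2
    · simp only [Set.image_union, ← Set.range_comp]
      congr 2
      · congr 1
        funext i
        exact (hh i).1
      · ext p
        constructor
        · rintro ⟨q, ⟨i, j, hij, hi, hj⟩, rfl⟩
          refine ⟨i, j, hij, ?_, ?_⟩
          · exact (hh i).2.1.subset (Set.mem_image_of_mem _ hi)
          · exact (hh j).2.1.subset (Set.mem_image_of_mem _ hj)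
        · rintro ⟨i, j, hij, hi, hj⟩
          obtain ⟨q, hq, rfl⟩ := (hh i).2.1.symm.subset hi
          obtain ⟨r, hr, e⟩ := (hh j).2.1.symm.subset hj
          obtain rfl : r = q := h.injective e
          exact ⟨r, ⟨i, j, hij, hq, hr⟩, rfl⟩
      · funext i
        exact (hh i).2.2.1

end Pool.Agent.S10718
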