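import Pool.Statements.S11366
import Pool.Agent.Lib.MP_c72610_co.Example

set_option autoImplicit false
open Classical
open Pool Pool.MP_c72610_co

namespace Pool.Agent.S11366

/-- The negation of the preceding statement: For every finite matroid, the bases satisfy the weighted negative-correlation inequality for all distinct e,f and positive weights exactly when both the independent sets and the spanning sets satisfy it. -/
theorem result :
    ¬ (∀ (n : ℕ) (M : Matroid (Fin n)),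
      (∀ z : Fin n → ℝ, (∀ x, 0 < z x) → ∀ e f : Fin n, e ≠ f →
        (∑ A : Finset (Fin n), if M.IsBase (A : Set (Fin n)) ∧ e ∈ A ∧ f ∈ A then ∏ x ∈ A, z x else 0) *
          (∑ A : Finset (Fin n), if M.IsBase (A : Set (Fin n)) then ∏ x ∈ A, z x else 0) ≤
        (∑ A : Finset (Fin n), if M.IsBase (A : Set (Fin n)) ∧ e ∈ A then ∏ x ∈ A, z x else 0) *
          (∑ A : Finset (Fin n), if M.IsBase (A : Set (Fin n)) ∧ f ∈ A then ∏ x ∈ A, z x else 0))
      ↔
      ((∀ z : Fin n → ℝ, (∀ x, 0 < z x) → ∀ e f : Fin n, e ≠ f →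
        (∑ A : Finset (Fin n), if M.Indep (A : Set (Fin n)) ∧ e ∈ A ∧ f ∈ A then ∏ x ∈ A, z x else 0) *
          (∑ A : Finset (Fin n), if M.Indep (A : Set (Fin n)) then ∏ x ∈ A, z x else 0) ≤
        (∑ A : Finset (Fin n), if M.Indep (A : Set (Fin n)) ∧ e ∈ A then ∏ x ∈ A, z x else 0) *
          (∑ A : Finset (Fin n), if M.Indep (A : Set (Fin n)) ∧ f ∈ A then ∏ x ∈ A, z x else 0)) ∧
       (∀ z : Fin n → ℝ, (∀ x, 0 < z x) → ∀ e f : Fin n, e ≠ f →
        (∑ A : Finset (Fin n), if M.Spanning (A : Set (Fin n)) ∧ e ∈ A ∧ f ∈ A then ∏ x ∈ A, z x else 0) *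
          (∑ A : Finset (Fin n), if M.Spanning (A : Set (Fin n)) then ∏ x ∈ A, z x else 0) ≤
        (∑ A : Finset (Fin n), if M.Spanning (A : Set (Fin n)) ∧ e ∈ A then ∏ x ∈ A, z x else 0) *
          (∑ A : Finset (Fin n), if M.Spanning (A : Set (Fin n)) ∧ f ∈ A then ∏ x ∈ A, z x else 0)))) := by
  intro h
  obtain ⟨M, -, hS, hR⟩ := Pool.Agent.Lib.MP_c72610_co.Gr.exists_graphic _ _
    Pool.Agent.Lib.MP_c72610_co.Gr.ex_conn
  have h1 := ((h 17 M).1 (by convert hR)).2 _ Pool.Agent.Lib.MP_c72610_co.Gr.ex_weight_pos 0 1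
    (by decide)
  simp only [hS] at h1
  refine absurd h1 (not_le.2 ?_)
  convert Pool.Agent.Lib.MP_c72610_co.Gr.ex_pos

end Pool.Agent.S11366
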