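import Pool.Statements.S11450
import Pool.Agent.Lib.MP_cb399b_co.Counter

set_option autoImplicit false
open Pool Pool.MP_cb399b_co

namespace Pool.Agent.S11450

/-- The negation of the preceding statement: For a finite matroid of rank r on E with ∣E∣ = kr+1, k ≥ 2, if E minus x and E minus y each split into k disjoint bases, then there are such splittings of both that have a basis in common. -/
theorem result :
    ¬ (∀ (α : Type) (M : Matroid α) (k : ℕ), 2 ≤ k → M.E.Finite →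
      M.E.encard = (k : ℕ∞) * M.eRank + 1 →
      ∀ x y : α, x ∈ M.E → y ∈ M.E →
      (∃ B : Fin k → Set α, (∀ i, M.IsBase (B i)) ∧
          (∀ i j, i ≠ j → Disjoint (B i) (B j)) ∧
          (⋃ i, B i) = M.E \ {x}) →
      (∃ B : Fin k → Set α, (∀ i, M.IsBase (B i)) ∧
          (∀ i j, i ≠ j → Disjoint (B i) (B j)) ∧
          (⋃ i, B i) = M.E \ {y}) →
      ∃ P Q : Fin k → Set α,
        (∀ i, M.IsBase (P i)) ∧ (∀ i j, i ≠ j → Disjoint (P i) (P j)) ∧
          (⋃ i, P i) = M.E \ {x} ∧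
        (∀ i, M.IsBase (Q i)) ∧ (∀ i j, i ≠ j → Disjoint (Q i) (Q j)) ∧
          (⋃ i, Q i) = M.E \ {y} ∧
        ∃ i j, P i = Q j) := by
  intro h
  obtain ⟨P, Q, hP, -, hPU, hQ, -, hQU, i, j, hij⟩ :=
    h (Fin 9) Pool.Agent.Lib.MP_cb399b_co.M 2 le_rfl Set.finite_univ
      (by rw [Pool.Agent.Lib.MP_cb399b_co.M_encard, Pool.Agent.Lib.MP_cb399b_co.M_eRank]; rfl)
      7 8 (Set.mem_univ _) (Set.mem_univ _) Pool.Agent.Lib.MP_cb399b_co.part_x
      Pool.Agent.Lib.MP_cb399b_co.part_y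
  exact Pool.Agent.Lib.MP_cb399b_co.no_common P Q hP hPU hQ hQU i j hij

end Pool.Agent.S11450
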