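import Pool.Statements.S11483
import Pool.Agent.Lib.MP_ccfeb5_co.Main

set_option autoImplicit false
open Pool Pool.MP_ccfeb5_co

namespace Pool.Agent.S11483

/-- For every finite loopless digraph and k ≥ 1, some k disjoint directed paths cover at least as many vertices as the sum, over the colour classes of some proper colouring, of min(class size, k). -/
theorem result :
    ∀ (V : Type) [Fintype V] [DecidableEq V] (D : Digraph V),
      (∀ v, ¬ D.Adj v v) → ∀ k : ℕ, 0 < k →
      ∃ (p : Fin k → List V) (c : V → ℕ),
        (∀ i, (p i).Nodup ∧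
          ∀ (n : ℕ) (u v : V), (p i)[n]? = some u → (p i)[n + 1]? = some v → D.Adj u v) ∧
        (∀ i j, i ≠ j → List.Disjoint (p i) (p j)) ∧
        (∀ u v, D.Adj u v → c u ≠ c v) ∧
        (∑ a ∈ Finset.univ.image c,
            min (Finset.univ.filter (fun v => c v = a)).card k)
          ≤ (Finset.univ.biUnion fun i => (p i).toFinset).card := by
  intro V _ _ D hD k hk
  exact Pool.Agent.Lib.MP_ccfeb5_co.linial_dual V D.Adj hD k hk

end Pool.Agent.S11483
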