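import Pool.Statements.S12010
import Pool.Agent.Lib.MP_e20aca_co.Final

set_option autoImplicit false
open Classical
open Pool Pool.MP_e20aca_co

namespace Pool.Agent.S12010

/-- The negation of the preceding statement: For every θ in (0,1/2] there is C>1 such that, over primes p, the fraction of ⌊p^θ⌋-subsets A of Z/pZ for which at most ⌊C p^(1−θ)⌋ translates of A cover Z/pZ tends to 1. -/
theorem result :
    ¬ (∀ θ : ℝ, 0 < θ → θ ≤ 1 / 2 →
      ∃ C : ℝ, 1 < C ∧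
        ∀ ε : ℝ, 0 < ε → ∃ N : ℕ, ∀ p : ℕ, N ≤ p → p.Prime →
          1 - ε <
            (((Finset.univ : Finset (Finset (Fin p))).filter
                (fun A => A.card = ⌊(p : ℝ) ^ θ⌋₊ ∧
                  ∃ T : Finset (Fin p), T.card ≤ ⌊C * (p : ℝ) ^ (1 - θ)⌋₊ ∧
                    ∀ x : Fin p, ∃ t ∈ T, ∃ a ∈ A, t + a = x)).card : ℝ) /
              ((p.choose ⌊(p : ℝ) ^ θ⌋₊ : ℕ) : ℝ)) := by
  intro h
  obtain ⟨C, -, hC⟩ := h (1 / 2) (by norm_num) le_rfl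
  obtain ⟨N₁, hN₁⟩ := hC (1 / 2) (by norm_num)
  obtain ⟨N₂, hN₂⟩ := Pool.Agent.Lib.Cov39.fin_cover_bound C (1 / 2) (by norm_num)
  obtain ⟨p, hp, hprime⟩ := Nat.exists_infinite_primes (max N₁ N₂)
  have h1 := hN₁ p (le_of_max_le_left hp) hprime
  have e : (1 : ℝ) - 1 / 2 = 1 / 2 := by norm_num
  rw [e] at h1
  exact absurd (hN₂ p (le_of_max_le_right hp) _ fun A hA => (Finset.mem_filter.1 hA).2)
    (not_le.2 h1)

end Pool.Agent.S12010
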