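import Pool.Statements.S12047
import Pool.Agent.Lib.MP_e3676c_co.Main

set_option autoImplicit false
open Pool Pool.MP_e3676c_co

namespace Pool.Agent.S12047

/-- There is m such that for every n, every family of m-subsets of {0..n-1} that is totally ordered by comparing sorted elements coordinatewise admits a 2-coloring of the points with no monochromatic member. -/
theorem result :
    ∃ m : ℕ, ∀ (n : ℕ) (H : Finset (Finset (Fin n))) (hH : ∀ A ∈ H, A.card = m),
      (∀ A (hA : A ∈ H) B (hB : B ∈ H),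
        (∀ i : Fin m, A.orderEmbOfFin (hH A hA) i ≤ B.orderEmbOfFin (hH B hB) i) ∨
        (∀ i : Fin m, B.orderEmbOfFin (hH B hB) i ≤ A.orderEmbOfFin (hH A hA) i)) →
      ∃ c : Fin n → Bool, ∀ A ∈ H, ∃ x ∈ A, ∃ y ∈ A, c x ≠ c y :=
  ⟨4, Pool.Agent.Lib.MP_e3676c_co.two_colourable 4 le_rfl⟩

end Pool.Agent.S12047
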