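import Pool.Statements.S12071
import Pool.Agent.Lib.MP_e43eb1_co.Main

set_option autoImplicit false
open Pool Pool.MP_e43eb1_co

namespace Pool.Agent.S12071

/-- For all r,t,k there are d>0 and n such that any k-colouring of Z^n has disjointly supported u_1..u_t of 1-norm d and a point x with all x+Σλ_i u_i (integers λ, Σ∣λ_i∣≤r) coloured like x. -/
theorem result :
    ∀ r t k : ℕ, ∃ d n : ℕ, 0 < d ∧
      ∀ c : (Fin n → ℤ) → Fin k,
        ∃ u : Fin t → Fin n → ℤ,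
          (∀ i i' : Fin t, i ≠ i' → ∀ j : Fin n, u i j = 0 ∨ u i' j = 0) ∧
          (∀ i : Fin t, ∑ j : Fin n, |u i j| = (d : ℤ)) ∧
          ∃ x : Fin n → ℤ, ∀ l : Fin t → ℤ, ∑ i : Fin t, |l i| ≤ (r : ℤ) →
            c (x + ∑ i : Fin t, l i • u i) = c x := by
  intro r t k
  obtain ⟨d, n, hd, H⟩ := Pool.Agent.Lib.MP_e43eb1_co.main_box r t k
  refine ⟨d, n, hd, fun c => ?_⟩
  obtain ⟨u, h1, h2, x, hx⟩ := H c
  refine ⟨u, h1, h2, x, fun l hl => hx l fun i => le_trans ?_ hl⟩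
  exact Finset.single_le_sum (f := fun i => |l i|) (fun _ _ => abs_nonneg _) (Finset.mem_univ i)

end Pool.Agent.S12071
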