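import Pool.Statements.S12181
import Pool.Agent.Lib.MP_e96620_co.Main

set_option autoImplicit false
open Pool Pool.MP_e96620_co

namespace Pool.Agent.S12181

/-- There is ε>0 such that for every δ>0, for all large k and all N up to a tower of 2s of height ⌊εk⌋, some 2-coloring of k-subsets of [N] has, on every 2k-set S, red minus blue k-subsets at most δ·C(2k,k) in absolute value. -/
theorem result :
    ∃ ε : ℝ, 0 < ε ∧ ∀ δ : ℝ, 0 < δ → ∃ k₀ : ℕ, ∀ k : ℕ, k₀ ≤ k →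
      ∀ N : ℕ, N ≤ (fun n : ℕ => 2 ^ n)^[⌊ε * (k : ℝ)⌋₊] 1 →
        ∃ γ : Finset (Fin N) → Bool, ∀ S : Finset (Fin N), S.card = 2 * k →
          |∑ T ∈ S.powersetCard k, (if γ T then (1 : ℝ) else -1)|
            ≤ δ * ((Nat.choose (2 * k) k : ℕ) : ℝ) := by
  obtain ⟨C, hC, c, hc, hbd⟩ := Pool.Agent.Lib.MP_e96620_co.bd_iterate 12
  have hCR : (2 : ℝ) ≤ C := by exact_mod_cast hC
  have hC0 : (0 : ℝ) < C := by linarith
  refine ⟨1 / C, by positivity, fun δ hδ => ?_⟩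
  refine ⟨C + ⌈102 * c * C ^ 6 / δ ^ 2⌉₊, fun k hk N hN => ?_⟩
  set h := ⌊1 / (C : ℝ) * k⌋₊ with hh
  have hkC : C ≤ k := by omega
  have hk1 : 1 ≤ k := by omega
  have hkR : (C : ℝ) ≤ k := by exact_mod_cast hkC
  have hk1R : (1 : ℝ) ≤ k := by exact_mod_cast hk1
  have hkbig : 102 * c * C ^ 6 / δ ^ 2 ≤ k := by
    refine (Nat.le_ceil _).trans ?_
    have : ⌈102 * c * C ^ 6 / δ ^ 2⌉₊ ≤ k := by omega
    exact_mod_cast this
  have hfl : (h : ℝ) ≤ 1 / (C : ℝ) * k := Nat.floor_le (by positivity)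
  have hfl2 : 1 / (C : ℝ) * k < h + 1 := Nat.lt_floor_add_one _
  have hCh : (C : ℝ) * h ≤ k := by
    calc (C : ℝ) * h ≤ C * (1 / (C : ℝ) * k) := by gcongr
      _ = k := by field_simp
  have hChN : C * h ≤ k := by exact_mod_cast hCh
  have hCt : C * (h + 1) ≤ 2 * k := by rw [mul_add]; omega
  have ht : h + 1 ≤ k := by nlinarith
  have hkt : (k : ℝ) ≤ C * ((h + 1 : ℕ) : ℝ) := by
    push_cast
    calc (k : ℝ) = C * (1 / (C : ℝ) * k) := by field_simp
      _ ≤ C * (h + 1) := by gcongr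
  have htpos : (0 : ℝ) < ((h + 1 : ℕ) : ℝ) := by positivity
  have hsq : Real.sqrt ((h + 1 : ℕ) : ℝ) ^ 12 = ((h + 1 : ℕ) : ℝ) ^ 6 := by
    rw [show 12 = 2 * 6 from rfl, pow_mul, Real.sq_sqrt htpos.le]
  have hb := hbd (h + 1) h le_rfl h le_rfl
  rw [hsq] at hb
  have hchoose : (0 : ℝ) < ((2 * k).choose k : ℕ) := by
    exact_mod_cast Nat.choose_pos (by omega)
  refine Pool.Agent.Lib.MP_e96620_co.exists_colouring (h := h) (β := c / ((h + 1 : ℕ) : ℝ) ^ 6)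
    hk1 (le_trans hN (Nat.le_add_right _ _)) (by positivity) (by positivity) ?_ ?_
  · intro A 𝒯 hg hA
    have := hb ∅ A 𝒯 hg (by omega)
    rw [hA] at this
    exact this
  · have h1 : (((2 * (2 * k)) ^ (2 * k * (2 * k) * (h + 1)) : ℕ) : ℝ) ≤
        Real.exp (16 * (k : ℝ) ^ 4) := by
      have a1 : ((2 * (2 * k) : ℕ) : ℝ) ≤ Real.exp (4 * k) := by
        have := Real.add_one_le_exp (4 * (k : ℝ))
        push_cast
        linarith
      have a2 : ((2 * k * (2 * k) * (h + 1) : ℕ) : ℝ) ≤ 4 * (k : ℝ) ^ 3 := by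
        have : ((h + 1 : ℕ) : ℝ) ≤ k := by exact_mod_cast ht
        calc ((2 * k * (2 * k) * (h + 1) : ℕ) : ℝ) = 4 * (k : ℝ) ^ 2 * ((h + 1 : ℕ) : ℝ) := by
              push_cast; ring
          _ ≤ 4 * (k : ℝ) ^ 2 * k := by gcongr
          _ = _ := by ring
      rw [Nat.cast_pow]
      calc ((2 * (2 * k) : ℕ) : ℝ) ^ (2 * k * (2 * k) * (h + 1))
          ≤ Real.exp (4 * k) ^ (2 * k * (2 * k) * (h + 1)) := by gcongr
        _ = Real.exp (((2 * k * (2 * k) * (h + 1) : ℕ) : ℝ) * (4 * k)) := by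
            rw [Real.exp_nat_mul]
        _ ≤ Real.exp (4 * (k : ℝ) ^ 3 * (4 * k)) := by gcongr
        _ = _ := by congr 1; ring
    have h2 : 17 * (k : ℝ) ^ 4 ≤ (δ * ((2 * k).choose k : ℕ)) ^ 2 /
        (2 * (2 ^ (2 * k) * (c / ((h + 1 : ℕ) : ℝ) ^ 6) * ((2 * k).choose k : ℕ))) := by
      have b1 : (2 : ℝ) ^ (2 * k) ≤ 3 * k * ((2 * k).choose k : ℕ) := by
        have := Nat.four_pow_le_two_mul_add_one_mul_central_binom k
        have h' : (4 : ℝ) ^ k ≤ (2 * k + 1) * ((2 * k).choose k : ℕ) := by exact_mod_cast this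
        rw [pow_mul]
        norm_num
        refine h'.trans ?_
        gcongr
        linarith
      have b2 : c / ((h + 1 : ℕ) : ℝ) ^ 6 ≤ c * C ^ 6 / k ^ 6 := by
        rw [div_le_div_iff₀ (by positivity) (by positivity), mul_assoc, ← mul_pow]
        gcongr
      have b3 : 102 * c * C ^ 6 ≤ k * δ ^ 2 := by
        rw [div_le_iff₀ (by positivity)] at hkbig
        exact hkbig
      rw [le_div_iff₀ (by positivity)]
      calc 17 * (k : ℝ) ^ 4 *
            (2 * (2 ^ (2 * k) * (c / ((h + 1 : ℕ) : ℝ) ^ 6) * ((2 * k).choose k : ℕ)))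
          ≤ 17 * (k : ℝ) ^ 4 * (2 * ((3 * k * ((2 * k).choose k : ℕ)) * (c * C ^ 6 / k ^ 6) *
              ((2 * k).choose k : ℕ))) := by gcongr
        _ = (102 * c * C ^ 6) / k * (((2 * k).choose k : ℕ) : ℝ) ^ 2 := by
            field_simp
            ring
        _ ≤ (k * δ ^ 2) / k * (((2 * k).choose k : ℕ) : ℝ) ^ 2 := by gcongr
        _ = _ := by field_simp
    have h3 : (2 : ℝ) < Real.exp ((k : ℝ) ^ 4) := by
      have a1 : (1 : ℝ) ≤ (k : ℝ) ^ 4 := one_le_pow₀ hk1R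
      have a2 := Real.add_one_lt_exp (x := (k : ℝ) ^ 4) (by positivity)
      linarith
    calc 2 * (((2 * (2 * k)) ^ (2 * k * (2 * k) * (h + 1)) : ℕ) : ℝ) *
          Real.exp (-((δ * ((2 * k).choose k : ℕ)) ^ 2 /
            (2 * (2 ^ (2 * k) * (c / ((h + 1 : ℕ) : ℝ) ^ 6) * ((2 * k).choose k : ℕ)))))
        ≤ 2 * Real.exp (16 * (k : ℝ) ^ 4) * Real.exp (-(17 * (k : ℝ) ^ 4)) := by
          gcongr
      _ < Real.exp ((k : ℝ) ^ 4) * Real.exp (16 * (k : ℝ) ^ 4) *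
          Real.exp (-(17 * (k : ℝ) ^ 4)) := by gcongr
      _ = 1 := by
          rw [← Real.exp_add, ← Real.exp_add, ← Real.exp_zero]
          congr 1
          ring

end Pool.Agent.S12181
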