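import Pool.Statements.S12970
import Pool.Agent.Lib.MP_2fa2a2_gt.PI.All

set_option autoImplicit false
open Pool Pool.MP_2fa2a2_gt

namespace Pool.Agent.S12970

/-- The negation of the preceding statement: For n ≥ 3 and any convex body K in ℝⁿ: if the projection body of K is homothetic to the intersection body of K or to the cross-section body of K, then K is an ellipsoid (an affine image of the unit ball). -/
theorem result :
    ¬ (∀ (n : ℕ), 3 ≤ n → ∀ K : Set (EuclideanSpace ℝ (Fin n)),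
      Convex ℝ K → IsCompact K → (interior K).Nonempty →
      ((∃ c : EuclideanSpace ℝ (Fin n), ∃ r : ℝ, 0 < r ∧
          {x : EuclideanSpace ℝ (Fin n) | ∀ u : EuclideanSpace ℝ (Fin n), ‖u‖ = 1 →
              inner ℝ x u ≤ (MeasureTheory.Measure.hausdorffMeasure ((n : ℝ) - 1)
                ((fun y : EuclideanSpace ℝ (Fin n) => y - inner ℝ u y • u) '' K)).toReal}
          = (fun y : EuclideanSpace ℝ (Fin n) => c + r • y) ''
              {x : EuclideanSpace ℝ (Fin n) | x = 0 ∨
                ‖x‖ ≤ (MeasureTheory.Measure.hausdorffMeasure ((n : ℝ) - 1)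
                  (K ∩ {y : EuclideanSpace ℝ (Fin n) | inner ℝ x y = 0})).toReal}) ∨
       (∃ c : EuclideanSpace ℝ (Fin n), ∃ r : ℝ, 0 < r ∧
          {x : EuclideanSpace ℝ (Fin n) | ∀ u : EuclideanSpace ℝ (Fin n), ‖u‖ = 1 →
              inner ℝ x u ≤ (MeasureTheory.Measure.hausdorffMeasure ((n : ℝ) - 1)
                ((fun y : EuclideanSpace ℝ (Fin n) => y - inner ℝ u y • u) '' K)).toReal}
          = (fun y : EuclideanSpace ℝ (Fin n) => c + r • y) ''
              {x : EuclideanSpace ℝ (Fin n) | x = 0 ∨ ∃ t : ℝ,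
                ‖x‖ ≤ (MeasureTheory.Measure.hausdorffMeasure ((n : ℝ) - 1)
                  (K ∩ {y : EuclideanSpace ℝ (Fin n) | inner ℝ x y = t})).toReal})) →
      ∃ A : EuclideanSpace ℝ (Fin n) ≃ᵃ[ℝ] EuclideanSpace ℝ (Fin n),
        K = A '' Metric.closedBall 0 1) := by
  intro h
  obtain ⟨K, hc, hk, h0, ⟨r, hr, he⟩, hne⟩ := Pool.Agent.Lib.MP_2fa2a2_gt.PI.target
  refine hne (h 3 le_rfl K hc hk ⟨0, h0⟩ (Or.inl ⟨0, r, hr, ?_⟩))
  have h2 : ((3 : ℕ) : ℝ) - 1 = 2 := by norm_num
  rw [h2]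
  simpa only [zero_add] using he

end Pool.Agent.S12970
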