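import Pool.Statements.S13340
import Pool.Agent.Lib.MP_6d476a_gt.Baire

set_option autoImplicit false
open Pool Pool.MP_6d476a_gt

namespace Pool.Agent.S13340

/-- The negation of the preceding statement: Every compact set of first-Baire-class real functions on Baire space (pointwise topology) is homeomorphic to a compact set of scatteredly continuous functions on Baire space (pointwise topology). -/
theorem result :
    ¬ (∀ S : Set ((ℕ → ℕ) → ℝ), IsCompact S →
      (∀ f ∈ S, ∃ u : ℕ → (ℕ → ℕ) → ℝ, (∀ n, Continuous (u n)) ∧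
          ∀ x, Filter.Tendsto (fun n => u n x) Filter.atTop (nhds (f x))) →
      ∃ T : Set ((ℕ → ℕ) → ℝ), IsCompact T ∧
        (∀ g ∈ T, ∀ A : Set (ℕ → ℕ), A.Nonempty → ∃ a ∈ A, ContinuousWithinAt g A a) ∧
        Nonempty (S ≃ₜ T)) := by
  intro h
  obtain ⟨S, hS1, hS2, hS3⟩ := Pool.Agent.Lib.MP_6d476a_gt.not_embeds
  obtain ⟨T, -, hT2, hT3⟩ := h S hS1 hS2
  exact hS3 T hT2 hT3

end Pool.Agent.S13340
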