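import Pool.Statements.S13365
import Pool.Agent.Lib.MP_703675_gt.Final

set_option autoImplicit false
open Pool Pool.MP_703675_gt

namespace Pool.Agent.S13365

/-- There is a compact metric, arcwise connected, hereditarily unicoherent continuum, smooth at some point, that is not locally connected, does not have exactly one ramification point, and has exactly three orbits under its homeomorphisms. -/
theorem result :
  ∃ (X : Type) (_ : MetricSpace X), CompactSpace X ∧ ConnectedSpace X ∧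
    (∀ a b : X, a ≠ b → ∃ γ : unitInterval → X,
        Continuous γ ∧ Function.Injective γ ∧ γ 0 = a ∧ γ 1 = b) ∧
    (∀ A B : Set X, IsClosed A → IsConnected A → IsClosed B → IsConnected B →
        IsPreconnected (A ∩ B)) ∧
    (∃ p : X, ∀ (x : ℕ → X) (y : X), Filter.Tendsto x Filter.atTop (nhds y) →
        Filter.Tendsto
          (fun n => Metric.hausdorffDist
            {z : X | ∀ C : Set X, IsClosed C → IsConnected C → p ∈ C → x n ∈ C → z ∈ C}
            {z : X | ∀ C : Set X, IsClosed C → IsConnected C → p ∈ C → y ∈ C → z ∈ C})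
          Filter.atTop (nhds 0)) ∧
    ¬ LocallyConnectedSpace X ∧
    ¬ (∃! t : X, ∃ a b c : X, a ≠ t ∧ b ≠ t ∧ c ≠ t ∧
        {z : X | ∀ C : Set X, IsClosed C → IsConnected C → t ∈ C → a ∈ C → z ∈ C} ∩
          {z : X | ∀ C : Set X, IsClosed C → IsConnected C → t ∈ C → b ∈ C → z ∈ C} = {t} ∧
        {z : X | ∀ C : Set X, IsClosed C → IsConnected C → t ∈ C → a ∈ C → z ∈ C} ∩
          {z : X | ∀ C : Set X, IsClosed C → IsConnected C → t ∈ C → c ∈ C → z ∈ C} = {t} ∧
        {z : X | ∀ C : Set X, IsClosed C → IsConnected C → t ∈ C → b ∈ C → z ∈ C} ∩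
          {z : X | ∀ C : Set X, IsClosed C → IsConnected C → t ∈ C → c ∈ C → z ∈ C} = {t}) ∧
    (∃ a b c : X,
        (¬ ∃ h : X ≃ₜ X, h a = b) ∧ (¬ ∃ h : X ≃ₜ X, h a = c) ∧ (¬ ∃ h : X ≃ₜ X, h b = c) ∧
        ∀ w : X, (∃ h : X ≃ₜ X, h a = w) ∨ (∃ h : X ≃ₜ X, h b = w) ∨ (∃ h : X ≃ₜ X, h c = w)) := by
  obtain ⟨Wd⟩ := Pool.Agent.MP703675.world_exists
  haveI : CompactSpace Wd.X := Wd.compactSpace
  exact ⟨Wd.X, TopologicalSpace.metrizableSpaceMetric Wd.X, inferInstance,
    @Pool.Agent.MP703675.TreeData.main Wd.X (TopologicalSpace.metrizableSpaceMetric Wd.X)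
      inferInstance _ _ _ Wd.treeData⟩

end Pool.Agent.S13365
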