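import Pool.Statements.S13413
import Pool.Agent.Lib.MP_79af62_gt.BG.Asm
import Pool.Agent.Lib.MP_79af62_gt.BG.Data
import Pool.Agent.Lib.MP_79af62_gt.BG.Sum
import Pool.Agent.Lib.MP_79af62_gt.BG.Alg

set_option autoImplicit false
open Pool Pool.MP_79af62_gt

namespace Pool.Agent.S13413

/-- For every convex body C in d-dimensional Euclidean space, covered by finitely many planks, the plank widths add up to at least 1. Each width is taken relative to the width of C in that plank's direction. -/
theorem result :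
    ∀ (d n : ℕ) (C : Set (EuclideanSpace ℝ (Fin d))),
      IsCompact C → Convex ℝ C → (interior C).Nonempty →
      ∀ (u : Fin n → EuclideanSpace ℝ (Fin d)) (a b : Fin n → ℝ),
        (∀ i, u i ≠ 0) → (∀ i, a i < b i) →
        C ⊆ ⋃ i, {x | a i ≤ inner ℝ (u i) x ∧ inner ℝ (u i) x ≤ b i} →
        1 ≤ ∑ i, (b i - a i) /
          (sSup ((fun x => inner ℝ (u i) x) '' C) - sInf ((fun x => inner ℝ (u i) x) '' C)) := by
  exact Pool.Agent.Lib.MP_79af62_gt.Glue.glue
    (Pool.Agent.BG.core_of Pool.Agent.BG.data Pool.Agent.BG.sum Pool.Agent.BG.alg')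

end Pool.Agent.S13413
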