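import Pool.Statements.S13495
import Pool.Agent.Lib.MP_87c84d_gt.Final

set_option autoImplicit false
open Pool Pool.MP_87c84d_gt

namespace Pool.Agent.S13495

/-- There are two convex bodies in 3-space with the same maximal section area and the same projection area in every direction, such that no isometry of space maps the second onto the first. -/
theorem result :
    ∃ K₁ K₂ : Set (EuclideanSpace ℝ (Fin 3)),
      IsCompact K₁ ∧ Convex ℝ K₁ ∧ (interior K₁).Nonempty ∧
      IsCompact K₂ ∧ Convex ℝ K₂ ∧ (interior K₂).Nonempty ∧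
      (∀ e : EuclideanSpace ℝ (Fin 3), ‖e‖ = 1 →
        ((⨆ t : ℝ, MeasureTheory.Measure.hausdorffMeasure (2 : ℝ)
              (K₁ ∩ {x : EuclideanSpace ℝ (Fin 3) | inner ℝ x e = t})) =
          (⨆ t : ℝ, MeasureTheory.Measure.hausdorffMeasure (2 : ℝ)
              (K₂ ∩ {x : EuclideanSpace ℝ (Fin 3) | inner ℝ x e = t}))) ∧
        MeasureTheory.Measure.hausdorffMeasure (2 : ℝ)
            ((fun x : EuclideanSpace ℝ (Fin 3) => x - (inner ℝ x e) • e) '' K₁) =
          MeasureTheory.Measure.hausdorffMeasure (2 : ℝ)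
            ((fun x : EuclideanSpace ℝ (Fin 3) => x - (inner ℝ x e) • e) '' K₂)) ∧
      ∀ f : EuclideanSpace ℝ (Fin 3) ≃ᵢ EuclideanSpace ℝ (Fin 3), f '' K₂ ≠ K₁ := by
  obtain ⟨κ, P₁, P₂, -, -, -, h⟩ := Pool.Agent.Lib.MP_87c84d_gt.exists_pair one_pos
  exact ⟨_, _, h⟩

end Pool.Agent.S13495
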