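import Pool.Statements.S13506
import Pool.Agent.Lib.MP_886b5a_gt.Main

set_option autoImplicit false
open Pool Pool.MP_886b5a_gt

namespace Pool.Agent.S13506

/-- The negation of the preceding statement: For all c,d>0 there is a smooth map from the plane to R^4, invariant under the Klein bottle group of K_{c,d}, isometric, injective on the quotient, whose image is the common zero set of finitely many polynomials of degree at most 3. -/
theorem result :
    ¬ (∀ c d : ℝ, 0 < c → 0 < d →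
      ∃ F : ℝ × ℝ → (Fin 4 → ℝ),
        ContDiff ℝ ((⊤ : ℕ∞) : WithTop ℕ∞) F ∧
        (∀ p : ℝ × ℝ, F (p.1, p.2 + d) = F p ∧ F (p.1 + c, -p.2) = F p) ∧
        (∀ p : ℝ × ℝ, ∀ u v : ℝ,
          ∑ i : Fin 4, (fderiv ℝ F p (u, v) i) ^ 2 = u ^ 2 + v ^ 2) ∧
        (∀ p q : ℝ × ℝ, F p = F q →
          ∃ m n : ℤ, q.1 = p.1 + (m : ℝ) * c ∧ q.2 = (-1 : ℝ) ^ m * p.2 + (n : ℝ) * d) ∧
        ∃ S : Finset (MvPolynomial (Fin 4) ℝ), (∀ P ∈ S, P.totalDegree ≤ 3) ∧
          Set.range F = {x : Fin 4 → ℝ | ∀ P ∈ S, MvPolynomial.eval x P = 0}) := by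
  intro h
  obtain ⟨F, hF, hper, hiso, hinj, S, hS, hrange⟩ := h 1 1 one_pos one_pos
  refine Pool.Agent.Lib.MP_886b5a_gt.no_cubic_klein 1 1 one_pos one_pos F hF hper
    (fun p => ?_) hinj S hS hrange
  rw [injective_iff_map_eq_zero]
  rintro ⟨u, v⟩ huv
  have h1 := hiso p u v
  rw [huv] at h1
  have h2 : u ^ 2 + v ^ 2 = 0 := by simpa using h1.symm
  have hu : u = 0 := by nlinarith [sq_nonneg u, sq_nonneg v]
  have hv : v = 0 := by nlinarith [sq_nonneg u, sq_nonneg v]
  simp [hu, hv]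

end Pool.Agent.S13506
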