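import Pool.Statements.S14000
import Pool.Agent.Lib.MP_d328cc_gt.NotQ

set_option autoImplicit false
open Pool Pool.MP_d328cc_gt

namespace Pool.Agent.S14000

/-- The negation of the preceding statement: Every compact metric space that is contractible, homogeneous (any point maps to any other by a self-homeomorphism) and of infinite covering dimension is homeomorphic to the Hilbert cube [0,1]^ℕ. -/
theorem result :
    ¬ (∀ (X : Type) [MetricSpace X] [CompactSpace X],
      ContractibleSpace X →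
      (∀ x y : X, ∃ h : X ≃ₜ X, h x = y) →
      (∀ n : ℕ, ∃ m : ℕ, ∃ U : Fin m → Set X,
          (∀ i, IsOpen (U i)) ∧ (⋃ i, U i) = Set.univ ∧
          ∀ k : ℕ, ∀ V : Fin k → Set X,
            (∀ j, IsOpen (V j)) → (⋃ j, V j) = Set.univ →
            (∀ j, ∃ i, V j ⊆ U i) →
            ∃ x : X, ∃ s : Finset (Fin k), s.card = n + 2 ∧ ∀ j ∈ s, x ∈ V j) →
      Nonempty (X ≃ₜ (ℕ → unitInterval))) := by
  intro h
  obtain ⟨φ⟩ := h Pool.Agent.Lib.MP_d328cc_gt.CE.X Pool.Agent.Lib.MP_d328cc_gt.CE.contractible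
    Pool.Agent.Lib.MP_d328cc_gt.CE.homogeneous Pool.Agent.Lib.MP_d328cc_gt.CE.infinite_dim
  exact Pool.Agent.Lib.MP_d328cc_gt.CE.not_cube φ

end Pool.Agent.S14000
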