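import Pool.Statements.S14149
import Pool.Agent.Lib.MP_e6a955_gt.Main

set_option autoImplicit false
open Pool Pool.MP_e6a955_gt

namespace Pool.Agent.S14149

/-- For Tychonoff spaces X, Y, if some homeomorphism of R^X onto R^Y maps the continuous functions on X exactly onto those on Y, then X and Y have the same covering dimension, with dimension defined via finite cozero-set covers. -/
theorem result :
    ∀ (X Y : Type) [TopologicalSpace X] [TopologicalSpace Y] [T35Space X] [T35Space Y]
      (φ : (X → ℝ) ≃ₜ (Y → ℝ)),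
      φ '' {f : X → ℝ | Continuous f} = {g : Y → ℝ | Continuous g} →
      ∀ n : ℕ,
        ((∀ (k : ℕ) (U : Fin k → Set X),
            (∀ i, ∃ f : C(X, ℝ), U i = {x | f x ≠ 0}) →
            (⋃ i, U i) = Set.univ →
            ∃ (m : ℕ) (V : Fin m → Set X),
              (∀ j, ∃ f : C(X, ℝ), V j = {x | f x ≠ 0}) ∧
              (⋃ j, V j) = Set.univ ∧
              (∀ j, ∃ i, V j ⊆ U i) ∧
              ∀ s : Finset (Fin m), s.card = n + 2 → (⋂ j ∈ s, V j) = ∅)
        ↔
        (∀ (k : ℕ) (U : Fin k → Set Y),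
            (∀ i, ∃ f : C(Y, ℝ), U i = {y | f y ≠ 0}) →
            (⋃ i, U i) = Set.univ →
            ∃ (m : ℕ) (V : Fin m → Set Y),
              (∀ j, ∃ f : C(Y, ℝ), V j = {y | f y ≠ 0}) ∧
              (⋃ j, V j) = Set.univ ∧
              (∀ j, ∃ i, V j ⊆ U i) ∧
              ∀ s : Finset (Fin m), s.card = n + 2 → (⋂ j ∈ s, V j) = ∅)) := by
  intro X Y _ _ _ _ φ h n
  exact Pool.Agent.Lib.MP_e6a955_gt.cozDim_iff φ h n

end Pool.Agent.S14149
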