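import Pool.Statements.S14465
import Pool.Agent.Lib.MP_215a10_lc.Dec.Main

set_option autoImplicit false
open Pool Pool.MP_215a10_lc

namespace Pool.Agent.S14465

/-- There is an algorithm that, given a stable periodic sandpile on the square grid (coded by its periods and values), decides whether adding some number n of chips at the origin gives a configuration with no toppling function that stabilizes it. -/
theorem result :
    ComputablePred (fun t : ℕ × ℕ × List ℕ =>
      ∃ n : ℕ, ¬ ∃ u : ℤ × ℤ → ℕ, ∀ x : ℤ × ℤ,
        ((min (t.2.2.getD ((x.1 % ((t.1 : ℤ) + 1)).toNat * (t.2.1 + 1)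
              + (x.2 % ((t.2.1 : ℤ) + 1)).toNat) 0) 3 : ℕ) : ℤ)
          + (if x = 0 then (n : ℤ) else 0)
          + ((u (x.1 + 1, x.2) : ℤ) + (u (x.1 - 1, x.2) : ℤ)
              + (u (x.1, x.2 + 1) : ℤ) + (u (x.1, x.2 - 1) : ℤ))
          - 4 * (u x : ℤ) ≤ 3) := by
  refine Pool.Agent.Sand.explosive_computable.of_eq fun t => ?_
  unfold Pool.Agent.Sand.Robust
  rw [not_forall]
  refine exists_congr fun n => not_congr (exists_congr fun u => forall_congr' fun x => ?_)
  rw [Pool.Agent.Sand.lap_eq]
  unfold Pool.Agent.Sand.cT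
  constructor <;> intro h <;> linarith

end Pool.Agent.S14465
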