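import Pool.Statements.S14990
import Pool.Agent.Lib.MP_848037_lc.NInv5

set_option autoImplicit false
open Pool Pool.MP_848037_lc

namespace Pool.Agent.S14990

/-- The negation of the preceding statement: For prefix-free complexity K (the least, up to a constant, upper-semicomputable K with Kraft sum ≤ 1) and every binary sequence x: the set of z with x ≤_K z is countable iff K(n)+n−K(x↾n) is bounded for infinitely many n. -/
theorem result :
    ¬ (∀ K : List Bool → ℕ,
      REPred (fun p : List Bool × ℕ => K p.1 ≤ p.2) →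
      (∑' σ : List Bool, (2⁻¹ : ENNReal) ^ K σ) ≤ 1 →
      (∀ f : List Bool → ℕ, REPred (fun p : List Bool × ℕ => f p.1 ≤ p.2) →
        (∑' σ : List Bool, (2⁻¹ : ENNReal) ^ f σ) ≤ 1 →
        ∃ c : ℕ, ∀ σ : List Bool, K σ ≤ f σ + c) →
      ∀ x : ℕ → Bool,
        (Set.Countable {z : ℕ → Bool | ∃ c : ℕ, ∀ n : ℕ,
            K (List.ofFn (fun i : Fin n => x i)) ≤ K (List.ofFn (fun i : Fin n => z i)) + c} ↔
          ∃ C : ℕ, ∀ N : ℕ, ∃ n ≥ N,
            K (List.replicate n false) + n ≤ K (List.ofFn (fun i : Fin n => x i)) + C)) := by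
  intro h
  obtain ⟨K, hK⟩ := Pool.Agent.Lib.MP_848037_lc.Neg.exists_K
  obtain ⟨x, a, a1, a2, a3⟩ := Pool.Agent.Lib.MP_848037_lc.Neg.exists_counter hK
  exact Pool.Agent.Lib.MP_848037_lc.Neg.delta2_not_max hK x a a1 a2
    ((h K hK.re hK.kraft hK.min x).1 a3)

end Pool.Agent.S14990
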