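import Pool.Statements.S15339
import Pool.Agent.Lib.MP_c89ac5_lc.Comp

set_option autoImplicit false
open Pool Pool.MP_c89ac5_lc

namespace Pool.Agent.S15339

/-- Every permutation group on ℕ whose set of pairs (σ, σ⁻¹) is a computable Π⁰₁ class is isomorphic, by a group isomorphism that is a homeomorphism for pointwise convergence, to the automorphism group of a computable relational structure on ℕ. -/
theorem result :
    ∀ (G : Subgroup (Equiv.Perm ℕ)) (T : List ℕ → List ℕ → Bool),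
      Computable₂ T →
      (∀ f g : ℕ → ℕ,
          (∀ n : ℕ, T ((List.range n).map f) ((List.range n).map g) = true) ↔
            ∃ σ ∈ G, (⇑σ = f ∧ ⇑σ.symm = g)) →
      ∃ R : ℕ → List ℕ → Bool, Computable₂ R ∧
        ∃ H : Subgroup (Equiv.Perm ℕ),
          (∀ σ : Equiv.Perm ℕ, σ ∈ H ↔ ∀ (i : ℕ) (l : List ℕ), R i (l.map ⇑σ) = R i l) ∧
          ∃ φ : G ≃* H,
            (∀ x : G, ∀ n : ℕ, ∃ m : ℕ, ∀ y : G,
                (∀ k : ℕ, k < m → y.1 k = x.1 k) → (φ y).1 n = (φ x).1 n) ∧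
            (∀ x : H, ∀ n : ℕ, ∃ m : ℕ, ∀ y : H,
                (∀ k : ℕ, k < m → y.1 k = x.1 k) → (φ.symm y).1 n = (φ.symm x).1 n) := by
  intro G T hc hT
  exact Pool.Agent.Lib.MP_c89ac5_lc.main_theorem G T hc hT

end Pool.Agent.S15339
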