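import Pool.Statements.S15359
import Pool.Agent.Lib.MP_cd40e2_lc.Main

set_option autoImplicit false
open scoped Classical
open Pool Pool.MP_cd40e2_lc

namespace Pool.Agent.S15359

/-- For every ε>0 there is q such that for all n some random choice of q points in the n-cube, rejecting when the answers fit no halfspace, rejects each ε-far-from-halfspace function with probability ≥ 2/3. -/
theorem result :
    ∀ ε : ℝ, 0 < ε → ∃ q : ℕ, ∀ n : ℕ, ∃ D : (Fin q → Fin n → Bool) → ℝ,
      (∀ Q, 0 ≤ D Q) ∧ (∑ Q, D Q = 1) ∧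
      ∀ f : (Fin n → Bool) → Bool,
        (∀ g : (Fin n → Bool) → Bool,
          (∃ w : Fin n → ℝ, ∃ θ : ℝ, ∀ x : Fin n → Bool,
              g x = decide (θ ≤ ∑ i, w i * (if x i then (1:ℝ) else -1))) →
          ε ≤ ((Finset.univ.filter (fun x => f x ≠ g x)).card : ℝ) / 2 ^ n) →
        (2:ℝ) / 3 ≤ ∑ Q, D Q *
          (if ∃ w : Fin n → ℝ, ∃ θ : ℝ, ∀ j : Fin q,
              f (Q j) = decide (θ ≤ ∑ i, w i * (if Q j i then (1:ℝ) else -1))
           then (0:ℝ) else 1) := by
  intro ε hε
  obtain ⟨m, hm, hacc⟩ := Pool.Agent.Lib.MP_cd40e2_lc.accept_bound ε hε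
  refine ⟨Fintype.card (Fin m → Bool), fun n => ?_⟩
  let e : Fin (Fintype.card (Fin m → Bool)) ≃ (Fin m → Bool) := (Fintype.equivFin _).symm
  let Qp : (Fin n → Fin m × Bool) → Fin (Fintype.card (Fin m → Bool)) → Fin n → Bool :=
    fun p j => Pool.Agent.Lib.MP_cd40e2_lc.emb p (e j)
  have hU : (0:ℝ) < (2 * m) ^ n := by positivity
  have hcard : ∑ _p : Fin n → Fin m × Bool, (1:ℝ) = (2 * m) ^ n := by
    simp [Finset.card_univ, mul_comm]
  have hsum : ∀ F : (Fin (Fintype.card (Fin m → Bool)) → Fin n → Bool) → ℝ,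
      ∑ Q, (∑ p : Fin n → Fin m × Bool, if Qp p = Q then (1:ℝ) / (2 * m) ^ n else 0) * F Q
        = (∑ p : Fin n → Fin m × Bool, F (Qp p)) / (2 * m) ^ n := by
    intro F
    simp only [Finset.sum_mul]
    rw [Finset.sum_comm, Finset.sum_div]
    refine Finset.sum_congr rfl fun p _ => ?_
    simp only [ite_mul, zero_mul, Finset.sum_ite_eq, Finset.mem_univ, if_true]
    ring
  refine ⟨fun Q => ∑ p : Fin n → Fin m × Bool, if Qp p = Q then (1:ℝ) / (2 * m) ^ n else 0,
    fun Q => Finset.sum_nonneg fun p _ => by split_ifs <;> positivity, ?_, fun f hf => ?_⟩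
  · have := hsum (fun _ => 1)
    simp only [mul_one] at this
    rw [this, hcard, div_self hU.ne']
  · rw [hsum, le_div_iff₀ hU]
    have hb := hacc n f (by
      intro w θ
      have h1 := hf (fun x => decide (θ ≤ ∑ i, w i * (if x i then (1:ℝ) else -1)))
        ⟨w, θ, fun x => rfl⟩
      refine ⟨fun x => if f x ≠ decide (θ ≤ ∑ i, w i * (if x i then (1:ℝ) else -1)) then 1 else 0,
        fun x => ite_nonneg zero_le_one le_rfl, fun x => ite_le_one le_rfl zero_le_one,
        ?_, fun x => ?_⟩
      · rw [le_div_iff₀ (by positivity)] at h1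
        rw [Finset.sum_boole]
        exact h1
      · change (if f x ≠ decide (θ ≤ ∑ i, w i * Pool.Agent.Lib.MP_cd40e2_lc.sg (x i))
          then (1:ℝ) else 0) * _ * _ ≤ 0
        split_ifs with h
        · by_cases hθ : θ ≤ ∑ i, w i * Pool.Agent.Lib.MP_cd40e2_lc.sg (x i)
          · have : f x = false := by simpa [hθ] using h
            rw [this]
            simp only [Pool.Agent.Lib.MP_cd40e2_lc.sg_false]
            linarith
          · have : f x = true := by simpa [hθ] using h
            rw [this]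
            simp only [Pool.Agent.Lib.MP_cd40e2_lc.sg_true]
            linarith [not_le.mp hθ]
        · simp)
    have hpt : ∀ p : Fin n → Fin m × Bool,
        1 - (if ∃ (W : Fin m → ℝ) (θ : ℝ), ∀ y, f (Pool.Agent.Lib.MP_cd40e2_lc.emb p y) = true ↔
            θ ≤ ∑ j, W j * Pool.Agent.Lib.MP_cd40e2_lc.sg (y j) then (1:ℝ) else 0) ≤
        (if ∃ w : Fin n → ℝ, ∃ θ : ℝ, ∀ j : Fin (Fintype.card (Fin m → Bool)),
              f (Qp p j) = decide (θ ≤ ∑ i, w i * (if Qp p j i then (1:ℝ) else -1))
           then (0:ℝ) else 1) := by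
      intro p
      by_cases h : ∃ w : Fin n → ℝ, ∃ θ : ℝ, ∀ j : Fin (Fintype.card (Fin m → Bool)),
              f (Qp p j) = decide (θ ≤ ∑ i, w i * (if Qp p j i then (1:ℝ) else -1))
      · rw [if_pos h, if_pos]
        · norm_num
        · obtain ⟨w, θ, hw⟩ := h
          refine ⟨fun j => ∑ i, if (p i).1 = j then
            w i * Pool.Agent.Lib.MP_cd40e2_lc.sg (p i).2 else 0, θ, fun y => ?_⟩
          have h1 := hw (e.symm y)
          simp only [Qp, Equiv.apply_symm_apply] at h1
          rw [h1, decide_eq_true_iff]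
          have : ∑ i, w i * (if Pool.Agent.Lib.MP_cd40e2_lc.emb p y i then (1:ℝ) else -1)
              = ∑ j, (∑ i, if (p i).1 = j then
                w i * Pool.Agent.Lib.MP_cd40e2_lc.sg (p i).2 else 0)
                  * Pool.Agent.Lib.MP_cd40e2_lc.sg (y j) := by
            simp only [Finset.sum_mul]
            rw [Finset.sum_comm]
            refine Finset.sum_congr rfl fun i _ => ?_
            simp only [ite_mul, zero_mul, Finset.sum_ite_eq, Finset.mem_univ, if_true]
            rw [mul_assoc, ← Pool.Agent.Lib.MP_cd40e2_lc.sg_emb]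
            rfl
          rw [this]
      · rw [if_neg h]
        split_ifs <;> norm_num
    have h2 := Finset.sum_le_sum fun p (_ : p ∈ Finset.univ) => hpt p
    rw [Finset.sum_sub_distrib, hcard] at h2
    linarith

end Pool.Agent.S15359
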