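import Pool.Statements.S15433
import Pool.Agent.Lib.MP_d69888_lc.YMain

set_option autoImplicit false
open Pool Pool.MP_d69888_lc

namespace Pool.Agent.S15433

/-- There is a computable binary tree with no dead ends, in which every noncomputable path passes through a node with perfect subtree, whose order (minimal perfect-or-singleton nodes in lex order, perfect ones replaced by ℚ) has no computable presentation. -/
theorem result :
  ∃ T : Set (List Bool),
    (∀ σ τ : List Bool, τ ∈ T → σ <+: τ → σ ∈ T) ∧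
    [] ∈ T ∧
    ComputablePred (fun σ : List Bool => σ ∈ T) ∧
    (∀ σ ∈ T, (σ ++ [false] ∈ T ∨ σ ++ [true] ∈ T)) ∧
    ∀ B : List Bool → Set (ℕ → Bool),
      (∀ σ : List Bool, B σ = {f : ℕ → Bool |
          (∀ n : ℕ, List.ofFn (fun i : Fin n => f i.val) ∈ T) ∧
          ∀ i : Fin σ.length, σ.get i = f i.val}) →
      (∀ f : ℕ → Bool, (∀ n : ℕ, List.ofFn (fun i : Fin n => f i.val) ∈ T) →
          ¬ Computable f →
          ∃ n : ℕ, Perfect (B (List.ofFn (fun i : Fin n => f i.val)))) ∧
      ∀ M : Set (List Bool),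
        (∀ σ : List Bool, σ ∈ M ↔
            ((σ ∈ T ∧ (Perfect (B σ) ∨ ∃ g : ℕ → Bool, B σ = {g})) ∧
             ∀ τ : List Bool, τ <+: σ → τ ≠ σ →
               ¬ (τ ∈ T ∧ (Perfect (B τ) ∨ ∃ g : ℕ → Bool, B τ = {g})))) →
        ¬ ∃ (D : ℕ → Prop) (R : ℕ → ℕ → Prop),
            ComputablePred D ∧
            ComputablePred (fun p : ℕ × ℕ => R p.1 p.2) ∧
            ∃ e : {n : ℕ // D n} ≃
                {p : List Bool × ℚ // p.1 ∈ M ∧ (Perfect (B p.1) ∨ p.2 = 0)},
              ∀ a b : {n : ℕ // D n},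
                R a.val b.val ↔
                  (((e a).val.1 ≠ (e b).val.1 ∧
                      List.Lex (· < ·) (e a).val.1 (e b).val.1) ∨
                   ((e a).val.1 = (e b).val.1 ∧ (e a).val.2 < (e b).val.2)) := by
  obtain ⟨T, hT, hc, hq, hno⟩ := Pool.Agent.Lib.MP_d69888_lc.Yes.main
  refine ⟨T, hT.closed, hT.root, hc, hT.live, fun B hB => ?_⟩
  have e : B = Pool.Agent.Lib.MP_d69888_lc.Cone T := by
    funext σ
    rw [hB]
    ext f
    refine and_congr Iff.rfl ⟨fun h => ?_, fun h i => ?_⟩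
    · apply List.ext_getElem
      · simp
      · intro i h1 h2
        simpa [Pool.Agent.Lib.MP_d69888_lc.seg] using (h ⟨i, h2⟩).symm
    · have h1 := Pool.Agent.Lib.MP_d69888_lc.seg_getD f i.2
      rw [h] at h1
      simpa using h1
  subst e
  refine ⟨hq, fun M hM => ?_⟩
  have e : M = {σ | Pool.Agent.Lib.MP_d69888_lc.InM T σ} := Set.ext hM
  subst e
  exact hno

end Pool.Agent.S15433
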