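import Pool.Statements.S15480
import Pool.Agent.Lib.MP_dd30de_lc.Tightness

set_option autoImplicit false
open Pool Pool.MP_dd30de_lc

namespace Pool.Agent.S15480

/-- The negation of the preceding statement: Every conjugacy class in the unitary group of ℓ² (strong operator Borel structure) lies in a Borel set B with a probability measure μ such that μ{x : g·x·h ∈ B} = 0 for all unitaries g, h, i.e. every conjugacy class is Haar null. -/
theorem result :
    ¬ (∀ M : MeasurableSpace (unitary (lp (fun _ : ℕ => ℂ) 2 →L[ℂ] lp (fun _ : ℕ => ℂ) 2)),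
      M = MeasurableSpace.comap
        (fun U : unitary (lp (fun _ : ℕ => ℂ) 2 →L[ℂ] lp (fun _ : ℕ => ℂ) 2) =>
          fun n : ℕ => U.1 (lp.single 2 n (1 : ℂ)))
        (@MeasurableSpace.pi ℕ (fun _ => lp (fun _ : ℕ => ℂ) 2)
          (fun _ => borel (lp (fun _ : ℕ => ℂ) 2))) →
      ∀ a : unitary (lp (fun _ : ℕ => ℂ) 2 →L[ℂ] lp (fun _ : ℕ => ℂ) 2),
        ∃ B : Set (unitary (lp (fun _ : ℕ => ℂ) 2 →L[ℂ] lp (fun _ : ℕ => ℂ) 2)),
          @MeasurableSet _ M B ∧ {x | IsConj a x} ⊆ B ∧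
          ∃ μ : @MeasureTheory.Measure
              (unitary (lp (fun _ : ℕ => ℂ) 2 →L[ℂ] lp (fun _ : ℕ => ℂ) 2)) M,
            @MeasureTheory.IsProbabilityMeasure
              (unitary (lp (fun _ : ℕ => ℂ) 2 →L[ℂ] lp (fun _ : ℕ => ℂ) 2)) M μ ∧
            ∀ g h : unitary (lp (fun _ : ℕ => ℂ) 2 →L[ℂ] lp (fun _ : ℕ => ℂ) 2),
              μ {x | g * x * h ∈ B} = 0) := by
  intro h
  let H := lp (fun _ : ℕ => ℂ) 2
  let e : HilbertBasis ℕ ℂ H := ⟨LinearIsometryEquiv.refl ℂ _⟩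
  have he : ∀ n, e n = lp.single 2 n (1 : ℂ) := fun n => (e.repr_symm_single n).symm
  obtain ⟨a, -, ha⟩ := Pool.Agent.Lib.MP_dd30de_lc.exists_class_not_null e
  let Φ : unitary (H →L[ℂ] H) ≃* (H ≃ₗᵢ[ℂ] H) := Unitary.linearIsometryEquiv
  obtain ⟨B, -, hB, μ, hμ, hnull⟩ := h _ rfl (Φ.symm a)
  let _ : MeasurableSpace H := borel H
  have : BorelSpace H := ⟨rfl⟩
  let F : unitary (H →L[ℂ] H) → ℕ → H := fun U n => U.1 (lp.single 2 n (1 : ℂ))
  let _ : MeasurableSpace (unitary (H →L[ℂ] H)) := MeasurableSpace.comap F inferInstance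
  have hF : Measurable F := comap_measurable F
  obtain ⟨g, hg⟩ := ha μ Φ (fun i j => by
    have h1 : Measurable (fun U => F U j) := (measurable_pi_apply j).comp hF
    have h2 : Continuous (fun y : H => ‖inner ℂ (e i) y‖) := by fun_prop
    have h3 := h2.measurable.comp h1
    rw [he j]
    exact h3)
  refine hg (MeasureTheory.measure_mono_null (fun x hx => ?_) (hnull (Φ.symm g) 1))
  apply hB
  have h4 := (Φ.symm : (H ≃ₗᵢ[ℂ] H) →* unitary (H →L[ℂ] H)).map_isConj hx
  simpa using h4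

end Pool.Agent.S15480
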