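import Pool.Statements.S15740
import Pool.Agent.Lib.MP_73239e_mp.Count

set_option autoImplicit false
open Pool Pool.MP_73239e_mp

namespace Pool.Agent.S15740

/-- The negation of the preceding statement: For λ>0 and irrational α in (0,1), the spectrum of the Sturmian operator with frequency α and that with frequency {1/α} have open neighbourhoods related by a C¹ diffeomorphism that carries one spectrum onto the other. -/
theorem result :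
    ¬ (∀ lam : ℝ, 0 < lam → ∀ α : ℝ, Irrational α → 0 < α → α < 1 →
      ∀ H₁ H₂ : lp (fun _ : ℤ => ℂ) 2 →L[ℂ] lp (fun _ : ℤ => ℂ) 2,
        (∀ (ψ : lp (fun _ : ℤ => ℂ) 2) (n : ℤ),
            H₁ ψ n = ψ (n + 1) + ψ (n - 1)
              + ((if 1 - α ≤ Int.fract ((n : ℝ) * α) then lam else 0 : ℝ) : ℂ) * ψ n) →
        (∀ (ψ : lp (fun _ : ℤ => ℂ) 2) (n : ℤ),
            H₂ ψ n = ψ (n + 1) + ψ (n - 1)
              + ((if 1 - Int.fract α⁻¹ ≤ Int.fract ((n : ℝ) * Int.fract α⁻¹) then lam else 0 : ℝ) : ℂ)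
                * ψ n) →
        ∃ U V : Set ℝ, IsOpen U ∧ IsOpen V ∧
          {E : ℝ | (E : ℂ) ∈ spectrum ℂ H₁} ⊆ U ∧
          {E : ℝ | (E : ℂ) ∈ spectrum ℂ H₂} ⊆ V ∧
          ∃ f g : ℝ → ℝ, Set.MapsTo f U V ∧ Set.MapsTo g V U ∧ Set.InvOn g f U V ∧
            ContDiffOn ℝ 1 f U ∧ ContDiffOn ℝ 1 g V ∧
            f '' {E : ℝ | (E : ℂ) ∈ spectrum ℂ H₁} = {E : ℝ | (E : ℂ) ∈ spectrum ℂ H₂}) := by
  intro h
  obtain ⟨β, hirr, b0, b1, hgood⟩ := Lib.MP_73239e_mp.exists_good (lam := 1) one_pos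
  have hfr : Int.fract ((5 + β)⁻¹)⁻¹ = β := by
    rw [inv_inv, show (5 : ℝ) = ((5 : ℤ) : ℝ) by norm_num, Int.fract_intCast_add,
      Int.fract_eq_self.mpr ⟨b0.le, b1⟩]
  have hirr' : Irrational (5 + β)⁻¹ := by
    have := (hirr.natCast_add 5).inv
    simpa using this
  obtain ⟨H₁, hH₁⟩ := Lib.MP_73239e_mp.exists_isSchr _ 1
    (Lib.MP_73239e_mp.abs_pot_le zero_le_one (5 + β)⁻¹)
  obtain ⟨H₂, hH₂⟩ := Lib.MP_73239e_mp.exists_isSchr _ 1
    (Lib.MP_73239e_mp.abs_pot_le zero_le_one β)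
  obtain ⟨U, V, -, hV, hAU, hBV, f, g, -, -, hinv, -, hg, hfAB⟩ :=
    h 1 one_pos (5 + β)⁻¹ hirr' (by positivity) (inv_lt_one_of_one_lt₀ (by linarith)) H₁ H₂ hH₁
      (by rw [hfr]; exact hH₂)
  change Lib.MP_73239e_mp.Spec H₁ ⊆ U at hAU
  change Lib.MP_73239e_mp.Spec H₂ ⊆ V at hBV
  change f '' Lib.MP_73239e_mp.Spec H₁ = Lib.MP_73239e_mp.Spec H₂ at hfAB
  have hloc : LocallyLipschitzOn (Lib.MP_73239e_mp.Spec H₂) g := by
    intro b hb
    obtain ⟨K, t, ht, hK⟩ := (hg.contDiffAt (hV.mem_nhds (hBV hb))).exists_lipschitzOnWith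
    exact ⟨K, t, mem_nhdsWithin_of_mem_nhds ht, hK⟩
  obtain ⟨K, hK⟩ := hloc.exists_lipschitzOnWith_of_compact (Lib.MP_73239e_mp.isCompact_Spec H₂)
  obtain ⟨L, hL⟩ := exists_nat_ge (K : ℝ)
  obtain ⟨ε, -, k, hs1, hs2⟩ := hgood L H₁ H₂ hH₁ hH₂
  apply hs2
  refine Lib.MP_73239e_mp.Sep.of_lipschitz (g := g) (Nat.cast_nonneg L) ?_ ?_ ?_ hs1
  · intro b hb b' hb'
    have := hK.dist_le_mul b hb b' hb'
    rw [Real.dist_eq, Real.dist_eq] at this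
    exact le_trans this (by gcongr)
  · intro b hb
    rw [← hfAB] at hb
    obtain ⟨a, ha, rfl⟩ := hb
    rw [hinv.1 (hAU ha)]
    exact ha
  · intro a ha
    exact ⟨f a, by rw [← hfAB]; exact ⟨a, ha, rfl⟩, hinv.1 (hAU ha)⟩

end Pool.Agent.S15740
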