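import Pool.Statements.S15791
import Pool.Agent.Lib.MP_c73c36_mp.Inst

set_option autoImplicit false
open Pool Pool.MP_c73c36_mp

namespace Pool.Agent.S15791

/-- In some dimension d≥2 there is a finite tile set with finitely many forbidden patterns, having valid tilings, none periodic, exactly one shift-invariant probability measure on them, and with ∣patch-count change∣ ≤ C_A·(broken bonds) for every finite excitation. -/
theorem result :
  ∃ d : ℕ, 2 ≤ d ∧ ∃ k m : ℕ, ∃ F : Fin m → Finset (Fin d → ℤ) × ((Fin d → ℤ) → Fin k),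
    (∃ X : (Fin d → ℤ) → Fin k, ∀ j : Fin m, ∀ a : Fin d → ℤ,
        ¬ ∀ i ∈ (F j).1, X (i + a) = (F j).2 i) ∧
    (∀ X : (Fin d → ℤ) → Fin k,
        (∀ j : Fin m, ∀ a : Fin d → ℤ, ¬ ∀ i ∈ (F j).1, X (i + a) = (F j).2 i) →
        ∀ a : Fin d → ℤ, a ≠ 0 → (fun i => X (i - a)) ≠ X) ∧
    (∃! μ : MeasureTheory.Measure ((Fin d → ℤ) → Fin k),
        MeasureTheory.IsProbabilityMeasure μ ∧
        μ {X : (Fin d → ℤ) → Fin k | ∀ j : Fin m, ∀ a : Fin d → ℤ,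
            ¬ ∀ i ∈ (F j).1, X (i + a) = (F j).2 i}ᶜ = 0 ∧
        ∀ a : Fin d → ℤ,
          MeasureTheory.Measure.map (fun X : (Fin d → ℤ) → Fin k => fun i => X (i - a)) μ = μ) ∧
    ∀ DA : Finset (Fin d → ℤ), ∀ pA : (Fin d → ℤ) → Fin k, ∃ C : ℝ,
      ∀ X Y : (Fin d → ℤ) → Fin k,
        (∀ j : Fin m, ∀ a : Fin d → ℤ, ¬ ∀ i ∈ (F j).1, X (i + a) = (F j).2 i) →
        {i : Fin d → ℤ | Y i ≠ X i}.Finite →
        |((((Set.ncard {a : Fin d → ℤ | (∀ i ∈ DA, Y (i + a) = pA i) ∧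
                ¬ ∀ i ∈ DA, X (i + a) = pA i} : ℕ) : ℤ) -
            ((Set.ncard {a : Fin d → ℤ | (∀ i ∈ DA, X (i + a) = pA i) ∧
                ¬ ∀ i ∈ DA, Y (i + a) = pA i} : ℕ) : ℤ) : ℤ) : ℝ)|
          ≤ C * ((Set.ncard {q : Fin m × (Fin d → ℤ) |
                  ∀ i ∈ (F q.1).1, Y (i + q.2) = (F q.1).2 i} : ℕ) : ℝ) := by
  exact Pool.Agent.Lib.MP_c73c36_mp.final_of_sim Pool.Agent.Lib.MP_c73c36_mp.theSim

end Pool.Agent.S15791
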