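import Pool.Statements.S15893
import Pool.Agent.Lib.MP_0496af_nt.Main

set_option autoImplicit false
open Pool Pool.MP_0496af_nt

namespace Pool.Agent.S15893

/-- Some transcendental real ξ has every w_n(ξ) finite, has w_n(ξ)/n unbounded (so it is a T-number), and is normal: in every base b ≥ 2, every block of k digits appears with limiting frequency b^(-k). -/
theorem result :
    ∃ ξ : ℝ, Transcendental ℤ ξ ∧
      (∀ n : ℕ, 1 ≤ n → ∃ W : ℝ,
        Set.Finite {P : Polynomial ℤ | P.natDegree ≤ n ∧ 0 < |Polynomial.aeval ξ P| ∧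
          |Polynomial.aeval ξ P| ≤
            ((P.support.sup (fun i => (P.coeff i).natAbs) : ℕ) : ℝ) ^ (-W)}) ∧
      (∀ M : ℝ, ∃ n : ℕ, 1 ≤ n ∧ ∃ w : ℝ, M * (n : ℝ) < w ∧
        Set.Infinite {P : Polynomial ℤ | P.natDegree ≤ n ∧ 0 < |Polynomial.aeval ξ P| ∧
          |Polynomial.aeval ξ P| ≤
            ((P.support.sup (fun i => (P.coeff i).natAbs) : ℕ) : ℝ) ^ (-w)}) ∧
      (∀ b : ℕ, 2 ≤ b → ∀ k : ℕ, 1 ≤ k → ∀ d : Fin k → Fin b,
        Filter.Tendsto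
          (fun N : ℕ =>
            (((Finset.range N).filter (fun j : ℕ => ∀ i : Fin k,
                ⌊ξ * (b : ℝ) ^ (j + 1 + (i : ℕ))⌋ % (b : ℤ) = (((d i : ℕ)) : ℤ))).card : ℝ)
              / (N : ℝ))
          Filter.atTop (nhds (1 / (b : ℝ) ^ k))) := by
  obtain ⟨ξ, ⟨h1, h2, h3⟩, h4⟩ := Pool.Agent.Lib.MP_0496af_nt.exists_normal_T
  refine ⟨ξ, h1, h2, fun M => ?_, fun b hb k _ d =>
    Pool.Agent.Lib.MP_0496af_nt.normal_of_weyl ξ b hb (h4 b hb) k d⟩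
  obtain ⟨d, hd⟩ := exists_nat_gt (max M 1)
  have hd1 : (1 : ℝ) < d := lt_of_le_of_lt (le_max_right _ _) hd
  have hd2 : 2 ≤ d := by exact_mod_cast hd1
  have hM : M < d := lt_of_le_of_lt (le_max_left _ _) hd
  refine ⟨d, by omega, ((d ^ 2 : ℕ) : ℝ), ?_, h3 d hd2⟩
  push_cast
  nlinarith

end Pool.Agent.S15893
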