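import Pool.Statements.S19641
import Pool.Agent.Lib.MP_cb200a_pr.CplMain

set_option autoImplicit false
open Pool Pool.MP_cb200a_pr

namespace Pool.Agent.S19641

/-- For n>k, take strictly increasing n-tuples of naturals summing to k+n(n-1)/2, weighted by the product of squared pairwise differences. Then the law of the largest entry is log-concave: P(j-1)P(j+1) ≤ P(j)^2 for every integer j. -/
theorem result :
    ∀ m k : ℕ, k < m + 1 →
    ∀ w : (Fin (m + 1) → Fin (k + (m + 1) * m / 2 + 1)) → ℝ,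
    (∀ h : Fin (m + 1) → Fin (k + (m + 1) * m / 2 + 1),
      w h = ∏ i : Fin (m + 1), ∏ j : Fin (m + 1),
        (if i < j then (((h j : ℕ) : ℝ) - ((h i : ℕ) : ℝ)) ^ 2 else 1)) →
    ∀ P : ℤ → ℝ,
    (∀ t : ℤ, P t =
      (∑ h ∈ Finset.univ.filter
          (fun h : Fin (m + 1) → Fin (k + (m + 1) * m / 2 + 1) =>
            (∀ a b : Fin (m + 1), a < b → h a < h b) ∧
            (∑ i : Fin (m + 1), (h i : ℕ)) = k + (m + 1) * m / 2 ∧
            ((h (Fin.last m) : ℕ) : ℤ) = t), w h) /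
      (∑ h ∈ Finset.univ.filter
          (fun h : Fin (m + 1) → Fin (k + (m + 1) * m / 2 + 1) =>
            (∀ a b : Fin (m + 1), a < b → h a < h b) ∧
            (∑ i : Fin (m + 1), (h i : ℕ)) = k + (m + 1) * m / 2), w h)) →
    ∀ j : ℤ, P (j - 1) * P (j + 1) ≤ P j ^ 2 := by
  intro m k hk w hw P hP j
  have hS : k + (m + 1) * m / 2 < (m + 1).choose 2 + (m + 1) := by
    rw [Nat.choose_two_right, Nat.add_sub_cancel]; omega
  rcases lt_or_ge j 1 with h | h
  · have : P (j - 1) = 0 := by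
      rw [hP, Finset.filter_false_of_mem fun g _ c => by have := c.2.2; omega]
      simp
    rw [this, zero_mul]; positivity
  · obtain ⟨J, rfl⟩ : ∃ J : ℕ, j = ((J + 1 : ℕ) : ℤ) := ⟨(j - 1).toNat, by push_cast; omega⟩
    have e1 : ((J + 1 : ℕ) : ℤ) - 1 = (J : ℕ) := by push_cast; ring
    have e2 : ((J + 1 : ℕ) : ℤ) + 1 = (J + 2 : ℕ) := by push_cast; ring
    rw [e1, e2, hP, hP, hP, Pool.Agent.Lib.MP_cb200a_pr.num_Wt m _ w hw,
      Pool.Agent.Lib.MP_cb200a_pr.num_Wt m _ w hw, Pool.Agent.Lib.MP_cb200a_pr.num_Wt m _ w hw,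
      div_mul_div_comm, div_pow, ← sq]
    exact div_le_div_of_nonneg_right (Pool.Agent.Lib.MP_cb200a_pr.Wt_logconc hS J) (sq_nonneg _)

end Pool.Agent.S19641
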